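import Pool.Agent.H86.LU.Sc
import Pool.Agent.H62.EF.SecL

/-!
# LU Cpt: the compact case
-/

set_option autoImplicit false

open Topology Filter Metric

namespace Pool.Agent.H86.LU

open Pool.Agent.H36.BP (EN fs wd IsGermChart)
open Pool.Agent.H14.PP (IsCone Chart Tan CurveAt)
open Pool.Agent.H62.EF (Lat MN pr TorusMap Sec Charts DU det2 pr_smul pr_eq_iff near_of_pr isCompact_pr sec_uniq)
open Pool.Agent.H62.EL (TForm Per VanZero Thin tc)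
open Pool.Agent.H18.LU (OCone Dsc LogP HorAt ResBd LBase EBase part Nb)

variable {N : ℕ} {X D : Set (EN N)} {Λ Γ : AddSubgroup ℂ} {u : EN N → ℂ} {B : Set ℂ} {δ : ℝ}

theorem dsc_closed (hΛ : Dsc Λ) : IsClosed (Λ : Set ℂ) := by
  refine isClosed_of_closure_subset fun a ha => ?_
  refine hΛ.mem_of_close fun ε hε => ?_
  obtain ⟨b, hb, hd⟩ := Metric.mem_closure_iff.1 ha ε hε
  exact ⟨b, hb, by rwa [dist_eq_norm] at hd⟩

theorem mem_Nb (hΛ : Dsc Λ) {R : ℝ} {z : ℂ} : z ∈ Nb Λ R ↔ infDist z (Λ : Set ℂ) ≤ R := by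
  constructor
  · rintro ⟨l, hl, h⟩
    exact (infDist_le_dist_of_mem hl).trans (by rwa [dist_eq_norm])
  · intro h
    obtain ⟨l, hl, h1⟩ := (dsc_closed hΛ).exists_infDist_eq_dist ⟨0, Λ.zero_mem⟩ z
    exact ⟨l, hl, by rw [← dist_eq_norm, ← h1]; exact h⟩

theorem Nb_add {R : ℝ} {z w : ℂ} (h : z ∈ Nb Λ R) (hzw : w - z ∈ Λ) : w ∈ Nb Λ R := by
  obtain ⟨l, hl, h1⟩ := h
  refine ⟨l + (w - z), Λ.add_mem hl hzw, ?_⟩
  have e : w - (l + (w - z)) = z - l := by ring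
  rw [e]
  exact h1

theorem part_closed (hX : IsCone X) (hu : TorusMap X Λ u) (hΛ : Dsc Λ) (R : ℝ) : IsClosed (insert 0 (part X Λ u R)) := by
  refine isClosed_of_closure_subset fun x hx => ?_
  by_cases hx0 : x = 0
  · exact Or.inl hx0
  right
  have hxX : x ∈ X := by
    have h1 : x ∈ closure (insert 0 X) := closure_mono (Set.insert_subset_insert fun y hy => hy.1) hx
    rw [hX.closed.closure_eq] at h1
    exact h1.resolve_left hx0
  refine ⟨hxX, ?_⟩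
  obtain ⟨v, hv, hvu⟩ := hu.loc x hxX
  have h1 : v x ∈ Nb Λ R := by
    rw [mem_Nb hΛ]
    by_contra h2
    push Not at h2
    have h3 : ContinuousAt (fun y => infDist (v y) (Λ : Set ℂ)) x :=
      ContinuousAt.comp (g := fun z => infDist z (Λ : Set ℂ)) (f := v) (continuous_infDist_pt _).continuousAt hv.continuousAt
    have h4 : ∀ᶠ y in 𝓝 x, R < infDist (v y) (Λ : Set ℂ) := h3.eventually_const_lt h2
    have h5 : ∀ᶠ y in 𝓝 x, y ≠ 0 := continuousAt_id.eventually_ne hx0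
    obtain ⟨y, hy, h6, h7, h8⟩ := ((mem_closure_iff_frequently.1 hx).and_eventually (h4.and (h5.and hvu))).exists
    have hy2 : y ∈ part X Λ u R := hy.resolve_left h7
    have h9 := (mem_Nb hΛ).1 (Nb_add hy2.2 (w := v y) (by
      have := Λ.neg_mem (h8 hy2.1)
      rwa [neg_sub] at this))
    exact absurd h6 (not_lt.2 h9)
  exact Nb_add h1 (hvu.self_of_nhds hxX)

theorem lbase (E : EBase X D Λ Γ u B δ) : LBase X D Λ Γ u B δ where
  cone := E.cone.ocone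
  closed := part_closed E.cone E.tor E.lat.dsc
  charts := E.charts
  tor := E.tor
  dsc := E.lat.dsc
  le := E.le
  cof := by
    obtain ⟨R, hR, h⟩ := E.latΓ.cocompact
    exact ⟨R, hR, fun l _ => h l⟩
  bad := E.bad
  zero := E.zero
  D_sub := E.D_sub
  D_smul := E.D_smul
  D_closed := E.D_closed
  hor := E.hor
  horB := E.horB
  nc := E.nc
  fib := E.fib

/-- all points of `D` have adapted coordinates -/
theorem hor_all (L : LBase X D Λ Γ u B δ) : ∀ x ∈ D, ∃ (b : ℂ) (i : ℕ), 1 ≤ i ∧ HorAt X Λ u D x b i := by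
  intro x hx
  by_cases h : ∃ b ∈ B, u x - b ∈ Λ
  · obtain ⟨b, hb, hbx⟩ := h
    obtain ⟨i, hi, h1⟩ := L.horB b hb x hx hbx
    exact ⟨b, i, hi, h1⟩
  · push Not at h
    exact ⟨u x, 1, le_rfl, L.hor x hx h⟩

theorem RA.per {α : TForm (X \ D) Λ u} (hX : OCone X) (hs : ∀ x ∈ D, ∀ c : ℂ, c ≠ 0 → c • x ∈ D) (hcl : ∀ x ∈ X, x ∉ D → ∀ᶠ y in 𝓝 x, y ∉ D)
    (hper : Per α Γ) (hle : Γ ≤ Λ) {x : EN N} {z ρ l : ℂ} (hl : l ∈ Γ) (h : RA α x z ρ) : RA α x (z + l) ρ := by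
  obtain ⟨σ, τ, g, h1, h0, hD, hlf, hg, hge, hρ⟩ := h
  have hY := ocone_sdiff hX hs
  refine ⟨σ, τ, g, h1, h0, hD, ?_, hg, ?_, hρ⟩
  · filter_upwards [hlf] with p hp
    have h2 := Λ.sub_mem hp (hle hl)
    have e : u (σ p) - (z + p.1) - l = u (σ p) - (z + l + p.1) := by ring
    rwa [e] at h2
  · filter_upwards [hge, hlf, hD, h1.σ_mem.eventually_nhds, h1.σ_an.eventually_analyticAt] with p h2 h3 h4 h5 h6 h7
    have hmX : σ p ∈ X := h5.self_of_nhds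
    have hmD : σ p ∉ D := fun h8 => h7 (h4.1 h8)
    have hmem : ∀ᶠ q in 𝓝 p, σ q ∈ X \ D := by
      filter_upwards [h5, h6.continuousAt.eventually (hcl _ hmX hmD)] with q h9 h10
      exact ⟨h9, h10⟩
    have htA : ∀ A : ℂ × ℂ, Tan (X \ D) (σ p) (fderiv ℂ σ p A) := by
      intro A
      have := tan_param hY h6 hmem A 0
      rwa [zero_smul, add_zero] at this
    rw [← h2 h7]
    show p.2 * α.toFun (z + l + p.1) (σ p) _ _ = p.2 * α.toFun (z + p.1) (σ p) _ _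
    have e : z + l + p.1 = z + p.1 + l := by ring
    rw [e, hper (z + p.1) l hl (σ p) ⟨hmX, hmD⟩ h3 _ _ (htA (1, 0)) (htA (0, 1))]

theorem isolated_pts (hu : TorusMap X Λ u) (hΛ : Dsc Λ) (hsub : D ⊆ X) (hX0 : (0 : EN N) ∉ X)
    (hs : ∀ x ∈ D, ∀ c : ℂ, c ≠ 0 → c • x ∈ D) (hcl : ∀ x ∈ X, x ∉ D → ∀ᶠ y in 𝓝 x, y ∉ D)
    (hh : ∀ x ∈ D, ∃ (b : ℂ) (i : ℕ), 1 ≤ i ∧ HorAt X Λ u D x b i) {x₀ : EN N} (hx₀ : x₀ ∈ X) :
    ∃ ε : ℝ, 0 < ε ∧ ∀ x ∈ D, u x ∈ Λ → dist (pr x) (pr x₀) < ε → pr x = pr x₀ := by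
  have hx0 : x₀ ≠ 0 := fun h => hX0 (h ▸ hx₀)
  by_cases hD : x₀ ∈ D
  · obtain ⟨b, i, hi, hb⟩ := hh x₀ hD
    obtain ⟨σ, τ, r, B, h0, hg⟩ := exists_bx_at hb
    have hcov := B.cover hs hsub
    rw [h0] at hcov
    have hτ0 : τ x₀ = 0 := by
      have h6 := hg.left.self_of_nhds
      rwa [h0] at h6
    have hτa : AnalyticAt ℂ τ x₀ := by
      have h6 := hg.τ_an
      rwa [h0] at h6
    have hτc : ContinuousAt (fun y => (τ y).1 ^ i) x₀ := hτa.continuousAt.fst.pow i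
    have hτ00 : (τ x₀).1 ^ i = 0 := by
      rw [hτ0]
      exact zero_pow (by omega)
    have hz : ∀ᶠ y in 𝓝 x₀, b + (τ y).1 ^ i ∈ Λ → (τ y).1 ^ i = 0 := by
      by_cases hbΛ : b ∈ Λ
      · filter_upwards [dsc_eq hΛ hτc hτ00] with y h1 h2
        apply h1
        have h3 := Λ.sub_mem h2 hbΛ
        rwa [add_sub_cancel_left] at h3
      · have h1 : ContinuousAt (fun y => b + (τ y).1 ^ i) x₀ := continuousAt_const.add hτc
        have h2 : ∀ᶠ y in 𝓝 x₀, b + (τ y).1 ^ i ∈ ((Λ : Set ℂ))ᶜ := by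
          apply h1.eventually_mem
          refine (dsc_closed hΛ).isOpen_compl.mem_nhds ?_
          show b + (τ x₀).1 ^ i ∉ (Λ : Set ℂ)
          rw [hτ00, add_zero]
          exact hbΛ
        filter_upwards [h2] with y h3 h4
        exact absurd h4 h3
    obtain ⟨ε, hε, h1⟩ := near_of_pr hx0 (hz.and hcov)
    refine ⟨ε, hε, fun x hx hux hd => ?_⟩
    have hxX : x ∈ X := hsub hx
    obtain ⟨c, hc, h2, h3⟩ := h1 x (fun h => hX0 (h ▸ hxX)) hd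
    obtain ⟨c', s, hc', hsr, h4, h5⟩ := h3 (hs x hx c hc)
    have h6 : b + s ^ i ∈ Λ := by
      have hm := mem_ball_s0 hsr
      have h7 := B.lift _ hm
      have h8 := hu.smul _ (B.mem _ hm) c' hc'
      rw [← h4] at h8
      have h9 := Λ.add_mem (hu.smul x hxX c hc) hux
      rw [sub_add_cancel] at h9
      have h10 := Λ.sub_mem h9 (Λ.add_mem h8 h7)
      have e : u (c • x) - (u (c • x) - u (σ (s, 0)) + (u (σ (s, 0)) - (b + ((s, 0) : ℂ × ℂ).1 ^ i))) = b + s ^ i := by ring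
      rwa [e] at h10
    rw [h5] at h2
    have h7 : s = 0 := by
      have := h2 h6
      exact pow_eq_zero_iff (by omega) |>.1 this
    rw [← pr_smul x hc, h4, h7, pr_smul _ hc', ← h0]
    rfl
  · obtain ⟨ε, hε, h1⟩ := near_of_pr hx0 (hcl x₀ hx₀ hD)
    refine ⟨ε, hε, fun x hx hux hd => ?_⟩
    obtain ⟨c, hc, h2⟩ := h1 x (fun h => hX0 (h ▸ hsub hx)) hd
    exact absurd (hs x hx c hc) h2

theorem finite_pts (hX : IsCone X) (hu : TorusMap X Λ u) (hΛ : Dsc Λ) (hsub : D ⊆ X)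
    (hs : ∀ x ∈ D, ∀ c : ℂ, c ≠ 0 → c • x ∈ D) (hcl : ∀ x ∈ X, x ∉ D → ∀ᶠ y in 𝓝 x, y ∉ D)
    (hh : ∀ x ∈ D, ∃ (b : ℂ) (i : ℕ), 1 ≤ i ∧ HorAt X Λ u D x b i) : {y : MN N | ∃ x ∈ D, u x ∈ Λ ∧ pr x = y}.Finite := by
  set S : Set (MN N) := {y : MN N | ∃ x ∈ D, u x ∈ Λ ∧ pr x = y} with hS
  have h1 : (S ∩ pr '' X).Finite := by
    refine (isCompact_pr hX).induction_on (p := fun t => (S ∩ t).Finite) (by simp) ?_ ?_ ?_
    · intro s t hst ht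
      exact ht.subset (Set.inter_subset_inter_right S hst)
    · intro s t h2 h3
      rw [Set.inter_union_distrib_left]
      exact h2.union h3
    · rintro _ ⟨x₀, hx₀, rfl⟩
      obtain ⟨ε, hε, h2⟩ := isolated_pts hu hΛ hsub hX.zero_notMem hs hcl hh hx₀
      refine ⟨ball (pr x₀) ε, nhdsWithin_le_nhds (ball_mem_nhds _ hε), ?_⟩
      refine (Set.finite_singleton (pr x₀)).subset ?_
      rintro y ⟨⟨x, hx, hux, rfl⟩, hy⟩
      exact h2 x hx hux hy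
  refine h1.subset ?_
  rintro y ⟨x, hx, hux, rfl⟩
  exact ⟨⟨x, hx, hux, rfl⟩, x, hsub hx, rfl⟩

/-- two sections in `D` with the same value at `0` agree -/
theorem sec_D_uniq (hX : IsCone X) (hu : TorusMap X Λ u) (hΛ : Dsc Λ) (hsub : D ⊆ X)
    (hs : ∀ x ∈ D, ∀ c : ℂ, c ≠ 0 → c • x ∈ D) (hh : ∀ x ∈ D, ∃ (b : ℂ) (i : ℕ), 1 ≤ i ∧ HorAt X Λ u D x b i)
    {F G : ℂ → EN N} (hF : Differentiable ℂ F) (hFD : ∀ z, F z ∈ D) (hFu : ∀ z, u (F z) - z ∈ Λ)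
    (hG : Differentiable ℂ G) (hGD : ∀ z, G z ∈ D) (hGu : ∀ z, u (G z) - z ∈ Λ) (h0 : pr (F 0) = pr (G 0)) (z : ℂ) : pr (F z) = pr (G z) := by
  have hne : ∀ x ∈ D, x ≠ 0 := fun x hx h => hX.zero_notMem (h ▸ hsub hx)
  obtain ⟨c₀, hc₀, h1⟩ := (pr_eq_iff (hne _ (hFD 0)) (hne _ (hGD 0))).1 h0
  obtain ⟨σ, τ, r, B, h2, -⟩ := sec_chart hu hΛ hsub hs hh hG hGD hGu 0
  have h3 := sec_near hu hΛ hsub hs hG hGD hGu B h2
  have h4 := sec_near hu hΛ hsub hs (F := fun z => c₀⁻¹ • F z) (hF.const_smul c₀⁻¹) (fun z => hs _ (hFD z) _ (inv_ne_zero hc₀)) (fun z => by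
    have h5 := Λ.add_mem (hu.smul _ (hsub (hFD z)) c₀⁻¹ (inv_ne_zero hc₀)) (hFu z)
    have e : u (c₀⁻¹ • F z) - u (F z) + (u (F z) - z) = u (c₀⁻¹ • F z) - z := by ring
    rwa [e] at h5) B (by rw [h2, h1, smul_smul, inv_mul_cancel₀ hc₀, one_smul])
  refine sec_uniq hX (z₀ := 0) ⟨hF, fun z => hsub (hFD z), hFu⟩ ⟨hG, fun z => hsub (hGD z), hGu⟩ ?_ z
  filter_upwards [h3, h4] with w h5 h6
  obtain ⟨-, c, hc, h7⟩ := h5
  obtain ⟨-, c', hc', h8⟩ := h6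
  rw [h7, pr_smul _ hc, ← pr_smul (F w) (inv_ne_zero hc₀), h8, pr_smul _ hc']

theorem resBd (E : EBase X D Λ Γ u B δ) {α : TForm (X \ D) Λ u} (hlog : LogP α) (hper : Per α Γ) : ResBd α := by
  have hX := E.cone.ocone
  have hΛ := E.lat.dsc
  have hh := hor_all (lbase E)
  intro F hF hFD hFu
  obtain ⟨ρ, hρ, hRA⟩ := res_fun hX E.tor hΛ E.D_sub E.D_smul E.D_closed hh hlog hF hFD hFu
  have hne : ∀ x ∈ D, x ≠ 0 := fun x hx h => E.cone.zero_notMem (h ▸ E.D_sub hx)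
  -- the periods
  have hP1 : ∀ l ∈ Γ, (∀ z, pr (F (z + l)) = pr (F z)) → ∀ z, ρ (z + l) = ρ z := by
    intro l hl h1 z
    obtain ⟨c, hc, h2⟩ := (pr_eq_iff (hne _ (hFD _)) (hne _ (hFD _))).1 (h1 z)
    have h3 := ((hRA z).per hX E.D_smul E.D_closed hper E.le hl).smul hX E.tor E.D_smul E.D_closed hc
    rw [← h2] at h3
    exact RA.unique hX E.tor hΛ E.D_smul E.D_closed (hRA (z + l)) h3
  have hfin : ((fun l : ℂ => pr (F l)) '' (Γ : Set ℂ)).Finite := by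
    refine (finite_pts E.cone E.tor hΛ E.D_sub E.D_smul E.D_closed hh).subset ?_
    rintro _ ⟨l, hl, rfl⟩
    refine ⟨F l, hFD l, ?_, rfl⟩
    have h1 := Λ.add_mem (hFu l) (E.le hl)
    rwa [sub_add_cancel] at h1
  have hrep : ∀ y ∈ (fun l : ℂ => pr (F l)) '' (Γ : Set ℂ), ∃ l ∈ Γ, pr (F l) = y := fun y hy => hy
  choose! φ hφ using hrep
  obtain ⟨M, hM⟩ : ∃ M : ℝ, ∀ y ∈ (fun l : ℂ => pr (F l)) '' (Γ : Set ℂ), ‖φ y‖ ≤ M := by
    obtain ⟨M, hM⟩ := (hfin.image fun y => ‖φ y‖).bddAbove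
    exact ⟨M, fun y hy => hM ⟨y, hy, rfl⟩⟩
  obtain ⟨R, hR, hcc⟩ := E.latΓ.cocompact
  obtain ⟨C, hC⟩ : ∃ C : ℝ, ∀ z ∈ closedBall (0 : ℂ) (R + M), ‖ρ z‖ ≤ C := by
    have h1 := (isCompact_closedBall (0 : ℂ) (R + M)).exists_bound_of_continuousOn hρ.continuous.continuousOn
    exact h1
  have hbd : ∀ z, ‖ρ z‖ ≤ C := by
    intro z
    obtain ⟨l, hl, hd⟩ := hcc z
    have hmem : pr (F l) ∈ (fun l : ℂ => pr (F l)) '' (Γ : Set ℂ) := ⟨l, hl, rfl⟩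
    obtain ⟨h1, h2⟩ := hφ _ hmem
    set l' : ℂ := φ (pr (F l)) with hl'
    have h3 : ∀ w, pr (F (w + l)) = pr (F (w + l')) := by
      intro w
      have e1 : ∀ {m : ℂ}, m ∈ Γ → Differentiable ℂ (fun z => F (z + m)) ∧ (∀ z, F (z + m) ∈ D) ∧ ∀ z, u (F (z + m)) - z ∈ Λ := by
        intro m hm
        have := sec_shift hF hFD hFu (E.le (Γ.neg_mem hm))
        simpa only [sub_neg_eq_add] using this
      obtain ⟨a1, a2, a3⟩ := e1 hl
      obtain ⟨b1, b2, b3⟩ := e1 h1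
      exact sec_D_uniq E.cone E.tor hΛ E.D_sub E.D_smul hh a1 a2 a3 b1 b2 b3 (by rw [zero_add, zero_add, h2]) w
    have h4 : ∀ w, pr (F (w + (l - l'))) = pr (F w) := by
      intro w
      have h5 := h3 (w - l')
      rw [sub_add_cancel] at h5
      have e : w - l' + l = w + (l - l') := by ring
      rwa [e] at h5
    have h5 := hP1 (l - l') (Γ.sub_mem hl h1) h4 (z - (l - l'))
    rw [sub_add_cancel] at h5
    rw [h5]
    apply hC
    rw [mem_closedBall_zero_iff]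
    have e : z - (l - l') = (z - l) + l' := by ring
    rw [e]
    exact (norm_add_le _ _).trans (add_le_add hd (hM _ hmem))
  refine ⟨C, ?_⟩
  intro z₀ σ τ h1 h2 h3 h4
  obtain ⟨g, hg, hge⟩ := hlog σ τ (fun p => z₀ + p.1) h1 h3 (analyticAt_const.add analyticAt_fst) h4
  refine ⟨g, hg, ?_, hge⟩
  have h5 : RA α (F z₀) z₀ (g 0) := ⟨σ, τ, g, h1, h2, h3, h4, hg, hge, rfl⟩
  rw [RA.unique hX E.tor hΛ E.D_smul E.D_closed h5 (hRA z₀)]
  exact hbd z₀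

end Pool.Agent.H86.LU
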