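import Pool.Agent.H86.LU.Ext
import Pool.Agent.H17BP.Div

/-!
# LU Bx: forms with logarithmic poles in a chart
-/

set_option autoImplicit false

open Topology Filter Metric

namespace Pool.Agent.H86.LU

open Pool.Agent.H36.BP (EN fs wd IsGermChart)
open Pool.Agent.H14.PP (IsCone Chart Tan CurveAt)
open Pool.Agent.H62.EF (Lat MN pr TorusMap Sec Charts DU det2)
open Pool.Agent.H62.EL (TForm Per VanZero Thin tc)
open Pool.Agent.H18.LU (OCone Dsc LogP HorAt)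

variable {N : ℕ} {X D : Set (EN N)} {Λ : AddSubgroup ℂ} {u : EN N → ℂ}

/-- translation of a germ chart -/
theorem germ_shift {σ : ℂ × ℂ → EN N} {τ : EN N → ℂ × ℂ} (h : IsGermChart X σ τ) :
    ∀ᶠ p in 𝓝 (0 : ℂ × ℂ), IsGermChart X (fun q => σ (p + q)) (fun y => τ y - p) := by
  have hc : Tendsto (fun p : ℂ × ℂ => (σ p, (1 : ℂ))) (𝓝 0) (𝓝 (σ 0, (1 : ℂ))) :=
    h.σ_an.continuousAt.tendsto.prodMk_nhds tendsto_const_nhds
  filter_upwards [h.σ_an.eventually_analyticAt, h.σ_mem.eventually_nhds, h.σ_an.continuousAt.eventually h.τ_an.eventually_analyticAt,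
    h.left.eventually_nhds, h.σ_an.continuousAt.eventually h.right.eventually_nhds, hc.eventually h.inv.eventually_nhds] with p h1 h2 h3 h4 h5 h6
  have ht : Tendsto (fun q : ℂ × ℂ => p + q) (𝓝 0) (𝓝 p) := by
    have : ContinuousAt (fun q : ℂ × ℂ => p + q) 0 := by fun_prop
    have h7 := this.tendsto
    rwa [add_zero] at h7
  refine ⟨?_, ht.eventually h2, ?_, ?_, ?_, ?_⟩
  · have h8 : AnalyticAt ℂ (fun q : ℂ × ℂ => p + q) 0 := by fun_prop
    exact AnalyticAt.comp (g := σ) (f := fun q : ℂ × ℂ => p + q) (by rw [add_zero]; exact h1) h8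
  · rw [add_zero]
    exact h3.sub analyticAt_const
  · filter_upwards [ht.eventually h4] with q hq
    rw [hq]
    simp
  · rw [add_zero]
    filter_upwards [h5] with y hy hyX
    obtain ⟨c, hc, hyc⟩ := hy hyX
    refine ⟨c, hc, ?_⟩
    rw [add_sub_cancel]
    exact hyc
  · rw [add_zero]
    filter_upwards [h6] with z hz
    rw [hz]

/-- scaling of a germ chart -/
theorem germ_smul (hX : OCone X) {σ : ℂ × ℂ → EN N} {τ : EN N → ℂ × ℂ} (h : IsGermChart X σ τ) {c : ℂ} (hc : c ≠ 0) :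
    IsGermChart X (fun q => c • σ q) (fun y => τ (c⁻¹ • y)) := by
  have hm : AnalyticAt ℂ (fun y : EN N => c⁻¹ • y) (c • σ 0) := analyticAt_const.fun_smul analyticAt_id
  have hmx : c⁻¹ • (c • σ 0) = σ 0 := by rw [smul_smul, inv_mul_cancel₀ hc, one_smul]
  have ht : Tendsto (fun y : EN N => c⁻¹ • y) (𝓝 (c • σ 0)) (𝓝 (σ 0)) := by
    have := hm.continuousAt.tendsto
    simp only [hmx] at this
    exact this
  refine ⟨analyticAt_const.fun_smul h.σ_an, ?_, ?_, ?_, ?_, ?_⟩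
  · filter_upwards [h.σ_mem] with q hq
    exact hX.smul_mem _ hq c hc
  · exact AnalyticAt.comp (g := τ) (f := fun y : EN N => c⁻¹ • y) (by rw [hmx]; exact h.τ_an) hm
  · filter_upwards [h.left] with q hq
    rw [smul_smul, inv_mul_cancel₀ hc, one_smul, hq]
  · filter_upwards [ht.eventually h.right] with y hy hyX
    obtain ⟨b, hb, hyb⟩ := hy (hX.smul_mem _ hyX c⁻¹ (inv_ne_zero hc))
    refine ⟨b, hb, ?_⟩
    have e : y = c • (c⁻¹ • y) := by rw [smul_smul, mul_inv_cancel₀ hc, one_smul]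
    conv_lhs => rw [e, hyb]
    rw [smul_smul, smul_smul, mul_comm]
  · have ht2 : Tendsto (fun z : EN N × ℂ => (c⁻¹ • z.1, z.2)) (𝓝 (c • σ 0, (1 : ℂ))) (𝓝 (σ 0, (1 : ℂ))) := by
      have h1 : Tendsto (fun z : EN N × ℂ => c⁻¹ • z.1) (𝓝 (c • σ 0, (1 : ℂ))) (𝓝 (σ 0)) := ht.comp continuousAt_fst
      exact h1.prodMk_nhds continuousAt_snd
    filter_upwards [ht2.eventually h.inv] with z hz
    have e : c⁻¹ • z.2 • z.1 = z.2 • c⁻¹ • z.1 := by rw [smul_smul, smul_smul, mul_comm]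
    rw [e]
    exact hz

theorem fderiv_shift {E : Type*} [NormedAddCommGroup E] [NormedSpace ℂ E] {f : ℂ × ℂ → E} (p q : ℂ × ℂ) :
    fderiv ℂ (fun q => f (p + q)) q = fderiv ℂ f (p + q) := by
  rw [fderiv_comp_add_left]

theorem fderiv_csmul {σ : ℂ × ℂ → EN N} {q : ℂ × ℂ} (h : AnalyticAt ℂ σ q) (c : ℂ) (v : ℂ × ℂ) :
    fderiv ℂ (fun q => c • σ q) q v = c • fderiv ℂ σ q v := by
  have h1 : HasFDerivAt (fun q => c • σ q) (c • fderiv ℂ σ q) q := h.differentiableAt.hasFDerivAt.const_smul c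
  rw [h1.fderiv]
  rfl

/-- the coefficient of the form for the lift `υ` -/
noncomputable def cf {Y : Set (EN N)} (α : TForm Y Λ u) (σ : ℂ × ℂ → EN N) (υ : ℂ × ℂ → ℂ) (p : ℂ × ℂ) : ℂ :=
  α.toFun (υ p) (σ p) (fderiv ℂ σ p (1, 0)) (fderiv ℂ σ p (0, 1))

/-- a chart on the bidisc of radius `r` in which `D` is the axis `t = 0` -/
structure Bx (X D : Set (EN N)) (Λ : AddSubgroup ℂ) (u : EN N → ℂ) (σ : ℂ × ℂ → EN N) (τ : EN N → ℂ × ℂ) (υ : ℂ × ℂ → ℂ) (r : ℝ) : Prop where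
  pos : 0 < r
  germ : ∀ p ∈ ball (0 : ℂ × ℂ) r, IsGermChart X (fun q => σ (p + q)) (fun y => τ y - p)
  σ_an : ∀ p ∈ ball (0 : ℂ × ℂ) r, AnalyticAt ℂ σ p
  mem : ∀ p ∈ ball (0 : ℂ × ℂ) r, σ p ∈ X
  D_iff : ∀ p ∈ ball (0 : ℂ × ℂ) r, σ p ∈ D ↔ p.2 = 0
  υ_an : ∀ p ∈ ball (0 : ℂ × ℂ) r, AnalyticAt ℂ υ p
  lift : ∀ p ∈ ball (0 : ℂ × ℂ) r, u (σ p) - υ p ∈ Λ

theorem exists_bx {σ : ℂ × ℂ → EN N} {τ : EN N → ℂ × ℂ} {υ : ℂ × ℂ → ℂ} (h : IsGermChart X σ τ)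
    (hD : ∀ᶠ p in 𝓝 (0 : ℂ × ℂ), σ p ∈ D ↔ p.2 = 0) (hυ : AnalyticAt ℂ υ 0) (hl : ∀ᶠ p in 𝓝 (0 : ℂ × ℂ), u (σ p) - υ p ∈ Λ) :
    ∃ r : ℝ, Bx X D Λ u σ τ υ r := by
  obtain ⟨r, hr, h1⟩ := Metric.eventually_nhds_iff_ball.1
    ((germ_shift h).and (h.σ_an.eventually_analyticAt.and (h.σ_mem.and (hD.and (hυ.eventually_analyticAt.and hl)))))
  exact ⟨r, hr, fun p hp => (h1 p hp).1, fun p hp => (h1 p hp).2.1, fun p hp => (h1 p hp).2.2.1, fun p hp => (h1 p hp).2.2.2.1,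
    fun p hp => (h1 p hp).2.2.2.2.1, fun p hp => (h1 p hp).2.2.2.2.2⟩

variable {σ : ℂ × ℂ → EN N} {τ : EN N → ℂ × ℂ} {υ : ℂ × ℂ → ℂ} {r : ℝ}

theorem Bx.near (b : Bx X D Λ u σ τ υ r) {p : ℂ × ℂ} (hp : p ∈ ball (0 : ℂ × ℂ) r) : ∀ᶠ q in 𝓝 (0 : ℂ × ℂ), p + q ∈ ball (0 : ℂ × ℂ) r := by
  have ht : Tendsto (fun q : ℂ × ℂ => p + q) (𝓝 0) (𝓝 p) := by
    have : ContinuousAt (fun q : ℂ × ℂ => p + q) 0 := by fun_prop
    have h7 := this.tendsto
    rwa [add_zero] at h7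
  exact ht.eventually (isOpen_ball.mem_nhds hp)

/-- the coefficient of a form with logarithmic poles, for all lifts, is `G / t` with `G` holomorphic on a bidisc which does not depend on the lift -/
theorem Bx.num (hcl : ∀ x ∈ X, x ∉ D → ∀ᶠ y in 𝓝 x, y ∉ D) {α : TForm (X \ D) Λ u} (hlog : LogP α) (b : Bx X D Λ u σ τ υ r) {l : ℂ} (hl : l ∈ Λ) :
    ∃ G : ℂ × ℂ → ℂ, (∀ p ∈ ball (0 : ℂ × ℂ) r, AnalyticAt ℂ G p) ∧
      ∀ p ∈ ball (0 : ℂ × ℂ) r, p.2 ≠ 0 → p.2 * cf α σ (fun q => υ q + l) p = G p := by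
  classical
  set a : ℂ × ℂ → ℂ := cf α σ (fun q => υ q + l) with ha
  set G : ℂ × ℂ → ℂ := fun p => if p.2 = 0 then limUnder (𝓝[≠] (0 : ℂ)) (fun t => t * a (p.1, t)) else p.2 * a p with hG
  have hG1 : ∀ p : ℂ × ℂ, p.2 ≠ 0 → G p = p.2 * a p := fun p hp => if_neg hp
  refine ⟨G, ?_, fun p _ hp => (hG1 p hp).symm⟩
  intro p hp
  by_cases hp2 : p.2 = 0
  · -- the shifted chart
    have hs := b.germ p hp
    have hD : ∀ᶠ q in 𝓝 (0 : ℂ × ℂ), σ (p + q) ∈ D ↔ q.2 = 0 := by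
      filter_upwards [b.near hp] with q hq
      rw [b.D_iff _ hq, Prod.snd_add, hp2, zero_add]
    have hυ : AnalyticAt ℂ (fun q => υ (p + q) + l) 0 := by
      have h8 : AnalyticAt ℂ (fun q : ℂ × ℂ => p + q) 0 := by fun_prop
      exact (AnalyticAt.comp (g := υ) (f := fun q : ℂ × ℂ => p + q) (by rw [add_zero]; exact b.υ_an p hp) h8).add analyticAt_const
    have hlf : ∀ᶠ q in 𝓝 (0 : ℂ × ℂ), u (σ (p + q)) - (υ (p + q) + l) ∈ Λ := by
      filter_upwards [b.near hp] with q hq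
      have h9 := Λ.sub_mem (b.lift _ hq) hl
      have e : u (σ (p + q)) - υ (p + q) - l = u (σ (p + q)) - (υ (p + q) + l) := by ring
      rwa [e] at h9
    obtain ⟨g, hg, hge⟩ := hlog _ _ _ hs hD hυ hlf
    have hge2 : ∀ᶠ q in 𝓝 (0 : ℂ × ℂ), q.2 ≠ 0 → q.2 * a (p + q) = g q := by
      filter_upwards [hge] with q hq hq2
      have := hq hq2
      rw [fderiv_shift] at this
      exact this
    have hback : Tendsto (fun y : ℂ × ℂ => y - p) (𝓝 p) (𝓝 0) := by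
      have : ContinuousAt (fun y : ℂ × ℂ => y - p) p := by fun_prop
      have h7 := this.tendsto
      rwa [sub_self] at h7
    have hgan : AnalyticAt ℂ (fun y => g (y - p)) p := by
      have h8 : AnalyticAt ℂ (fun y : ℂ × ℂ => y - p) p := by fun_prop
      exact AnalyticAt.comp (g := g) (f := fun y : ℂ × ℂ => y - p) (by rw [sub_self]; exact hg) h8
    refine hgan.congr ?_
    have h3 := hback.eventually (hge2.eventually_nhds.and hg.eventually_analyticAt)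
    filter_upwards [h3] with y hy
    obtain ⟨hy1, hy2⟩ := hy
    by_cases hy0 : y.2 = 0
    · have e : G y = limUnder (𝓝[≠] (0 : ℂ)) (fun t => t * a (y.1, t)) := if_pos hy0
      rw [e]
      symm
      apply Tendsto.limUnder_eq
      -- the curve `t ↦ y - p + (0, t)`
      have hct : ContinuousAt (fun t : ℂ => y - p + ((0 : ℂ), t)) 0 := by fun_prop
      have e0 : y - p + ((0 : ℂ), (0 : ℂ)) = y - p := by
        have : ((0 : ℂ), (0 : ℂ)) = (0 : ℂ × ℂ) := rfl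
        rw [this, add_zero]
      have hct2 : Tendsto (fun t : ℂ => y - p + ((0 : ℂ), t)) (𝓝 0) (𝓝 (y - p)) := by
        have := hct.tendsto
        rwa [e0] at this
      have h4 : Tendsto (fun t : ℂ => g (y - p + ((0 : ℂ), t))) (𝓝 0) (𝓝 (g (y - p))) := hy2.continuousAt.tendsto.comp hct2
      refine (h4.mono_left nhdsWithin_le_nhds).congr' ?_
      have h5 := hct2.eventually hy1
      filter_upwards [nhdsWithin_le_nhds h5, self_mem_nhdsWithin] with t ht ht0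
      have h6 : (y - p + ((0 : ℂ), t)).2 = t := by
        rw [Prod.snd_add, Prod.snd_sub, hy0, hp2]
        simp
      have h7 := ht (by rw [h6]; exact ht0)
      rw [h6] at h7
      have h8 : p + (y - p + ((0 : ℂ), t)) = (y.1, t) := by
        apply Prod.ext
        · simp
        · rw [Prod.snd_add, h6, hp2, zero_add]
      rw [h8] at h7
      exact h7.symm
    · rw [hG1 y hy0]
      have h6 : (y - p).2 = y.2 := by rw [Prod.snd_sub, hp2, sub_zero]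
      have h7 := hy1.self_of_nhds (by rw [h6]; exact hy0)
      rw [h6, add_sub_cancel] at h7
      exact h7.symm
  · have h1 : ∀ᶠ q in 𝓝 p, q.2 ≠ 0 := continuousAt_snd.eventually_ne hp2
    have h2 : ∀ᶠ q in 𝓝 p, q ∈ ball (0 : ℂ × ℂ) r := isOpen_ball.mem_nhds hp
    have h3 : AnalyticAt ℂ a p := by
      refine α.analytic σ (fun q => υ q + l) p (b.σ_an p hp) ((b.υ_an p hp).add analyticAt_const) ?_
      filter_upwards [h1, h2] with q hq1 hq2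
      refine ⟨⟨b.mem q hq2, fun h4 => hq1 ((b.D_iff q hq2).1 h4)⟩, ?_⟩
      have h9 := Λ.sub_mem (b.lift _ hq2) hl
      have e : u (σ q) - υ q - l = u (σ q) - (υ q + l) := by ring
      rwa [e] at h9
    have h4 : AnalyticAt ℂ (fun q : ℂ × ℂ => q.2 * a q) p := analyticAt_snd.mul h3
    refine h4.congr ?_
    filter_upwards [h1] with q hq
    exact (hG1 q hq).symm

/-- if the form extends near `x`, the numerator vanishes on `D` -/
theorem num_zero_of_ld (hX : OCone X) (hΛ : Dsc Λ) {α : TForm (X \ D) Λ u} (h : IsGermChart X σ τ)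
    (hD : ∀ᶠ p in 𝓝 (0 : ℂ × ℂ), σ p ∈ D ↔ p.2 = 0) (hυ : AnalyticAt ℂ υ 0) (hl : ∀ᶠ p in 𝓝 (0 : ℂ × ℂ), u (σ p) - υ p ∈ Λ)
    {g : ℂ × ℂ → ℂ} (hg : AnalyticAt ℂ g 0) (hge : ∀ᶠ p in 𝓝 (0 : ℂ × ℂ), p.2 ≠ 0 → p.2 * cf α σ υ p = g p)
    {τ' : EN N → ℂ × ℂ} {V G : EN N → ℂ} (hLd : Ld α (σ 0) τ' V G) (hV : V (σ 0) = υ 0) : ∀ᶠ s in 𝓝 (0 : ℂ), g (s, 0) = 0 := by
  have hσc := h.σ_an.continuousAt
  have hVe : ∀ᶠ p in 𝓝 (0 : ℂ × ℂ), V (σ p) = υ p := by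
    have hVan : AnalyticAt ℂ (fun p => V (σ p)) 0 := AnalyticAt.comp (g := V) (f := σ) hLd.V_an h.σ_an
    have h3 := dsc_eq hΛ (f := fun p => V (σ p) - υ p) (hVan.continuousAt.sub hυ.continuousAt)
      (by show V (σ 0) - υ 0 = 0; rw [hV, sub_self])
    filter_upwards [h3, hl, hσc.eventually hLd.lift, h.σ_mem] with p h4 h5 h6 h7
    have h8 := Λ.sub_mem h5 (h6 h7)
    have e : u (σ p) - υ p - (u (σ p) - V (σ p)) = V (σ p) - υ p := by ring
    rw [e] at h8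
    exact sub_eq_zero.1 (h4 h8)
  -- the continuous function which is the coefficient
  set c : ℂ × ℂ → ℂ := fun p => G (σ p) * det2 (fderiv ℂ τ' (σ p) (fderiv ℂ σ p (1, 0))) (fderiv ℂ τ' (σ p) (fderiv ℂ σ p (0, 1))) with hc
  have hcc : ∀ᶠ p in 𝓝 (0 : ℂ × ℂ), ContinuousAt c p := by
    filter_upwards [hσc.eventually hLd.near, h.σ_an.eventually_analyticAt] with p h4 h5
    have h6 := det2_cont (v := fderiv ℂ σ p (1, 0)) (w := fderiv ℂ σ p (0, 1)) h4.τ_an h4.G_an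
    have h7 : ContinuousAt (fun p : ℂ × ℂ => (σ p, fderiv ℂ σ p (1, 0), fderiv ℂ σ p (0, 1))) p := by
      have h8 : ContinuousAt (fderiv ℂ σ) p := h5.fderiv.continuousAt
      exact h5.continuousAt.prodMk ((h8.clm_apply continuousAt_const).prodMk (h8.clm_apply continuousAt_const))
    exact ContinuousAt.comp (g := fun t : EN N × EN N × EN N => G t.1 * det2 (fderiv ℂ τ' t.1 t.2.1) (fderiv ℂ τ' t.1 t.2.2))
      (f := fun p : ℂ × ℂ => (σ p, fderiv ℂ σ p (1, 0), fderiv ℂ σ p (0, 1))) h6 h7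
  have hev : ∀ᶠ p in 𝓝 (0 : ℂ × ℂ), p.2 ≠ 0 → p.2 * c p = g p := by
    filter_upwards [hge, hVe, hσc.eventually hLd.eq, h.σ_mem.eventually_nhds, h.σ_an.eventually_analyticAt, hD] with p h4 h5 h6 h7 h8 h9 hp
    have hm : σ p ∈ X := h7.self_of_nhds
    have hnd : σ p ∉ D := fun h10 => hp (h9.1 h10)
    have ht : ∀ e : ℂ × ℂ, Tan X (σ p) (fderiv ℂ σ p e) := by
      intro e
      have := tan_param hX h8 h7 e 0
      rwa [zero_smul, add_zero] at this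
    have e1 := h6 hm hnd _ _ (ht (1, 0)) (ht (0, 1))
    rw [h5] at e1
    rw [← h4 hp]
    show p.2 * (G (σ p) * _) = p.2 * α.toFun (υ p) (σ p) _ _
    rw [e1]
  have hs : Tendsto (fun s : ℂ => ((s, 0) : ℂ × ℂ)) (𝓝 0) (𝓝 0) := by
    have h1 : Continuous fun s : ℂ => ((s, 0) : ℂ × ℂ) := by fun_prop
    exact h1.tendsto' 0 0 rfl
  filter_upwards [hs.eventually (hcc.and (hev.eventually_nhds.and hg.eventually_analyticAt))] with s hs1
  obtain ⟨h4, h5, h6⟩ := hs1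
  have hct : Tendsto (fun t : ℂ => ((s, t) : ℂ × ℂ)) (𝓝 0) (𝓝 (s, 0)) := by
    have h1 : Continuous fun t : ℂ => ((s, t) : ℂ × ℂ) := by fun_prop
    exact h1.tendsto 0
  have hl1 : Tendsto (fun t : ℂ => g (s, t)) (𝓝[≠] 0) (𝓝 (g (s, 0))) :=
    (h6.continuousAt.tendsto.comp hct).mono_left nhdsWithin_le_nhds
  have hl2 : Tendsto (fun t : ℂ => t * c (s, t)) (𝓝[≠] 0) (𝓝 (0 * c (s, 0))) := by
    have h7 : Tendsto (fun t : ℂ => t * c (s, t)) (𝓝 0) (𝓝 (0 * c (s, 0))) := tendsto_id.mul (h4.tendsto.comp hct)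
    exact h7.mono_left nhdsWithin_le_nhds
  rw [zero_mul] at hl2
  refine tendsto_nhds_unique (hl1.congr' ?_) hl2
  filter_upwards [nhdsWithin_le_nhds (hct.eventually h5), self_mem_nhdsWithin] with t h8 h9
  exact (h8 h9).symm

/-- if the numerator vanishes on `D`, the coefficient extends -/
theorem coef_of_num_zero {α : TForm (X \ D) Λ u} (hD : ∀ᶠ p in 𝓝 (0 : ℂ × ℂ), σ p ∈ D ↔ p.2 = 0)
    {g : ℂ × ℂ → ℂ} (hg : AnalyticAt ℂ g 0) (hge : ∀ᶠ p in 𝓝 (0 : ℂ × ℂ), p.2 ≠ 0 → p.2 * cf α σ υ p = g p)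
    (h0 : ∀ᶠ s in 𝓝 (0 : ℂ), g (s, 0) = 0) : ∃ h : ℂ × ℂ → ℂ, AnalyticAt ℂ h 0 ∧ ∀ᶠ p in 𝓝 (0 : ℂ × ℂ), σ p ∉ D → cf α σ υ p = h p := by
  obtain ⟨h, hh, hgh⟩ := Pool.Agent.H17BP.exists_div_y hg h0
  refine ⟨h, hh, ?_⟩
  filter_upwards [hge, hgh, hD] with p h1 h2 h3 h4
  have hp : p.2 ≠ 0 := fun h5 => h4 (h3.2 h5)
  have h6 := h1 hp
  rw [h2, smul_eq_mul] at h6
  exact mul_left_cancel₀ hp h6

end Pool.Agent.H86.LU
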