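import Pool.Agent.H86.LU.Ld

/-!
# LU Ext: extension of forms
-/

set_option autoImplicit false

open Topology Filter Metric

namespace Pool.Agent.H86.LU

open Pool.Agent.H36.BP (EN fs wd IsGermChart)
open Pool.Agent.H14.PP (IsCone Chart Tan CurveAt)
open Pool.Agent.H62.EF (Lat MN pr TorusMap Sec Charts DU det2)
open Pool.Agent.H62.EL (TForm Per VanZero Thin tc)
open Pool.Agent.H18.LU (OCone Dsc)

variable {N : ℕ} {X D D₀ : Set (EN N)} {Λ : AddSubgroup ℂ} {u : EN N → ℂ}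

theorem fderiv_scale {τ : EN N → ℂ × ℂ} {y : EN N} {c : ℂ} (hτ : AnalyticAt ℂ τ (c • y)) (v : EN N) :
    fderiv ℂ (fun y => τ (c • y)) y v = fderiv ℂ τ (c • y) (c • v) := by
  have h1 : HasFDerivAt τ (fderiv ℂ τ (c • y)) (c • y) := hτ.differentiableAt.hasFDerivAt
  have h2 : HasFDerivAt (fun y : EN N => c • y) (c • ContinuousLinearMap.id ℂ (EN N)) y :=
    (hasFDerivAt_id y).const_smul c
  have h3 := (h1.comp y h2).fderiv
  have h4 : fderiv ℂ (fun y => τ (c • y)) y = (fderiv ℂ τ (c • y)).comp (c • ContinuousLinearMap.id ℂ (EN N)) := h3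
  rw [h4]
  rfl

theorem Ld.smul (hX : OCone X) (hu : TorusMap X Λ u) (hs : ∀ x ∈ D₀, ∀ c : ℂ, c ≠ 0 → c • x ∈ D₀)
    (hcl : ∀ x ∈ X, x ∉ D₀ → ∀ᶠ y in 𝓝 x, y ∉ D₀) {α : TForm (X \ D₀) Λ u} {x : EN N} {τ : EN N → ℂ × ℂ} {V G : EN N → ℂ}
    (h : Ld α x τ V G) {c : ℂ} (hc : c ≠ 0) :
    Ld α (c • x) (fun y => τ (c⁻¹ • y)) (fun y => V (c⁻¹ • y)) (fun y => G (c⁻¹ • y)) := by
  have hm : AnalyticAt ℂ (fun y : EN N => c⁻¹ • y) (c • x) := analyticAt_const.fun_smul analyticAt_id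
  have hmx : c⁻¹ • (c • x) = x := by rw [smul_smul, inv_mul_cancel₀ hc, one_smul]
  have ht : Tendsto (fun y : EN N => c⁻¹ • y) (𝓝 (c • x)) (𝓝 x) := by
    have := hm.continuousAt.tendsto
    simp only [hmx] at this
    exact this
  have hback : ∀ y : EN N, c • (c⁻¹ • y) = y := fun y => by rw [smul_smul, mul_inv_cancel₀ hc, one_smul]
  have hτa : ∀ᶠ y in 𝓝 (c • x), AnalyticAt ℂ τ (c⁻¹ • y) := ht.eventually h.τ_an.eventually_analyticAt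
  refine ⟨AnalyticAt.comp (g := τ) (f := fun y : EN N => c⁻¹ • y) (by rw [hmx]; exact h.τ_an) hm,
    AnalyticAt.comp (g := V) (f := fun y : EN N => c⁻¹ • y) (by rw [hmx]; exact h.V_an) hm,
    AnalyticAt.comp (g := G) (f := fun y : EN N => c⁻¹ • y) (by rw [hmx]; exact h.G_an) hm, ?_, ?_, ?_⟩
  · filter_upwards [hτa, ht.eventually h.rad] with y h1 h2
    rw [fderiv_scale h1]
    exact h2
  · filter_upwards [ht.eventually h.lift] with y h1 hy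
    have h2 := h1 (hX.smul_mem y hy c⁻¹ (inv_ne_zero hc))
    have h3 := hu.smul y hy c⁻¹ (inv_ne_zero hc)
    have h4 := Λ.sub_mem h2 h3
    have e : u (c⁻¹ • y) - V (c⁻¹ • y) - (u (c⁻¹ • y) - u y) = u y - V (c⁻¹ • y) := by ring
    rwa [e] at h4
  · filter_upwards [hτa, ht.eventually h.eq, ht.eventually h.lift] with y h1 h2 h3 hy hy0 v w hv hw
    have hy' : c⁻¹ • y ∈ X := hX.smul_mem y hy c⁻¹ (inv_ne_zero hc)
    have hy0' : c⁻¹ • y ∉ D₀ := fun h4 => hy0 (by have := hs _ h4 c hc; rwa [hback] at this)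
    have hv' := tan_smul hX hv (inv_ne_zero hc)
    have hw' := tan_smul hX hw (inv_ne_zero hc)
    have e1 := h2 hy' hy0' (c⁻¹ • v) (c⁻¹ • w) hv' hw'
    have e2 := α.scale (V (c⁻¹ • y)) (c⁻¹ • y) ⟨hy', hy0'⟩ (h3 hy') (c⁻¹ • v) (c⁻¹ • w) (tan_sdiff hcl hy' hy0' hv') (tan_sdiff hcl hy' hy0' hw') c hc
    rw [hback, hback, hback] at e2
    rw [e2, e1, fderiv_scale h1, fderiv_scale h1]

theorem tform_extend (hX : OCone X) (_hc : Charts X) (hΛ : Dsc Λ) (hu : TorusMap X Λ u) (hD : D ⊆ D₀) (_hD₀ : D₀ ⊆ X)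
    (hs : ∀ x ∈ D₀, ∀ c : ℂ, c ≠ 0 → c • x ∈ D₀) (hsD : ∀ x ∈ D, ∀ c : ℂ, c ≠ 0 → c • x ∈ D)
    (hcl : ∀ x ∈ X, x ∉ D₀ → ∀ᶠ y in 𝓝 x, y ∉ D₀) (_hclD : ∀ x ∈ X, x ∉ D → ∀ᶠ y in 𝓝 x, y ∉ D) (α : TForm (X \ D₀) Λ u)
    (h : ∀ x ∈ D₀, x ∉ D → ∃ (σ : ℂ × ℂ → EN N) (τ : EN N → ℂ × ℂ) (υ : ℂ × ℂ → ℂ), IsGermChart X σ τ ∧ σ 0 = x ∧ AnalyticAt ℂ υ 0 ∧
      (∀ᶠ p in 𝓝 (0 : ℂ × ℂ), u (σ p) - υ p ∈ Λ) ∧ (∀ᶠ p in 𝓝 (0 : ℂ × ℂ), ∃ᶠ q in 𝓝 p, σ q ∉ D₀) ∧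
      ∀ l ∈ Λ, ∃ g : ℂ × ℂ → ℂ, AnalyticAt ℂ g 0 ∧ ∀ᶠ p in 𝓝 (0 : ℂ × ℂ), σ p ∉ D₀ →
        α.toFun (υ p + l) (σ p) (fderiv ℂ σ p (1, 0)) (fderiv ℂ σ p (0, 1)) = g p) :
    ∃ α' : TForm (X \ D) Λ u, ∀ z, ∀ x ∈ X, x ∉ D₀ → ∀ v w, α'.toFun z x v w = α.toFun z x v w := by
  classical
  have hdn : ∀ x ∈ D₀, x ∉ D → Dn X D₀ x := by
    intro x hx hxD
    obtain ⟨σ, τ, υ, h1, h2, -, -, h5, -⟩ := h x hx hxD
    have h6 := dn_of_germ hX h1 h5.self_of_nhds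
    rwa [h2] at h6
  have hLd : ∀ x ∈ D₀, x ∉ D → ∀ z, u x - z ∈ Λ → ∃ (τ : EN N → ℂ × ℂ) (V G : EN N → ℂ), Ld α x τ V G ∧ V x = z := by
    intro x hx hxD z hz
    obtain ⟨σ, τ, υ, h1, h2, h3, h4, -, h6⟩ := h x hx hxD
    have h7 : z - υ 0 ∈ Λ := by
      have h8 := h4.self_of_nhds
      rw [h2] at h8
      have h9 := Λ.sub_mem h8 hz
      have e : u x - υ 0 - (u x - z) = z - υ 0 := by ring
      rwa [e] at h9
    obtain ⟨g, hg, hge⟩ := h6 (z - υ 0) h7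
    have h8 : ∀ᶠ p in 𝓝 (0 : ℂ × ℂ), u (σ p) - (υ p + (z - υ 0)) ∈ Λ := by
      filter_upwards [h4] with p hp
      have h9 := Λ.sub_mem hp h7
      have e : u (σ p) - υ p - (z - υ 0) = u (σ p) - (υ p + (z - υ 0)) := by ring
      rwa [e] at h9
    have h9 := ld_of_germ hX hu hs hcl α h1 (h3.add analyticAt_const) h8 hg hge
    rw [h2] at h9
    refine ⟨τ, _, _, h9, ?_⟩
    have h10 : τ x = 0 := by rw [← h2]; exact h1.left.self_of_nhds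
    show υ (τ x) + (z - υ 0) = z
    rw [h10]
    ring
  choose! τ V G hLd using hLd
  -- the form
  set T : ℂ → EN N → EN N → EN N → ℂ := fun z x v w =>
    if x ∈ D₀ then G x z x * det2 (fderiv ℂ (τ x z) x v) (fderiv ℂ (τ x z) x w) else α.toFun z x v w with hT
  have hT1 : ∀ z x v w, x ∉ D₀ → T z x v w = α.toFun z x v w := fun z x v w hx => by
    show (if x ∈ D₀ then _ else _) = _
    rw [if_neg hx]
  have hT2 : ∀ z x v w, x ∈ D₀ → T z x v w = G x z x * det2 (fderiv ℂ (τ x z) x v) (fderiv ℂ (τ x z) x w) := fun z x v w hx => by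
    show (if x ∈ D₀ then _ else _) = _
    rw [if_pos hx]
  have key : ∀ x ∈ X, x ∉ D → ∀ (τ₁ : EN N → ℂ × ℂ) (V₁ G₁ : EN N → ℂ), Ld α x τ₁ V₁ G₁ → ∀ v w, Tan X x v → Tan X x w →
      T (V₁ x) x v w = G₁ x * det2 (fderiv ℂ τ₁ x v) (fderiv ℂ τ₁ x w) := by
    intro x hx hxD τ₁ V₁ G₁ hl v w hv hw
    by_cases hx0 : x ∈ D₀
    · rw [hT2 _ _ _ _ hx0]
      obtain ⟨h1, h2⟩ := hLd x hx0 hxD (V₁ x) (hl.lift.self_of_nhds hx)
      exact h1.unique hΛ hl (hdn x hx0 hxD) h2 hv hw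
    · rw [hT1 _ _ _ _ hx0]
      exact hl.eq.self_of_nhds hx hx0 v w hv hw
  refine ⟨⟨T, ?_, ?_, ?_, ?_⟩, fun z x _ hx v w => hT1 z x v w hx⟩
  · rintro z x ⟨hx, hxD⟩ hz v w hv hw a b
    by_cases hx0 : x ∈ D₀
    · rw [hT2 _ _ _ _ hx0, hT2 _ _ _ _ hx0]
      have h1 := (hLd x hx0 hxD z hz).1.rad.self_of_nhds
      rw [map_add, map_add, map_smul, map_smul, h1, smul_zero, add_zero, smul_zero, add_zero]
    · rw [hT1 _ _ _ _ hx0, hT1 _ _ _ _ hx0]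
      exact α.add_smul z x ⟨hx, hx0⟩ hz v w (tan_sdiff hcl hx hx0 (tan_mono (fun _ h => h.1) hv))
        (tan_sdiff hcl hx hx0 (tan_mono (fun _ h => h.1) hw)) a b
  · rintro z x ⟨hx, hxD⟩ hz v w hv hw a b c d
    by_cases hx0 : x ∈ D₀
    · rw [hT2 _ _ _ _ hx0, hT2 _ _ _ _ hx0]
      rw [map_add, map_add, map_smul, map_smul, map_smul, map_smul]
      simp only [det2, Prod.fst_add, Prod.snd_add, Prod.smul_fst, Prod.smul_snd, smul_eq_mul]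
      ring
    · rw [hT1 _ _ _ _ hx0, hT1 _ _ _ _ hx0]
      exact α.det z x ⟨hx, hx0⟩ hz v w (tan_sdiff hcl hx hx0 (tan_mono (fun _ h => h.1) hv))
        (tan_sdiff hcl hx hx0 (tan_mono (fun _ h => h.1) hw)) a b c d
  · rintro z x ⟨hx, hxD⟩ hz v w hv hw c hc
    have hv1 : Tan X x v := tan_mono (fun _ h => h.1) hv
    have hw1 : Tan X x w := tan_mono (fun _ h => h.1) hw
    by_cases hx0 : x ∈ D₀
    · obtain ⟨h1, h2⟩ := hLd x hx0 hxD z hz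
      have h3 := h1.smul hX hu hs hcl hc
      have hcx : c • x ∉ D := fun h4 => hxD (by
        have := hsD _ h4 c⁻¹ (inv_ne_zero hc)
        rwa [smul_smul, inv_mul_cancel₀ hc, one_smul] at this)
      have h4 := key (c • x) (hX.smul_mem x hx c hc) hcx _ _ _ h3 (c • v) (c • w) (tan_smul hX hv1 hc) (tan_smul hX hw1 hc)
      have hback : ∀ y : EN N, c⁻¹ • (c • y) = y := fun y => by rw [smul_smul, inv_mul_cancel₀ hc, one_smul]
      have h5 : ∀ y : EN N, fderiv ℂ (fun y => τ x z (c⁻¹ • y)) (c • x) (c • y) = fderiv ℂ (τ x z) x y := by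
        intro y
        rw [fderiv_scale (by rw [hback]; exact h1.τ_an), hback, hback]
      simp only [h5, hback, h2] at h4
      rw [h4, hT2 _ _ _ _ hx0]
    · have hcx : c • x ∉ D₀ := fun h4 => hx0 (by
        have := hs _ h4 c⁻¹ (inv_ne_zero hc)
        rwa [smul_smul, inv_mul_cancel₀ hc, one_smul] at this)
      rw [hT1 _ _ _ _ hx0, hT1 _ _ _ _ hcx]
      exact α.scale z x ⟨hx, hx0⟩ hz v w (tan_sdiff hcl hx hx0 hv1) (tan_sdiff hcl hx hx0 hw1) c hc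
  · intro φ υ p hφ hυ hm
    have hx := hm.self_of_nhds
    by_cases hx0 : φ p ∈ D₀
    · obtain ⟨h1, h2⟩ := hLd (φ p) hx0 hx.1.2 (υ p) hx.2
      have hψ : AnalyticAt ℂ (fun y => τ (φ p) (υ p) (φ y)) p := AnalyticAt.comp (g := τ (φ p) (υ p)) (f := φ) h1.τ_an hφ
      have hG : AnalyticAt ℂ (fun y => G (φ p) (υ p) (φ y)) p := AnalyticAt.comp (g := G (φ p) (υ p)) (f := φ) h1.G_an hφ
      have hV : AnalyticAt ℂ (fun y => V (φ p) (υ p) (φ y)) p := AnalyticAt.comp (g := V (φ p) (υ p)) (f := φ) h1.V_an hφ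
      have hVe : ∀ᶠ y in 𝓝 p, V (φ p) (υ p) (φ y) = υ y := by
        have h3 := dsc_eq hΛ (f := fun y => V (φ p) (υ p) (φ y) - υ y) (hV.continuousAt.sub hυ.continuousAt)
          (by show V (φ p) (υ p) (φ p) - υ p = 0; rw [h2, sub_self])
        filter_upwards [h3, hm, hφ.continuousAt.eventually h1.lift] with y h4 h5 h6
        have h7 := Λ.sub_mem h5.2 (h6 h5.1.1)
        have e : u (φ y) - υ y - (u (φ y) - V (φ p) (υ p) (φ y)) = V (φ p) (υ p) (φ y) - υ y := by ring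
        rw [e] at h7
        exact sub_eq_zero.1 (h4 h7)
      have hD1 : ∀ e : ℂ × ℂ, AnalyticAt ℂ (fun y => fderiv ℂ (fun y => τ (φ p) (υ p) (φ y)) y e) p := by
        intro e
        exact AnalyticAt.comp (g := fun L : (ℂ × ℂ) →L[ℂ] (ℂ × ℂ) => (ContinuousLinearMap.apply ℂ (ℂ × ℂ) e) L)
          (f := fderiv ℂ (fun y => τ (φ p) (υ p) (φ y))) ((ContinuousLinearMap.apply ℂ (ℂ × ℂ) e).analyticAt _) hψ.fderiv
      have hfst : ∀ e : ℂ × ℂ, AnalyticAt ℂ (fun y => (fderiv ℂ (fun y => τ (φ p) (υ p) (φ y)) y e).1) p := fun e =>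
        AnalyticAt.comp (g := Prod.fst) (f := fun y => fderiv ℂ (fun y => τ (φ p) (υ p) (φ y)) y e) analyticAt_fst (hD1 e)
      have hsnd : ∀ e : ℂ × ℂ, AnalyticAt ℂ (fun y => (fderiv ℂ (fun y => τ (φ p) (υ p) (φ y)) y e).2) p := fun e =>
        AnalyticAt.comp (g := Prod.snd) (f := fun y => fderiv ℂ (fun y => τ (φ p) (υ p) (φ y)) y e) analyticAt_snd (hD1 e)
      have hR : AnalyticAt ℂ (fun y => G (φ p) (υ p) (φ y) * det2 (fderiv ℂ (fun y => τ (φ p) (υ p) (φ y)) y (1, 0))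
          (fderiv ℂ (fun y => τ (φ p) (υ p) (φ y)) y (0, 1))) p := by
        show AnalyticAt ℂ (fun y => G (φ p) (υ p) (φ y) * ((fderiv ℂ (fun y => τ (φ p) (υ p) (φ y)) y (1, 0)).1 *
          (fderiv ℂ (fun y => τ (φ p) (υ p) (φ y)) y (0, 1)).2 - (fderiv ℂ (fun y => τ (φ p) (υ p) (φ y)) y (1, 0)).2 *
          (fderiv ℂ (fun y => τ (φ p) (υ p) (φ y)) y (0, 1)).1)) p
        exact hG.mul (((hfst (1, 0)).mul (hsnd (0, 1))).sub ((hsnd (1, 0)).mul (hfst (0, 1))))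
      refine hR.congr ?_
      filter_upwards [hVe, hφ.continuousAt.eventually h1.near, hm.eventually_nhds, hφ.eventually_analyticAt] with y h3 h4 h5 h6
      have h7 : ∀ᶠ q in 𝓝 y, φ q ∈ X := h5.mono fun q hq => hq.1.1
      have h8 : ∀ e : ℂ × ℂ, Tan X (φ y) (fderiv ℂ φ y e) := by
        intro e
        have := tan_param hX h6 h7 e 0
        rwa [zero_smul, add_zero] at this
      have h9 := key (φ y) h7.self_of_nhds h5.self_of_nhds.1.2 _ _ _ h4 _ _ (h8 (1, 0)) (h8 (0, 1))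
      rw [h3] at h9
      have h10 : ∀ e : ℂ × ℂ, fderiv ℂ (fun y => τ (φ p) (υ p) (φ y)) y e = fderiv ℂ (τ (φ p) (υ p)) (φ y) (fderiv ℂ φ y e) := by
        intro e
        have h11 : HasFDerivAt (τ (φ p) (υ p)) (fderiv ℂ (τ (φ p) (υ p)) (φ y)) (φ y) := h4.τ_an.differentiableAt.hasFDerivAt
        have h12 : HasFDerivAt φ (fderiv ℂ φ y) y := h6.differentiableAt.hasFDerivAt
        have h13 : fderiv ℂ (fun y => τ (φ p) (υ p) (φ y)) y = (fderiv ℂ (τ (φ p) (υ p)) (φ y)).comp (fderiv ℂ φ y) := (h11.comp y h12).fderiv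
        rw [h13]
        rfl
      rw [h10, h10]
      exact h9.symm
    · have h1 : ∀ᶠ y in 𝓝 p, φ y ∉ D₀ := hφ.continuousAt.eventually (hcl _ hx.1.1 hx0)
      have h2 : ∀ᶠ y in 𝓝 p, φ y ∈ X \ D₀ ∧ u (φ y) - υ y ∈ Λ := by
        filter_upwards [h1, hm] with y h3 h4
        exact ⟨⟨h4.1.1, h3⟩, h4.2⟩
      refine (α.analytic φ υ p hφ hυ h2).congr ?_
      filter_upwards [h1] with y h3
      rw [hT1 _ _ _ _ h3]

end Pool.Agent.H86.LU
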