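import Pool.Agent.H86.LU.Cpt

/-!
# LU Fin: `exists_P`
-/

set_option autoImplicit false

open Topology Filter Metric

namespace Pool.Agent.H86.LU

open Pool.Agent.H36.BP (EN fs wd IsGermChart)
open Pool.Agent.H14.PP (IsCone Chart Tan CurveAt)
open Pool.Agent.H62.EF (Lat MN pr TorusMap Sec Charts DU det2)
open Pool.Agent.H62.EL (TForm Per VanZero Thin tc IsNC)
open Pool.Agent.H18.LU (OCone Dsc LogP HorAt ResBd LBase EBase LData)

variable {N : ℕ} {X D P : Set (EN N)} {Λ Γ : AddSubgroup ℂ} {u : EN N → ℂ} {B : Set ℂ} {δ : ℝ}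

/-- the proof of `exists_chart_of_germ` (`H62/EF/ChEx.lean`) for open cones -/
theorem exists_chartO (hX : OCone X) {σ : ℂ × ℂ → EN N} {τ : EN N → ℂ × ℂ} (h : IsGermChart X σ τ) :
    ∃ χ : Chart X, σ 0 ∈ χ.U ∧ χ.q (σ 0) = 0 ∧ χ.σ 0 = σ 0 := by
  have hσ0 : σ 0 ≠ 0 := by
    intro h0
    have h1 := h.σ_mem.self_of_nhds
    rw [h0] at h1
    exact hX.zero_notMem h1
  -- the linear form
  obtain ⟨ℓ, hℓ⟩ : ∃ ℓ : EN N →L[ℂ] ℂ, ℓ (σ 0) = 1 := by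
    have hne : inner ℂ (σ 0) (σ 0) ≠ (0 : ℂ) := inner_self_ne_zero.mpr hσ0
    refine ⟨(inner ℂ (σ 0) (σ 0) : ℂ)⁻¹ • innerSL ℂ (σ 0), ?_⟩
    simp only [_root_.smul_apply, innerSL_apply_apply, smul_eq_mul]
    exact inv_mul_cancel₀ hne
  -- the normalised parametrisation
  have hℓσ : ContinuousAt (fun p => ℓ (σ p)) 0 := ℓ.continuous.continuousAt.comp h.σ_an.continuousAt
  have hℓne : ∀ᶠ p in 𝓝 (0 : ℂ × ℂ), ℓ (σ p) ≠ 0 := hℓσ.eventually_ne (by rw [hℓ]; exact one_ne_zero)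
  have hinvσ : ∀ᶠ p in 𝓝 (0 : ℂ × ℂ), τ ((ℓ (σ p))⁻¹ • σ p) = τ (σ p) := by
    have hc : Tendsto (fun p => (σ p, (ℓ (σ p))⁻¹)) (𝓝 (0 : ℂ × ℂ)) (𝓝 (σ 0, (1 : ℂ))) := by
      have h1 : Tendsto (fun p => (ℓ (σ p))⁻¹) (𝓝 (0 : ℂ × ℂ)) (𝓝 (ℓ (σ 0))⁻¹) := hℓσ.inv₀ (by rw [hℓ]; exact one_ne_zero)
      rw [hℓ, inv_one] at h1
      exact h.σ_an.continuousAt.prodMk_nhds h1
    exact hc.eventually h.inv
  -- the neighbourhood W₀
  have hW : ∀ᶠ y in 𝓝 (σ 0), AnalyticAt ℂ τ y ∧ (y ∈ X → ∃ c : ℂ, c ≠ 0 ∧ y = c • σ (τ y)) := h.τ_an.eventually_analyticAt.and h.right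
  obtain ⟨W₀, hW₀s, hW₀o, hW₀m⟩ := _root_.eventually_nhds_iff.mp hW
  have hσ₁ : Tendsto (fun p => (ℓ (σ p))⁻¹ • σ p) (𝓝 (0 : ℂ × ℂ)) (𝓝 (σ 0)) := by
    have h1 : Tendsto (fun p => (ℓ (σ p))⁻¹) (𝓝 (0 : ℂ × ℂ)) (𝓝 (ℓ (σ 0))⁻¹) := hℓσ.inv₀ (by rw [hℓ]; exact one_ne_zero)
    have h2 := h1.smul h.σ_an.continuousAt
    rwa [hℓ, inv_one, one_smul] at h2
  have hσ₁W : ∀ᶠ p in 𝓝 (0 : ℂ × ℂ), (ℓ (σ p))⁻¹ • σ p ∈ W₀ := hσ₁.eventually (hW₀o.mem_nhds hW₀m)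
  obtain ⟨R, hR, hall⟩ := Metric.eventually_nhds_iff_ball.mp
    (((((h.σ_an.eventually_analyticAt.and h.σ_mem).and h.left).and hℓne).and hinvσ).and hσ₁W)
  set r : ℝ := R / 2 with hr
  have hr0 : 0 < r := by rw [hr]; positivity
  have hrC : (r : ℂ) ≠ 0 := by exact_mod_cast hr0.ne'
  have hball : ∀ p ∈ ball (0 : ℂ × ℂ) 2, (r : ℂ) • p ∈ ball (0 : ℂ × ℂ) R := by
    intro p hp
    rw [mem_ball_zero_iff] at hp ⊢
    rw [norm_smul, Complex.norm_real, Real.norm_of_nonneg hr0.le, hr]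
    nlinarith
  have hτσ : ∀ p ∈ ball (0 : ℂ × ℂ) R, τ ((ℓ (σ p))⁻¹ • σ p) = p := by
    intro p hp
    rw [(hall p hp).1.2, (hall p hp).1.1.1.2]
  set U : Set (EN N) := {x | ℓ x ≠ 0 ∧ (ℓ x)⁻¹ • x ∈ W₀ ∧ ‖τ ((ℓ x)⁻¹ • x)‖ < R} with hU
  have hmaps : ∀ x : EN N, ℓ x ≠ 0 → ∀ c : ℂ, c ≠ 0 → (ℓ (c • x))⁻¹ • (c • x) = (ℓ x)⁻¹ • x := by
    intro x hx c hc
    rw [map_smul, smul_eq_mul, smul_smul, mul_inv, mul_comm c⁻¹, mul_assoc, inv_mul_cancel₀ hc, mul_one]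
  have han1 : ∀ x : EN N, ℓ x ≠ 0 → AnalyticAt ℂ (fun y : EN N => (ℓ y)⁻¹ • y) x := by
    intro x hx
    exact ((ℓ.analyticAt x).inv hx).smul analyticAt_id
  have hanq : ∀ x ∈ U, AnalyticAt ℂ (fun y : EN N => τ ((ℓ y)⁻¹ • y)) x := by
    intro x hx
    exact AnalyticAt.fun_comp (hW₀s _ hx.2.1).1 (han1 x hx.1)
  have hUopen : IsOpen U := by
    rw [isOpen_iff_mem_nhds]
    intro x hx
    have h1 : ∀ᶠ y in 𝓝 x, ℓ y ≠ 0 := ℓ.continuous.continuousAt.eventually_ne hx.1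
    have h2 : ∀ᶠ y in 𝓝 x, (ℓ y)⁻¹ • y ∈ W₀ := (han1 x hx.1).continuousAt.eventually (hW₀o.mem_nhds hx.2.1)
    have h3 : ∀ᶠ y in 𝓝 x, ‖τ ((ℓ y)⁻¹ • y)‖ < R := (hanq x hx).continuousAt.norm.eventually_lt_const hx.2.2
    filter_upwards [h1, h2, h3] with y h4 h5 h6
    exact ⟨h4, h5, h6⟩
  let χ : Chart X :=
    { σ := fun p => (ℓ (σ ((r : ℂ) • p)))⁻¹ • σ ((r : ℂ) • p)
      U := U
      q := fun x => (r : ℂ)⁻¹ • τ ((ℓ x)⁻¹ • x)
      isOpen_U := hUopen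
      smul_U := by
        rintro x ⟨h1, h2, h3⟩ c hc
        refine ⟨?_, ?_, ?_⟩
        · rw [map_smul, smul_eq_mul]
          exact mul_ne_zero hc h1
        · rw [hmaps x h1 c hc]; exact h2
        · rw [hmaps x h1 c hc]; exact h3
      σ_an := by
        intro p hp
        have h1 := (hall _ (hball p hp)).1.1.1.1.1
        have h2 : AnalyticAt ℂ (fun p : ℂ × ℂ => σ ((r : ℂ) • p)) p :=
          AnalyticAt.fun_comp h1 (analyticAt_const.fun_smul analyticAt_id)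
        have h3 : AnalyticAt ℂ (fun p : ℂ × ℂ => ℓ (σ ((r : ℂ) • p))) p := (ℓ.analyticAt _).fun_comp h2
        exact (h3.inv (hall _ (hball p hp)).1.1.2).smul h2
      q_an := by
        intro x hx
        exact analyticAt_const.fun_smul (hanq x hx)
      q_smul := by
        rintro x ⟨h1, h2, h3⟩ c hc
        show (r : ℂ)⁻¹ • τ ((ℓ (c • x))⁻¹ • (c • x)) = _
        rw [hmaps x h1 c hc]
      σ_mem := by
        intro p hp
        have hb := hball p hp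
        have hh := hall _ hb
        have hne := hh.1.1.2
        have h1 : ℓ ((ℓ (σ ((r : ℂ) • p)))⁻¹ • σ ((r : ℂ) • p)) = 1 := by
          rw [map_smul, smul_eq_mul, inv_mul_cancel₀ hne]
        have h2 : τ ((ℓ (σ ((r : ℂ) • p)))⁻¹ • σ ((r : ℂ) • p)) = (r : ℂ) • p := hτσ _ hb
        refine ⟨hX.smul_mem _ hh.1.1.1.1.2 _ (inv_ne_zero hne), ⟨?_, ?_, ?_⟩, ?_⟩
        · rw [h1]; exact one_ne_zero
        · rw [h1, inv_one, one_smul]; exact hh.2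
        · rw [h1, inv_one, one_smul, h2]
          exact mem_ball_zero_iff.mp hb
        · show (r : ℂ)⁻¹ • τ ((ℓ ((ℓ (σ ((r : ℂ) • p)))⁻¹ • σ ((r : ℂ) • p)))⁻¹ • ((ℓ (σ ((r : ℂ) • p)))⁻¹ • σ ((r : ℂ) • p))) = p
          rw [h1, inv_one, one_smul, h2, smul_smul, inv_mul_cancel₀ hrC, one_smul]
      surj := by
        rintro x hxX ⟨h1, h2, h3⟩
        have hyX : (ℓ x)⁻¹ • x ∈ X := hX.smul_mem _ hxX _ (inv_ne_zero h1)
        obtain ⟨c, hc0, hc⟩ := (hW₀s _ h2).2 hyX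
        have hτb : τ ((ℓ x)⁻¹ • x) ∈ ball (0 : ℂ × ℂ) R := mem_ball_zero_iff.mpr h3
        have hrq : (r : ℂ) • ((r : ℂ)⁻¹ • τ ((ℓ x)⁻¹ • x)) = τ ((ℓ x)⁻¹ • x) := by
          rw [smul_smul, mul_inv_cancel₀ hrC, one_smul]
        refine ⟨?_, ?_⟩
        · show (r : ℂ)⁻¹ • τ ((ℓ x)⁻¹ • x) ∈ ball (0 : ℂ × ℂ) 2
          rw [mem_ball_zero_iff, norm_smul, norm_inv, Complex.norm_real, Real.norm_of_nonneg hr0.le, inv_mul_lt_iff₀ hr0, hr]
          linarith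
        · refine ⟨ℓ x * c * ℓ (σ (τ ((ℓ x)⁻¹ • x))), ?_, ?_⟩
          · exact mul_ne_zero (mul_ne_zero h1 hc0) (hall _ hτb).1.1.2
          · show x = (ℓ x * c * ℓ (σ (τ ((ℓ x)⁻¹ • x)))) •
              ((ℓ (σ ((r : ℂ) • ((r : ℂ)⁻¹ • τ ((ℓ x)⁻¹ • x)))))⁻¹ • σ ((r : ℂ) • ((r : ℂ)⁻¹ • τ ((ℓ x)⁻¹ • x))))
            rw [hrq, smul_smul, mul_assoc, mul_inv_cancel₀ (hall _ hτb).1.1.2, mul_one, mul_smul, ← hc, smul_smul, mul_inv_cancel₀ h1, one_smul] }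
  have h0b : (0 : ℂ × ℂ) ∈ ball (0 : ℂ × ℂ) R := mem_ball_self hR
  have hτ0 : τ (σ 0) = 0 := (hall 0 h0b).1.1.1.2
  refine ⟨χ, ⟨?_, ?_, ?_⟩, ?_, ?_⟩
  · rw [hℓ]; exact one_ne_zero
  · rw [hℓ, inv_one, one_smul]; exact hW₀m
  · rw [hℓ, inv_one, one_smul, hτ0, norm_zero]; exact hR
  · show (r : ℂ)⁻¹ • τ ((ℓ (σ 0))⁻¹ • σ 0) = 0
    rw [hℓ, inv_one, one_smul, hτ0, smul_zero]
  · show (ℓ (σ ((r : ℂ) • (0 : ℂ × ℂ))))⁻¹ • σ ((r : ℂ) • (0 : ℂ × ℂ)) = σ 0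
    rw [smul_zero, hℓ, inv_one, one_smul]

theorem germ_sdiff {σ : ℂ × ℂ → EN N} {τ : EN N → ℂ × ℂ} (h : IsGermChart X σ τ) (hcl : ∀ x ∈ X, x ∉ D → ∀ᶠ y in 𝓝 x, y ∉ D)
    (h0 : σ 0 ∉ D) : IsGermChart (X \ D) σ τ := by
  have h1 := hcl _ h.σ_mem.self_of_nhds h0
  refine ⟨h.σ_an, ?_, h.τ_an, h.left, ?_, h.inv⟩
  · filter_upwards [h.σ_mem, h.σ_an.continuousAt.eventually h1] with p h2 h3
    exact ⟨h2, h3⟩
  · filter_upwards [h.right] with y h2 h3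
    exact h2 h3.1

/-- a chart of `X \ P` is a germ chart of `X` at each of its points -/
theorem chart_germ (hcl : ∀ x ∈ X, x ∉ P → ∀ᶠ y in 𝓝 x, y ∉ P) (χ : Chart (X \ P)) {p : ℂ × ℂ} (hp : p ∈ ball (0 : ℂ × ℂ) 2) :
    IsGermChart X (fun q => χ.σ (p + q)) (fun y => χ.q y - p) := by
  have hm := χ.σ_mem p hp
  have ht : Tendsto (fun q : ℂ × ℂ => p + q) (𝓝 0) (𝓝 p) := by
    have : ContinuousAt (fun q : ℂ × ℂ => p + q) 0 := by fun_prop
    have h7 := this.tendsto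
    rwa [add_zero] at h7
  have hb : ∀ᶠ q in 𝓝 (0 : ℂ × ℂ), p + q ∈ ball (0 : ℂ × ℂ) 2 := ht.eventually (isOpen_ball.mem_nhds hp)
  have hU : ∀ᶠ y in 𝓝 (χ.σ p), y ∈ χ.U := χ.isOpen_U.mem_nhds hm.2.1
  refine ⟨?_, ?_, ?_, ?_, ?_, ?_⟩
  · have h8 : AnalyticAt ℂ (fun q : ℂ × ℂ => p + q) 0 := by fun_prop
    exact AnalyticAt.comp (g := χ.σ) (f := fun q : ℂ × ℂ => p + q) (by rw [add_zero]; exact χ.σ_an p hp) h8
  · filter_upwards [hb] with q hq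
    exact (χ.σ_mem _ hq).1.1
  · rw [add_zero]
    exact (χ.q_an _ hm.2.1).sub analyticAt_const
  · filter_upwards [hb] with q hq
    rw [(χ.σ_mem _ hq).2.2, add_sub_cancel_left]
  · rw [add_zero]
    filter_upwards [hU, hcl _ hm.1.1 hm.1.2] with y h1 h2 h3
    obtain ⟨-, c, hc, h4⟩ := χ.surj y ⟨h3, h2⟩ h1
    refine ⟨c, hc, ?_⟩
    rw [add_sub_cancel]
    exact h4
  · rw [add_zero]
    have h1 : Tendsto (fun z : EN N × ℂ => z.1) (𝓝 (χ.σ p, (1 : ℂ))) (𝓝 (χ.σ p)) := continuousAt_fst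
    have h2 : ∀ᶠ z in 𝓝 (χ.σ p, (1 : ℂ)), z.2 ≠ 0 := continuousAt_snd.eventually_ne one_ne_zero
    filter_upwards [h1.eventually hU, h2] with z h3 h4
    rw [χ.q_smul _ h3 _ h4]

theorem exists_P (E : LBase X D Λ Γ u B δ) (α : TForm (X \ D) Λ u) (hlog : LogP α) (hres : ResBd α) (hper : Per α Γ) (hvan : VanZero α)
    (hthin : Thin α) : ∃ P : Set (EN N), LData X D P Λ Γ u B δ ∧ ∃ α' : TForm (X \ P) Λ u,
      (∀ z, ∀ x ∈ X, x ∉ D → ∀ v w, α'.toFun z x v w = α.toFun z x v w) ∧ LogP α' ∧ Per α' Γ ∧ VanZero α' ∧ Thin α' := by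
  have hX := E.cone
  have hu := E.tor
  have hΛ := E.dsc
  have hsub := E.D_sub
  have hs := E.D_smul
  have hcl := E.D_closed
  have hh := hor_all E
  have hh' : ∀ x ∈ D, ∃ (b : ℂ) (i : ℕ), HorAt X Λ u D x b i := fun x hx => by
    obtain ⟨b, i, -, h⟩ := hh x hx
    exact ⟨b, i, h⟩
  set P : Set (EN N) := D \ QQ α with hP
  have hPsub : P ⊆ D := fun x hx => hx.1
  have hPs : ∀ x ∈ P, ∀ c : ℂ, c ≠ 0 → c • x ∈ P := by
    intro x hx c hc
    refine ⟨hs x hx.1 c hc, fun h => hx.2 ?_⟩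
    have h1 := QQ_smul hX hu hsub hs hcl h (inv_ne_zero hc)
    rwa [smul_smul, inv_mul_cancel₀ hc, one_smul] at h1
  have hPcl : ∀ x ∈ X, x ∉ P → ∀ᶠ y in 𝓝 x, y ∉ P := by
    intro x hx hxP
    by_cases hxD : x ∈ D
    · have hxQ : x ∈ QQ α := by
        by_contra h
        exact hxP ⟨hxD, h⟩
      filter_upwards [QQ_open hX hu hΛ hsub hs hcl hh' hlog hxQ] with y h1 h2
      exact h2.2 (h1 h2.1)
    · filter_upwards [hcl x hx hxD] with y h1 h2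
      exact h1 h2.1
  have hPop : ∀ x ∈ P, ∀ᶠ y in 𝓝 x, y ∈ D → y ∈ P := by
    intro x hx
    filter_upwards [QQ_closed hX hu hΛ hsub hs hcl hh' hlog hx.1 hx.2] with y h1 h2
    exact ⟨h2, h1 h2⟩
  have hQ : ∀ x ∈ D, x ∉ P → x ∈ QQ α := by
    intro x hx hxP
    by_contra h
    exact hxP ⟨hx, h⟩
  refine ⟨P, ?_, ?_⟩
  · refine ⟨E.toLFib, hPsub, hPs, hPcl, hPop, ?_, ?_, ?_⟩
    · intro b hb x hx hbx
      obtain ⟨i, hi, σ, τ, h1, h2, h3, h4⟩ := E.horB b hb x hx.1 hbx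
      refine ⟨i, hi, σ, τ, h1, h2, h3, ?_⟩
      have hσc : Tendsto σ (𝓝 0) (𝓝 x) := by
        have := h1.σ_an.continuousAt.tendsto
        rwa [h2] at this
      filter_upwards [h4, hσc.eventually (hPop x hx)] with p h5 h6
      rw [← h5]
      exact ⟨fun h => h.1, h6⟩
    · intro b hb x hx hxP hbx
      by_cases hxD : x ∈ D
      · obtain ⟨i, hi, σ, τ, h1, h2, h3, h4⟩ := E.horB b hb x hxD hbx
        refine ⟨σ, τ, i, 0, h1, h2, by omega, ?_⟩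
        filter_upwards [h3] with p h5
        rw [pow_zero, mul_one]
        exact h5
      · exact E.nc b hb x hx hxD hbx
    · intro F hF hFP hFu
      exact (hFP 0).2 (sec_QQ hX hu hΛ hsub hs hcl hh hlog hres hvan hF (fun z => (hFP z).1) hFu)
  -- the extension of the form
  have hext : ∀ x ∈ D, x ∉ P → ∃ (σ : ℂ × ℂ → EN N) (τ : EN N → ℂ × ℂ) (υ : ℂ × ℂ → ℂ), IsGermChart X σ τ ∧ σ 0 = x ∧ AnalyticAt ℂ υ 0 ∧
      (∀ᶠ p in 𝓝 (0 : ℂ × ℂ), u (σ p) - υ p ∈ Λ) ∧ (∀ᶠ p in 𝓝 (0 : ℂ × ℂ), ∃ᶠ q in 𝓝 p, σ q ∉ D) ∧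
      ∀ l ∈ Λ, ∃ g : ℂ × ℂ → ℂ, AnalyticAt ℂ g 0 ∧ ∀ᶠ p in 𝓝 (0 : ℂ × ℂ), σ p ∉ D →
        α.toFun (υ p + l) (σ p) (fderiv ℂ σ p (1, 0)) (fderiv ℂ σ p (0, 1)) = g p := by
    intro x hxD hxP
    have hxQ := hQ x hxD hxP
    obtain ⟨b, i, hb⟩ := hh' x hxD
    obtain ⟨σ, τ, r, Bx, h0, hg⟩ := exists_bx_at hb
    have hball : ∀ᶠ p in 𝓝 (0 : ℂ × ℂ), p ∈ ball (0 : ℂ × ℂ) r := isOpen_ball.mem_nhds (mem_ball_self Bx.pos)
    refine ⟨σ, τ, fun p => b + p.1 ^ i, hg, h0, Bx.υ_an 0 (mem_ball_self Bx.pos), hball.mono Bx.lift, ?_, ?_⟩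
    · filter_upwards [hball] with p hp
      have h1 : ∃ᶠ q in 𝓝 p, q.2 ≠ 0 := by
        have h2 : Tendsto (fun t : ℂ => (p.1, p.2 + t)) (𝓝[≠] 0) (𝓝 p) := by
          have h3 : ContinuousAt (fun t : ℂ => (p.1, p.2 + t)) 0 := by fun_prop
          have h4 := h3.tendsto
          rw [add_zero] at h4
          exact h4.mono_left nhdsWithin_le_nhds
        refine h2.frequently ?_
        have h3 : ∀ᶠ t in 𝓝[≠] (0 : ℂ), p.2 + t ≠ 0 := by
          by_cases hp2 : p.2 = 0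
          · filter_upwards [self_mem_nhdsWithin] with t ht
            rw [hp2, zero_add]
            exact ht
          · have h4 : ContinuousAt (fun t : ℂ => p.2 + t) 0 := by fun_prop
            exact nhdsWithin_le_nhds (h4.eventually_ne (by rw [add_zero]; exact hp2))
        exact h3.frequently
      refine (h1.and_eventually (isOpen_ball.mem_nhds hp)).mono ?_
      rintro q ⟨h2, h3⟩ h4
      exact h2 ((Bx.D_iff q h3).1 h4)
    · intro l hl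
      obtain ⟨G, hGa, hG⟩ := Bx.num hcl hlog hl
      have h1 := hxQ.2 (b + (0 : ℂ × ℂ).1 ^ i + l) (by
        have h3 := Λ.sub_mem (Bx.lift 0 (mem_ball_self Bx.pos)) hl
        rw [h0] at h3
        have e : u x - (b + (0 : ℂ × ℂ).1 ^ i) - l = u x - (b + (0 : ℂ × ℂ).1 ^ i + l) := by ring
        rwa [e] at h3)
      have h2 := Bx.zero_of_exd hX hΛ hl hGa hG (mem_ball_self Bx.pos) rfl (by rw [h0]; exact h1)
      exact coef_of_num_zero (α := α) (υ := fun p => b + p.1 ^ i + l) (hball.mono Bx.D_iff) (hGa 0 (mem_ball_self Bx.pos)) (hball.mono hG) h2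
  obtain ⟨α', hα'⟩ := tform_extend hX E.charts hΛ hu hPsub hsub hs hPs hcl hPcl α hext
  refine ⟨α', hα', ?_, ?_, ?_, ?_⟩
  · -- logarithmic poles
    intro σ τ υ h1 h2 h3 h4
    have hx : σ 0 ∈ P := h2.self_of_nhds.2 rfl
    have hD : ∀ᶠ p in 𝓝 (0 : ℂ × ℂ), σ p ∈ D ↔ p.2 = 0 := by
      filter_upwards [h2, h1.σ_an.continuousAt.eventually (hPop _ hx)] with p h5 h6
      rw [← h5]
      exact ⟨h6, fun h => h.1⟩
    obtain ⟨g, hg, hge⟩ := hlog σ τ υ h1 hD h3 h4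
    refine ⟨g, hg, ?_⟩
    filter_upwards [hge, hD, h1.σ_mem] with p h5 h6 h7 h8
    rw [hα' _ _ h7 (fun h9 => h8 (h6.1 h9))]
    exact h5 h8
  · -- periods
    rintro z l hl x ⟨hxX, hxP⟩ hz v w hv hw
    have hv1 : Tan X x v := tan_mono (fun _ h => h.1) hv
    have hw1 : Tan X x w := tan_mono (fun _ h => h.1) hw
    by_cases hxD : x ∈ D
    · obtain ⟨σ, τ, υ, h1, h2, h3, h4, h5, -⟩ := hext x hxD hxP
      have hYP := ocone_sdiff hX hPs
      have hYD := ocone_sdiff hX hs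
      have hτ0 : τ x = 0 := by rw [← h2]; exact h1.left.self_of_nhds
      have hm : z - υ 0 ∈ Λ := by
        have h6 := h4.self_of_nhds
        rw [h2] at h6
        have h7 := Λ.sub_mem h6 hz
        have e : u x - υ 0 - (u x - z) = z - υ 0 := by ring
        rwa [e] at h7
      have hlf : ∀ m ∈ Λ, ∀ᶠ p in 𝓝 (0 : ℂ × ℂ), u (σ p) - (υ p + m) ∈ Λ := by
        intro m hm
        filter_upwards [h4] with p hp
        have h7 := Λ.sub_mem hp hm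
        have e : u (σ p) - υ p - m = u (σ p) - (υ p + m) := by ring
        rwa [e] at h7
      have hσP : ∀ᶠ p in 𝓝 (0 : ℂ × ℂ), σ p ∈ X \ P := by
        have h6 := h1.σ_an.continuousAt.eventually (hPcl _ (by rw [h2]; exact hxX) (by rw [h2]; exact hxP))
        filter_upwards [h1.σ_mem, h6] with p h7 h8
        exact ⟨h7, h8⟩
      have hcont : ∀ m ∈ Λ, ContinuousAt (cf α' σ (fun p => υ p + m)) 0 := by
        intro m hm
        have h6 := α'.analytic σ (fun p => υ p + m) 0 h1.σ_an (h3.add analyticAt_const) (hσP.and (hlf m hm))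
        exact h6.continuousAt
      have hform : ∀ m ∈ Λ, α'.toFun (υ 0 + m) x v w = cf α' σ (fun p => υ p + m) 0 * det2 (fderiv ℂ τ x v) (fderiv ℂ τ x w) := by
        intro m hm
        have h6 := (germ_form hX hu hPs hPcl α' h1 (hlf m hm)).self_of_nhds (by rw [h2]; exact hxX) (by rw [h2]; exact hxP)
        rw [h2] at h6
        have h7 := h6.2 v w hv1 hw1
        rw [hτ0] at h7
        exact h7
      have hml : z - υ 0 + l ∈ Λ := Λ.add_mem hm (E.le hl)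
      have e1 : z = υ 0 + (z - υ 0) := by ring
      have e2 : z + l = υ 0 + (z - υ 0 + l) := by ring
      have h6 : cf α' σ (fun p => υ p + (z - υ 0 + l)) 0 = cf α' σ (fun p => υ p + (z - υ 0)) 0 := by
        by_contra hne
        have h7 := ((hcont _ hml).sub (hcont _ hm)).eventually_ne (sub_ne_zero.2 hne)
        have hf : ∃ᶠ q in 𝓝 (0 : ℂ × ℂ), σ q ∉ D := h5.self_of_nhds
        obtain ⟨q, hq1, hq2, hq3, hq4, hq5⟩ := (hf.and_eventually (h7.and ((hlf _ hm).and (h1.σ_mem.eventually_nhds.and h1.σ_an.eventually_analyticAt)))).exists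
        apply hq2
        have hmX : σ q ∈ X := hq4.self_of_nhds
        have hmem : ∀ᶠ q in 𝓝 q, σ q ∈ X \ D := by
          filter_upwards [hq4, hq5.continuousAt.eventually (hcl _ hmX hq1)] with q h9 h10
          exact ⟨h9, h10⟩
        have htA : ∀ A : ℂ × ℂ, Tan (X \ D) (σ q) (fderiv ℂ σ q A) := by
          intro A
          have := tan_param hYD hq5 hmem A 0
          rwa [zero_smul, add_zero] at this
        show α'.toFun (υ q + (z - υ 0 + l)) (σ q) _ _ - α'.toFun (υ q + (z - υ 0)) (σ q) _ _ = 0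
        rw [hα' _ _ hmX hq1, hα' _ _ hmX hq1]
        have e3 : υ q + (z - υ 0 + l) = υ q + (z - υ 0) + l := by ring
        rw [e3, hper _ l hl (σ q) ⟨hmX, hq1⟩ hq3 _ _ (htA (1, 0)) (htA (0, 1)), sub_self]
      rw [e2, hform _ hml, h6]
      conv_rhs => rw [e1]
      rw [hform _ hm]
    · rw [hα' _ _ hxX hxD, hα' _ _ hxX hxD]
      exact hper z l hl x ⟨hxX, hxD⟩ hz v w (tan_sdiff hcl hxX hxD hv1) (tan_sdiff hcl hxX hxD hw1)
  · -- the fibre over `0`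
    rintro x ⟨hxX, hxP⟩ hz v w hv hw
    have hv1 : Tan X x v := tan_mono (fun _ h => h.1) hv
    have hw1 : Tan X x w := tan_mono (fun _ h => h.1) hw
    by_cases hxD : x ∈ D
    · obtain ⟨b, i, hb⟩ := hh' x hxD
      obtain ⟨σ, τ, r, Bx, h2, h1⟩ := exists_bx_at hb
      have hYD := ocone_sdiff hX hs
      have hτ0 : τ x = 0 := by rw [← h2]; exact h1.left.self_of_nhds
      set z₀ : ℂ := b + (0 : ℂ × ℂ).1 ^ i with hz₀
      have hm : z₀ ∈ Λ := by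
        have h6 := Bx.lift 0 (mem_ball_self Bx.pos)
        rw [h2] at h6
        have h7 := Λ.sub_mem hz h6
        have e : u x - (u x - (b + (0 : ℂ × ℂ).1 ^ i)) = z₀ := by rw [hz₀]; ring
        rwa [e] at h7
      have hball : ∀ᶠ p in 𝓝 (0 : ℂ × ℂ), p ∈ ball (0 : ℂ × ℂ) r := isOpen_ball.mem_nhds (mem_ball_self Bx.pos)
      have hlf : ∀ᶠ p in 𝓝 (0 : ℂ × ℂ), u (σ p) - (b + p.1 ^ i - z₀) ∈ Λ := by
        filter_upwards [hball] with p hp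
        have h7 := Λ.add_mem (Bx.lift p hp) hm
        have e : u (σ p) - (b + p.1 ^ i) + z₀ = u (σ p) - (b + p.1 ^ i - z₀) := by ring
        rwa [e] at h7
      have hσP : ∀ᶠ p in 𝓝 (0 : ℂ × ℂ), σ p ∈ X \ P := by
        have h6 := h1.σ_an.continuousAt.eventually (hPcl _ (by rw [h2]; exact hxX) (by rw [h2]; exact hxP))
        filter_upwards [h1.σ_mem, h6] with p h7 h8
        exact ⟨h7, h8⟩
      have hcont : ContinuousAt (cf α' σ (fun p => b + p.1 ^ i - z₀)) 0 :=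
        (α'.analytic σ (fun p => b + p.1 ^ i - z₀) 0 h1.σ_an ((analyticAt_const.add (analyticAt_fst.pow i)).sub analyticAt_const)
          (hσP.and hlf)).continuousAt
      have h6 := (germ_form hX hu hPs hPcl α' h1 hlf).self_of_nhds (by rw [h2]; exact hxX) (by rw [h2]; exact hxP)
      rw [h2] at h6
      have h7 := h6.2 v w hv1 hw1
      rw [hτ0] at h7
      have e0 : b + (0 : ℂ × ℂ).1 ^ i - z₀ = 0 := by rw [hz₀]; ring
      rw [e0] at h7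
      rw [h7]
      have h8 : cf α' σ (fun p => b + p.1 ^ i - z₀) 0 = 0 := by
        have hct : Tendsto (fun t : ℂ => ((0, t) : ℂ × ℂ)) (𝓝 0) (𝓝 0) := by
          have h1 : Continuous fun t : ℂ => ((0, t) : ℂ × ℂ) := by fun_prop
          exact h1.tendsto' 0 0 rfl
        have hL1 : Tendsto (fun t : ℂ => cf α' σ (fun p => b + p.1 ^ i - z₀) (0, t)) (𝓝[≠] 0) (𝓝 (cf α' σ (fun p => b + p.1 ^ i - z₀) 0)) :=
          (hcont.tendsto.comp hct).mono_left nhdsWithin_le_nhds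
        refine tendsto_nhds_unique (hL1.congr' ?_) tendsto_const_nhds
        filter_upwards [nhdsWithin_le_nhds (hct.eventually hball), self_mem_nhdsWithin] with t h9 h10
        have ht : t ≠ 0 := h10
        have hmX : σ (0, t) ∈ X := Bx.mem _ h9
        have hmD : σ (0, t) ∉ D := fun h11 => ht ((Bx.D_iff _ h9).1 h11)
        have h12 : ∀ᶠ q in 𝓝 ((0, t) : ℂ × ℂ), q ∈ ball (0 : ℂ × ℂ) r := isOpen_ball.mem_nhds h9
        have hmem : ∀ᶠ q in 𝓝 ((0, t) : ℂ × ℂ), σ q ∈ X \ D := by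
          filter_upwards [h12, (Bx.σ_an _ h9).continuousAt.eventually (hcl _ hmX hmD)] with q h9 h10
          exact ⟨Bx.mem _ h9, h10⟩
        have htA : ∀ A : ℂ × ℂ, Tan (X \ D) (σ (0, t)) (fderiv ℂ σ (0, t) A) := by
          intro A
          have := tan_param hYD (Bx.σ_an _ h9) hmem A 0
          rwa [zero_smul, add_zero] at this
        have hut : u (σ (0, t)) ∈ Λ := by
          have h13 := Λ.add_mem (Bx.lift _ h9) hm
          have e : u (σ (0, t)) - (b + ((0, t) : ℂ × ℂ).1 ^ i) + z₀ = u (σ (0, t)) := by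
            rw [hz₀]
            show u (σ (0, t)) - (b + (0 : ℂ) ^ i) + (b + (0 : ℂ) ^ i) = u (σ (0, t))
            ring
          rwa [e] at h13
        show α'.toFun (b + ((0, t) : ℂ × ℂ).1 ^ i - z₀) (σ (0, t)) _ _ = 0
        have e1 : b + ((0, t) : ℂ × ℂ).1 ^ i - z₀ = 0 := by
          rw [hz₀]
          show b + (0 : ℂ) ^ i - (b + (0 : ℂ) ^ i) = 0
          ring
        rw [e1, hα' _ _ hmX hmD]
        exact hvan (σ (0, t)) ⟨hmX, hmD⟩ hut _ _ (htA (1, 0)) (htA (0, 1))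
      rw [h8, zero_mul]
    · rw [hα' _ _ hxX hxD]
      exact hvan x ⟨hxX, hxD⟩ hz v w (tan_sdiff hcl hxX hxD hv1) (tan_sdiff hcl hxX hxD hw1)
  · -- not locally `0`
    intro χ υ p hp hυ hlf h0
    -- a point outside `D`
    obtain ⟨p', hp', hp'D, hυ', hlf', h0'⟩ : ∃ p' ∈ ball (0 : ℂ × ℂ) 2, χ.σ p' ∉ D ∧ AnalyticAt ℂ υ p' ∧
        (∀ᶠ y in 𝓝 p', u (χ.σ y) - υ y ∈ Λ) ∧ ∀ᶠ y in 𝓝 p', tc α' χ υ y = 0 := by
      have hall : ∀ᶠ p' in 𝓝 p, p' ∈ ball (0 : ℂ × ℂ) 2 ∧ AnalyticAt ℂ υ p' ∧ (∀ᶠ y in 𝓝 p', u (χ.σ y) - υ y ∈ Λ) ∧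
          ∀ᶠ y in 𝓝 p', tc α' χ υ y = 0 := by
        filter_upwards [isOpen_ball.mem_nhds hp, hυ.eventually_analyticAt, hlf.eventually_nhds, h0.eventually_nhds] with p' a1 a2 a3 a4
        exact ⟨a1, a2, a3, a4⟩
      by_cases hxD : χ.σ p ∈ D
      · have hm := χ.σ_mem p hp
        obtain ⟨b, i, hb⟩ := hh' _ hxD
        obtain ⟨σ, τ, r, Bx, h2, h1⟩ := exists_bx_at hb
        have hball : ∀ᶠ p in 𝓝 (0 : ℂ × ℂ), p ∈ ball (0 : ℂ × ℂ) r := isOpen_ball.mem_nhds (mem_ball_self Bx.pos)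
        have hct : Tendsto (fun t : ℂ => ((0, t) : ℂ × ℂ)) (𝓝[≠] 0) (𝓝 0) := by
          have h1 : Continuous fun t : ℂ => ((0, t) : ℂ × ℂ) := by fun_prop
          exact (h1.tendsto' 0 0 rfl).mono_left nhdsWithin_le_nhds
        have hσc : Tendsto (fun t : ℂ => σ (0, t)) (𝓝[≠] 0) (𝓝 (χ.σ p)) := by
          rw [← h2]
          exact h1.σ_an.continuousAt.tendsto.comp hct
        have hqc : Tendsto (fun t : ℂ => χ.q (σ (0, t))) (𝓝[≠] 0) (𝓝 p) := by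
          have h3 := (χ.q_an _ hm.2.1).continuousAt.tendsto
          rw [hm.2.2] at h3
          exact h3.comp hσc
        obtain ⟨t, a1, a2, a3, a4, a5⟩ := ((hqc.eventually hall).and ((hσc.eventually (χ.isOpen_U.mem_nhds hm.2.1)).and
          ((hct.eventually hball).and ((hσc.eventually (hPcl _ hm.1.1 hm.1.2)).and self_mem_nhdsWithin)))).exists
        have ht : t ≠ 0 := a5
        have hσX : σ (0, t) ∈ X := Bx.mem _ a3
        obtain ⟨-, c, hc, a6⟩ := χ.surj (σ (0, t)) ⟨hσX, a4⟩ a2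
        refine ⟨χ.q (σ (0, t)), a1.1, ?_, a1.2.1, a1.2.2.1, a1.2.2.2⟩
        intro a7
        have a8 := hs _ a7 c hc
        rw [← a6] at a8
        exact ht ((Bx.D_iff _ a3).1 a8)
      · obtain ⟨a1, a2, a3, a4⟩ := hall.self_of_nhds
        exact ⟨p, a1, hxD, a2, a3, a4⟩
    have hm := χ.σ_mem p' hp'
    have hg := chart_germ hPcl χ hp'
    have hgD : IsGermChart (X \ D) (fun q => χ.σ (p' + q)) (fun y => χ.q y - p') := germ_sdiff hg hcl (by rw [add_zero]; exact hp'D)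
    obtain ⟨χ', hU', hq', hσ'⟩ := exists_chartO (ocone_sdiff hX hs) hgD
    rw [add_zero] at hU' hq' hσ'
    have ht : Tendsto (fun q : ℂ × ℂ => p' + q) (𝓝 0) (𝓝 p') := by
      have : ContinuousAt (fun q : ℂ × ℂ => p' + q) 0 := by fun_prop
      have h7 := this.tendsto
      rwa [add_zero] at h7
    have hlg : ∀ᶠ q in 𝓝 (0 : ℂ × ℂ), u (χ.σ (p' + q)) - υ (p' + q) ∈ Λ := ht.eventually hlf'
    have hform := germ_form hX hu hs hcl α hg hlg
    have hlift := germ_lift hu hg hlg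
    simp only [add_zero] at hform hlift
    -- the coefficient vanishes
    have hcf : ∀ᶠ q in 𝓝 (0 : ℂ × ℂ), cf α (fun q => χ.σ (p' + q)) (fun q => υ (p' + q)) q = 0 := by
      have h1 : ∀ᶠ y in 𝓝 p', χ.σ y ∉ D := (χ.σ_an p' hp').continuousAt.eventually (hcl _ hm.1.1 hp'D)
      filter_upwards [ht.eventually h0', ht.eventually h1, ht.eventually (isOpen_ball.mem_nhds hp')] with q a1 a2 a3
      show α.toFun (υ (p' + q)) (χ.σ (p' + q)) (fderiv ℂ (fun q => χ.σ (p' + q)) q (1, 0)) (fderiv ℂ (fun q => χ.σ (p' + q)) q (0, 1)) = 0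
      rw [fderiv_shift, ← hα' _ _ (χ.σ_mem _ a3).1.1 a2]
      exact a1
    have hb0 : (0 : ℂ × ℂ) ∈ ball (0 : ℂ × ℂ) 2 := mem_ball_self two_pos
    have hχc : Tendsto χ'.σ (𝓝 0) (𝓝 (χ.σ p')) := by
      rw [← hσ']
      exact (χ'.σ_an 0 hb0).continuousAt
    have hqc : Tendsto (fun q => χ.q (χ'.σ q)) (𝓝 0) (𝓝 p') := by
      have h3 := (χ.q_an _ hm.2.1).continuousAt.tendsto
      rw [hm.2.2] at h3
      exact h3.comp hχc
    have hqan : AnalyticAt ℂ (fun q => χ.q (χ'.σ q)) 0 :=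
      AnalyticAt.comp (g := χ.q) (f := χ'.σ) (by rw [hσ']; exact χ.q_an _ hm.2.1) (χ'.σ_an 0 hb0)
    refine hthin χ' (fun q => υ (χ.q (χ'.σ q))) 0 hb0 ?_ ?_ ?_
    · exact AnalyticAt.comp (g := υ) (f := fun q => χ.q (χ'.σ q)) (by rw [hσ', hm.2.2]; exact hυ') hqan
    · filter_upwards [hχc.eventually hlift, isOpen_ball.mem_nhds hb0] with q a1 a2
      have a3 := a1 (χ'.σ_mem q a2).1.1
      rw [add_sub_cancel] at a3
      exact a3
    · have hq0 : Tendsto (fun q => χ.q (χ'.σ q) - p') (𝓝 0) (𝓝 0) := by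
        have h3 := hqc.sub_const p'
        rwa [sub_self] at h3
      filter_upwards [hχc.eventually hform, isOpen_ball.mem_nhds hb0, hq0.eventually hcf] with q a1 a2 a3
      have a4 := (χ'.σ_mem q a2).1
      have hmemN : ∀ᶠ q' in 𝓝 q, χ'.σ q' ∈ X := by
        filter_upwards [isOpen_ball.mem_nhds a2] with q' a5
        exact (χ'.σ_mem q' a5).1.1
      have htA : ∀ A : ℂ × ℂ, Tan X (χ'.σ q) (fderiv ℂ χ'.σ q A) := by
        intro A
        have := tan_param hX (χ'.σ_an q a2) hmemN A 0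
        rwa [zero_smul, add_zero] at this
      have a5 := (a1 a4.1 a4.2).2 _ _ (htA (1, 0)) (htA (0, 1))
      rw [add_sub_cancel, a3, zero_mul] at a5
      exact a5

end Pool.Agent.H86.LU
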