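import Pool.Agent.H18.LU.Defs

/-!
# LU Ld: local descriptions of forms

`Ld α x τ V G`: near the point `x` of `X` (also at points of `D₀`) the form `α` on `X \ D₀` is `G dτ₁ ∧ dτ₂`, for the lift `V` of `u`.
-/

set_option autoImplicit false

open Topology Filter Metric

namespace Pool.Agent.H86.LU

open Pool.Agent.H36.BP (EN fs wd IsGermChart)
open Pool.Agent.H14.PP (IsCone Chart Tan CurveAt)
open Pool.Agent.H62.EF (Lat MN pr TorusMap Sec Charts DU det2)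
open Pool.Agent.H62.EL (TForm Per VanZero Thin tc)
open Pool.Agent.H18.LU (OCone Dsc)

variable {N : ℕ} {X D D₀ : Set (EN N)} {Λ : AddSubgroup ℂ} {u : EN N → ℂ}

theorem tan_mono {Y : Set (EN N)} (h : Y ⊆ X) {x v : EN N} (hv : Tan Y x v) : Tan X x v := by
  obtain ⟨F, hF, h0, h1⟩ := hv
  exact ⟨F, ⟨hF.1, hF.2.mono fun z hz => h hz⟩, h0, h1⟩

theorem tan_sdiff (hcl : ∀ x ∈ X, x ∉ D₀ → ∀ᶠ y in 𝓝 x, y ∉ D₀) {x v : EN N} (hx : x ∈ X) (hx0 : x ∉ D₀) (hv : Tan X x v) :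
    Tan (X \ D₀) x v := by
  obtain ⟨F, hF, h0, h1⟩ := hv
  refine ⟨F, ⟨hF.1, ?_⟩, h0, h1⟩
  have h2 : ∀ᶠ z in 𝓝 (0 : ℂ), F z ∉ D₀ := by
    have h3 : Tendsto F (𝓝 0) (𝓝 x) := by
      have := hF.1.continuousAt.tendsto
      rwa [h0] at this
    exact h3.eventually (hcl x hx hx0)
  filter_upwards [hF.2, h2] with z h4 h5
  exact ⟨h4, h5⟩

theorem tan_smul (hX : OCone X) {x v : EN N} (h : Tan X x v) {c : ℂ} (hc : c ≠ 0) : Tan X (c • x) (c • v) := by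
  obtain ⟨F, hF, hF0, hFd⟩ := h
  refine ⟨fun z => c • F z, ⟨AnalyticAt.fun_smul analyticAt_const hF.1, ?_⟩, ?_, ?_⟩
  · filter_upwards [hF.2] with z hz
    exact hX.smul_mem _ hz c hc
  · show c • F 0 = c • x
    rw [hF0]
  · have h1 : HasDerivAt (fun z => c • F z) (c • deriv F 0) 0 :=
      hF.1.differentiableAt.hasDerivAt.const_smul c
    rw [h1.deriv, hFd]

/-- tangent vectors of a parametrisation -/
theorem tan_param (hX : OCone X) {σ : ℂ × ℂ → EN N} {p : ℂ × ℂ} (hσ : AnalyticAt ℂ σ p) (hm : ∀ᶠ q in 𝓝 p, σ q ∈ X) (A : ℂ × ℂ) (b : ℂ) :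
    Tan X (σ p) (fderiv ℂ σ p A + b • σ p) := by
  have hl : AnalyticAt ℂ (fun z : ℂ => p + z • A) 0 := by fun_prop
  have h0 : p + (0 : ℂ) • A = p := by simp
  have hσ0 : AnalyticAt ℂ σ (p + (0 : ℂ) • A) := by rw [h0]; exact hσ
  have hF : AnalyticAt ℂ (fun z : ℂ => σ (p + z • A)) 0 := AnalyticAt.comp (g := σ) (f := fun z : ℂ => p + z • A) hσ0 hl
  have h1b : AnalyticAt ℂ (fun z : ℂ => 1 + z * b) 0 := by fun_prop
  have hF2 : AnalyticAt ℂ (fun z : ℂ => (1 + z * b) • σ (p + z • A)) 0 := h1b.smul hF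
  refine ⟨fun z => (1 + z * b) • σ (p + z • A), ⟨hF2, ?_⟩, by simp, ?_⟩
  · have h2 : ∀ᶠ z : ℂ in 𝓝 0, σ (p + z • A) ∈ X := by
      have h3 : Tendsto (fun z : ℂ => p + z • A) (𝓝 0) (𝓝 p) := by
        have := hl.continuousAt.tendsto
        rwa [h0] at this
      exact h3.eventually hm
    have h3 : ∀ᶠ z : ℂ in 𝓝 0, 1 + z * b ≠ 0 := by
      apply ContinuousAt.eventually_ne
      · fun_prop
      · simp
    filter_upwards [h2, h3] with z h4 h5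
    exact hX.smul_mem _ h4 _ h5
  · have h1 : HasFDerivAt σ (fderiv ℂ σ p) (p + (0 : ℂ) • A) := by
      rw [h0]
      exact hσ.differentiableAt.hasFDerivAt
    have h2 : HasDerivAt (fun z : ℂ => p + z • A) A 0 := by
      have h3 : HasDerivAt (fun z : ℂ => z • A) ((1 : ℂ) • A) 0 := (hasDerivAt_id (0 : ℂ)).smul_const A
      rw [one_smul] at h3
      exact h3.const_add p
    have h4 : HasDerivAt (fun z : ℂ => σ (p + z • A)) (fderiv ℂ σ p A) 0 := h1.comp_hasDerivAt (0 : ℂ) h2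
    have h5 : HasDerivAt (fun z : ℂ => 1 + z * b) b 0 := by
      have h6 : HasDerivAt (fun z : ℂ => z * b) (1 * b) 0 := (hasDerivAt_id (0 : ℂ)).mul_const b
      rw [one_mul] at h6
      exact h6.const_add 1
    have h7 := h5.smul h4
    have h8 := h7.deriv
    simp only [zero_mul, add_zero, one_smul, zero_smul] at h8
    exact h8

/-- the coordinates of a germ chart are invariant: the derivative in the radial direction is `0` -/
theorem germ_rad {σ : ℂ × ℂ → EN N} {τ : EN N → ℂ × ℂ} (h : IsGermChart X σ τ) : ∀ᶠ y in 𝓝 (σ 0), fderiv ℂ τ y y = 0 := by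
  have h1 : ∀ᶠ y in 𝓝 (σ 0), ∀ᶠ c in 𝓝 (1 : ℂ), τ (c • y) = τ y := h.inv.curry_nhds
  filter_upwards [h1, h.τ_an.eventually_analyticAt] with y h2 h3
  have h4 : HasDerivAt (fun c : ℂ => c • y) y 1 := by
    have := (hasDerivAt_id (1 : ℂ)).smul_const y
    rwa [one_smul] at this
  have h5 : HasFDerivAt τ (fderiv ℂ τ y) ((1 : ℂ) • y) := by
    rw [one_smul]
    exact h3.differentiableAt.hasFDerivAt
  have h6 : HasDerivAt (fun c : ℂ => τ (c • y)) (fderiv ℂ τ y y) 1 := h5.comp_hasDerivAt (1 : ℂ) h4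
  have h7 : HasDerivAt (fun c : ℂ => τ (c • y)) 0 1 := (hasDerivAt_const (1 : ℂ) (τ y)).congr_of_eventuallyEq h2
  exact h6.unique h7

/-- points and tangent vectors in a germ chart -/
theorem germ_tan (hX : OCone X) {σ : ℂ × ℂ → EN N} {τ : EN N → ℂ × ℂ} (h : IsGermChart X σ τ) :
    ∀ᶠ y in 𝓝 (σ 0), y ∈ X → ∃ c : ℂ, c ≠ 0 ∧ y = c • σ (τ y) ∧
      ∀ v, Tan X y v → ∃ b : ℂ, v = c • fderiv ℂ σ (τ y) (fderiv ℂ τ y v) + b • y := by
  have hτ0 : τ (σ 0) = 0 := h.left.self_of_nhds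
  have hτc : Tendsto τ (𝓝 (σ 0)) (𝓝 0) := by
    have := h.τ_an.continuousAt.tendsto
    rwa [hτ0] at this
  filter_upwards [h.right.eventually_nhds, h.τ_an.eventually_analyticAt, hτc.eventually h.σ_an.eventually_analyticAt,
    hτc.eventually h.σ_mem] with y h1 h2 h3 h4 hy
  obtain ⟨c, hc, hyc⟩ := h1.self_of_nhds hy
  refine ⟨c, hc, hyc, ?_⟩
  rintro v ⟨F, hF, hF0, hFd⟩
  have ha : σ (τ y) ≠ 0 := hX.ne_zero h4
  have hτF : AnalyticAt ℂ (fun z => τ (F z)) 0 := AnalyticAt.comp (g := τ) (f := F) (by rw [hF0]; exact h2) hF.1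
  have hσF : AnalyticAt ℂ (fun z => σ (τ (F z))) 0 :=
    AnalyticAt.comp (g := σ) (f := fun z => τ (F z)) (by rw [hF0]; exact h3) hτF
  have hn : AnalyticAt ℂ (fun z => innerSL ℂ (σ (τ y)) (F z)) 0 :=
    AnalyticAt.comp (g := fun x : EN N => (innerSL ℂ (σ (τ y))) x) (f := F) ((innerSL ℂ (σ (τ y))).analyticAt _) hF.1
  have hd : AnalyticAt ℂ (fun z => innerSL ℂ (σ (τ y)) (σ (τ (F z)))) 0 :=
    AnalyticAt.comp (g := fun x : EN N => (innerSL ℂ (σ (τ y))) x) (f := fun z => σ (τ (F z)))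
      ((innerSL ℂ (σ (τ y))).analyticAt _) hσF
  have hd0 : innerSL ℂ (σ (τ y)) (σ (τ (F 0))) ≠ 0 := by
    rw [hF0, innerSL_apply_apply]
    exact inner_self_ne_zero.2 ha
  set C : ℂ → ℂ := fun z => innerSL ℂ (σ (τ y)) (F z) / innerSL ℂ (σ (τ y)) (σ (τ (F z))) with hC
  have hCan : AnalyticAt ℂ C 0 := hn.div hd hd0
  have hC0 : C 0 = c := by
    show innerSL ℂ (σ (τ y)) (F 0) / innerSL ℂ (σ (τ y)) (σ (τ (F 0))) = c
    rw [div_eq_iff hd0, hF0, ← smul_eq_mul, ← map_smul, ← hyc]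
  have hFy : Tendsto F (𝓝 0) (𝓝 y) := by
    have := hF.1.continuousAt.tendsto
    rwa [hF0] at this
  have hev : ∀ᶠ z in 𝓝 (0 : ℂ), F z = C z • σ (τ (F z)) := by
    filter_upwards [hFy.eventually h1, hF.2, hd.continuousAt.eventually_ne hd0] with z h5 h6 h7
    obtain ⟨b, hb, hxb⟩ := h5 h6
    have h8 : C z = b := by
      show innerSL ℂ (σ (τ y)) (F z) / innerSL ℂ (σ (τ y)) (σ (τ (F z))) = b
      rw [div_eq_iff h7]
      conv_lhs => rw [hxb]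
      rw [map_smul, smul_eq_mul]
    rw [h8]
    exact hxb
  have hD0 : HasDerivAt (fun z => τ (F z)) (fderiv ℂ τ y v) 0 := by
    have h5 : HasFDerivAt τ (fderiv ℂ τ y) (F 0) := by rw [hF0]; exact h2.differentiableAt.hasFDerivAt
    have h6 : HasDerivAt F v 0 := by rw [← hFd]; exact hF.1.differentiableAt.hasDerivAt
    exact h5.comp_hasDerivAt (0 : ℂ) h6
  have hD1 : HasDerivAt (fun z => σ (τ (F z))) (fderiv ℂ σ (τ y) (fderiv ℂ τ y v)) 0 := by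
    have h5 : HasFDerivAt σ (fderiv ℂ σ (τ y)) (τ (F 0)) := by rw [hF0]; exact h3.differentiableAt.hasFDerivAt
    exact h5.comp_hasDerivAt (0 : ℂ) hD0
  have hD2 : HasDerivAt (fun z => C z • σ (τ (F z)))
      (C 0 • fderiv ℂ σ (τ y) (fderiv ℂ τ y v) + deriv C 0 • σ (τ (F 0))) 0 :=
    hCan.differentiableAt.hasDerivAt.smul hD1
  have hD3 := hD2.congr_of_eventuallyEq hev
  refine ⟨deriv C 0 * c⁻¹, ?_⟩
  have h9 : (deriv C 0 * c⁻¹) • y = deriv C 0 • σ (τ y) := by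
    conv_lhs => rw [hyc]
    rw [smul_smul, mul_assoc, inv_mul_cancel₀ hc, mul_one]
  rw [h9]
  have h10 := hD3.deriv
  rw [hFd, hC0, hF0] at h10
  exact h10

theorem pair_eq (L : (ℂ × ℂ) →L[ℂ] EN N) (w : ℂ × ℂ) : L w = w.1 • L (1, 0) + w.2 • L (0, 1) := by
  rw [← map_smul, ← map_smul, ← map_add]
  congr 1
  ext
  · simp
  · simp

/-- the local description of a form -/
structure Ld (α : TForm (X \ D₀) Λ u) (x : EN N) (τ : EN N → ℂ × ℂ) (V G : EN N → ℂ) : Prop where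
  τ_an : AnalyticAt ℂ τ x
  V_an : AnalyticAt ℂ V x
  G_an : AnalyticAt ℂ G x
  rad : ∀ᶠ y in 𝓝 x, fderiv ℂ τ y y = 0
  lift : ∀ᶠ y in 𝓝 x, y ∈ X → u y - V y ∈ Λ
  eq : ∀ᶠ y in 𝓝 x, y ∈ X → y ∉ D₀ → ∀ v w, Tan X y v → Tan X y w →
    α.toFun (V y) y v w = G y * det2 (fderiv ℂ τ y v) (fderiv ℂ τ y w)

theorem ocone_sdiff (hX : OCone X) (hs : ∀ x ∈ D₀, ∀ c : ℂ, c ≠ 0 → c • x ∈ D₀) : OCone (X \ D₀) := by
  refine ⟨fun h => hX.zero_notMem h.1, ?_⟩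
  rintro x ⟨h1, h2⟩ c hc
  refine ⟨hX.smul_mem x h1 c hc, fun h3 => h2 ?_⟩
  have h4 := hs _ h3 c⁻¹ (inv_ne_zero hc)
  rwa [smul_smul, inv_mul_cancel₀ hc, one_smul] at h4

theorem ld_of_germ (hX : OCone X) (hu : TorusMap X Λ u) (hs : ∀ x ∈ D₀, ∀ c : ℂ, c ≠ 0 → c • x ∈ D₀)
    (hcl : ∀ x ∈ X, x ∉ D₀ → ∀ᶠ y in 𝓝 x, y ∉ D₀) (α : TForm (X \ D₀) Λ u) {σ : ℂ × ℂ → EN N} {τ : EN N → ℂ × ℂ}
    (h : IsGermChart X σ τ) {υ g : ℂ × ℂ → ℂ} (hυ : AnalyticAt ℂ υ 0) (hl : ∀ᶠ p in 𝓝 (0 : ℂ × ℂ), u (σ p) - υ p ∈ Λ)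
    (hg : AnalyticAt ℂ g 0) (he : ∀ᶠ p in 𝓝 (0 : ℂ × ℂ), σ p ∉ D₀ →
      α.toFun (υ p) (σ p) (fderiv ℂ σ p (1, 0)) (fderiv ℂ σ p (0, 1)) = g p) :
    Ld α (σ 0) τ (fun y => υ (τ y)) (fun y => g (τ y)) := by
  have hτ0 : τ (σ 0) = 0 := h.left.self_of_nhds
  have hτc : Tendsto τ (𝓝 (σ 0)) (𝓝 0) := by
    have := h.τ_an.continuousAt.tendsto
    rwa [hτ0] at this
  have hY := ocone_sdiff hX hs
  have hlift : ∀ᶠ y in 𝓝 (σ 0), y ∈ X → u y - υ (τ y) ∈ Λ := by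
    filter_upwards [h.right, hτc.eventually hl, hτc.eventually h.σ_mem] with y h1 h2 h3 hy
    obtain ⟨c, hc, hyc⟩ := h1 hy
    have h4 := hu.smul _ h3 c hc
    rw [← hyc] at h4
    have h5 := Λ.add_mem h4 h2
    have e : u y - u (σ (τ y)) + (u (σ (τ y)) - υ (τ y)) = u y - υ (τ y) := by ring
    rwa [e] at h5
  refine ⟨h.τ_an, AnalyticAt.comp (g := υ) (f := τ) (by rw [hτ0]; exact hυ) h.τ_an,
    AnalyticAt.comp (g := g) (f := τ) (by rw [hτ0]; exact hg) h.τ_an, germ_rad h, hlift, ?_⟩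
  filter_upwards [germ_tan hX h, hlift, hτc.eventually he, hτc.eventually h.σ_mem.eventually_nhds, hτc.eventually h.σ_an.eventually_analyticAt,
    hτc.eventually hl] with y h1 h2 h3 h4 h5 h6 hy hy0 v w hv hw
  obtain ⟨c, hc, hyc, h7⟩ := h1 hy
  obtain ⟨b₁, hb₁⟩ := h7 v hv
  obtain ⟨b₂, hb₂⟩ := h7 w hw
  set p : ℂ × ℂ := τ y with hp
  have hσX : σ p ∈ X := h4.self_of_nhds
  have hσD : σ p ∉ D₀ := fun h8 => hy0 (hyc ▸ hs _ h8 c hc)
  have hmem : ∀ᶠ q in 𝓝 p, σ q ∈ X \ D₀ := by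
    filter_upwards [h4, h5.continuousAt.eventually (hcl _ hσX hσD)] with q h9 h10
    exact ⟨h9, h10⟩
  have htA : ∀ A : ℂ × ℂ, Tan (X \ D₀) (σ p) (fderiv ℂ σ p A) := by
    intro A
    have := tan_param hY h5 hmem A 0
    rwa [zero_smul, add_zero] at this
  have hu1 : u y - υ p ∈ Λ := h2 hy
  have e1 := α.add_smul (υ p) y ⟨hy, hy0⟩ hu1 (c • fderiv ℂ σ p (fderiv ℂ τ y v)) (c • fderiv ℂ σ p (fderiv ℂ τ y w))
    (by have := tan_smul hY (htA (fderiv ℂ τ y v)) hc; rwa [← hyc] at this)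
    (by have := tan_smul hY (htA (fderiv ℂ τ y w)) hc; rwa [← hyc] at this) b₁ b₂
  rw [← hb₁, ← hb₂] at e1
  have e2 := α.scale (υ p) (σ p) ⟨hσX, hσD⟩ h6 (fderiv ℂ σ p (fderiv ℂ τ y v)) (fderiv ℂ σ p (fderiv ℂ τ y w))
    (htA _) (htA _) c hc
  rw [← hyc] at e2
  have e3 := α.det (υ p) (σ p) ⟨hσX, hσD⟩ h6 _ _ (htA (1, 0)) (htA (0, 1)) (fderiv ℂ τ y v).1 (fderiv ℂ τ y v).2
    (fderiv ℂ τ y w).1 (fderiv ℂ τ y w).2
  rw [← pair_eq, ← pair_eq, h3 hσD] at e3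
  rw [e1, e2, e3]
  show _ = g p * ((fderiv ℂ τ y v).1 * (fderiv ℂ τ y w).2 - (fderiv ℂ τ y v).2 * (fderiv ℂ τ y w).1)
  ring

theorem Ld.near {α : TForm (X \ D₀) Λ u} {x : EN N} {τ : EN N → ℂ × ℂ} {V G : EN N → ℂ} (h : Ld α x τ V G) :
    ∀ᶠ y in 𝓝 x, Ld α y τ V G := by
  filter_upwards [h.τ_an.eventually_analyticAt, h.V_an.eventually_analyticAt, h.G_an.eventually_analyticAt, h.rad.eventually_nhds,
    h.lift.eventually_nhds, h.eq.eventually_nhds] with y h1 h2 h3 h4 h5 h6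
  exact ⟨h1, h2, h3, h4, h5, h6⟩

/-- the points outside `D₀` are dense near `x`, with tangent vectors -/
def Dn (X D₀ : Set (EN N)) (x : EN N) : Prop :=
  ∀ v w, Tan X x v → Tan X x w → ∃ᶠ t : EN N × EN N × EN N in 𝓝 (x, v, w), t.1 ∈ X ∧ t.1 ∉ D₀ ∧ Tan X t.1 t.2.1 ∧ Tan X t.1 t.2.2

theorem dn_of_germ (hX : OCone X) {σ : ℂ × ℂ → EN N} {τ : EN N → ℂ × ℂ} (h : IsGermChart X σ τ)
    (hf : ∃ᶠ q in 𝓝 (0 : ℂ × ℂ), σ q ∉ D₀) : Dn X D₀ (σ 0) := by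
  intro v w hv hw
  have hx : σ 0 ∈ X := h.σ_mem.self_of_nhds
  have hτ0 : τ (σ 0) = 0 := h.left.self_of_nhds
  obtain ⟨c, hc, hyc, h7⟩ := (germ_tan hX h).self_of_nhds hx
  obtain ⟨b₁, hb₁⟩ := h7 v hv
  obtain ⟨b₂, hb₂⟩ := h7 w hw
  rw [hτ0] at hyc hb₁ hb₂
  have hc1 : c = 1 := by
    have h2 : (c - 1) • σ 0 = 0 := by rw [sub_smul, one_smul, ← hyc, sub_self]
    exact sub_eq_zero.1 ((smul_eq_zero.1 h2).resolve_right (hX.ne_zero hx))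
  rw [hc1, one_smul] at hb₁ hb₂
  have hσ1 : ContinuousAt (fderiv ℂ σ) 0 := h.σ_an.fderiv.continuousAt
  set A := fderiv ℂ τ (σ 0) v with hA
  set B := fderiv ℂ τ (σ 0) w with hB
  have ht : Tendsto (fun q : ℂ × ℂ => (σ q, fderiv ℂ σ q A + b₁ • σ q, fderiv ℂ σ q B + b₂ • σ q)) (𝓝 0) (𝓝 (σ 0, v, w)) := by
    have h1 : Tendsto (fun q : ℂ × ℂ => fderiv ℂ σ q A + b₁ • σ q) (𝓝 0) (𝓝 v) := by
      rw [hb₁]
      exact (hσ1.clm_apply continuousAt_const).add (h.σ_an.continuousAt.const_smul b₁)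
    have h2 : Tendsto (fun q : ℂ × ℂ => fderiv ℂ σ q B + b₂ • σ q) (𝓝 0) (𝓝 w) := by
      rw [hb₂]
      exact (hσ1.clm_apply continuousAt_const).add (h.σ_an.continuousAt.const_smul b₂)
    exact h.σ_an.continuousAt.tendsto.prodMk_nhds (h1.prodMk_nhds h2)
  refine ht.frequently ?_
  refine (hf.and_eventually (h.σ_mem.eventually_nhds.and h.σ_an.eventually_analyticAt)).mono ?_
  rintro q ⟨h1, h2, h3⟩
  exact ⟨h2.self_of_nhds, h1, tan_param hX h3 h2 A b₁, tan_param hX h3 h2 B b₂⟩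

theorem dsc_eq (hΛ : Dsc Λ) {Z : Type*} [TopologicalSpace Z] {x : Z} {f : Z → ℂ} (hf : ContinuousAt f x) (h0 : f x = 0) :
    ∀ᶠ y in 𝓝 x, f y ∈ Λ → f y = 0 := by
  obtain ⟨δ, hδ, hd⟩ := hΛ.discrete
  have h1 : ∀ᶠ y in 𝓝 x, ‖f y‖ < δ := by
    have h2 : ContinuousAt (fun y => ‖f y‖) x := hf.norm
    exact h2.eventually_lt_const (by show ‖f x‖ < δ; rw [h0, norm_zero]; exact hδ)
  filter_upwards [h1] with y h3 h4
  exact hd _ h4 h3

theorem det2_cont {τ : EN N → ℂ × ℂ} {G : EN N → ℂ} {x v w : EN N} (hτ : AnalyticAt ℂ τ x) (hG : AnalyticAt ℂ G x) :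
    ContinuousAt (fun t : EN N × EN N × EN N => G t.1 * det2 (fderiv ℂ τ t.1 t.2.1) (fderiv ℂ τ t.1 t.2.2)) (x, v, w) := by
  have h1 : ContinuousAt (fun t : EN N × EN N × EN N => fderiv ℂ τ t.1) (x, v, w) :=
    ContinuousAt.comp (g := fderiv ℂ τ) (f := fun t : EN N × EN N × EN N => t.1) hτ.fderiv.continuousAt continuousAt_fst
  have h2 : ContinuousAt (fun t : EN N × EN N × EN N => fderiv ℂ τ t.1 t.2.1) (x, v, w) := h1.clm_apply (by fun_prop)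
  have h3 : ContinuousAt (fun t : EN N × EN N × EN N => fderiv ℂ τ t.1 t.2.2) (x, v, w) := h1.clm_apply (by fun_prop)
  have h4 : ContinuousAt (fun t : EN N × EN N × EN N => G t.1) (x, v, w) :=
    ContinuousAt.comp (g := G) (f := fun t : EN N × EN N × EN N => t.1) hG.continuousAt continuousAt_fst
  show ContinuousAt (fun t : EN N × EN N × EN N => G t.1 * ((fderiv ℂ τ t.1 t.2.1).1 * (fderiv ℂ τ t.1 t.2.2).2 -
    (fderiv ℂ τ t.1 t.2.1).2 * (fderiv ℂ τ t.1 t.2.2).1)) (x, v, w)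
  exact h4.mul (((h2.fst).mul h3.snd).sub (h2.snd.mul h3.fst))

theorem Ld.unique (hΛ : Dsc Λ) {α : TForm (X \ D₀) Λ u} {x : EN N} {τ τ' : EN N → ℂ × ℂ} {V G V' G' : EN N → ℂ}
    (h : Ld α x τ V G) (h' : Ld α x τ' V' G') (hd : Dn X D₀ x) (hV : V x = V' x) {v w : EN N} (hv : Tan X x v) (hw : Tan X x w) :
    G x * det2 (fderiv ℂ τ x v) (fderiv ℂ τ x w) = G' x * det2 (fderiv ℂ τ' x v) (fderiv ℂ τ' x w) := by
  have hVe : ∀ᶠ y in 𝓝 x, y ∈ X → V y = V' y := by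
    have h1 := dsc_eq hΛ (f := fun y => V y - V' y) (h.V_an.continuousAt.sub h'.V_an.continuousAt) (by simp [hV])
    filter_upwards [h1, h.lift, h'.lift] with y h2 h3 h4 hy
    have h5 := Λ.sub_mem (h4 hy) (h3 hy)
    have e : u y - V' y - (u y - V y) = V y - V' y := by ring
    rw [e] at h5
    exact sub_eq_zero.1 (h2 h5)
  have hf := hd v w hv hw
  have hc : Tendsto (fun t : EN N × EN N × EN N => t.1) (𝓝 (x, v, w)) (𝓝 x) := continuousAt_fst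
  have h1 := det2_cont (v := v) (w := w) h.τ_an h.G_an
  have h2 := det2_cont (v := v) (w := w) h'.τ_an h'.G_an
  by_contra hne
  have h3 := (h1.sub h2).eventually_ne (sub_ne_zero.2 hne)
  obtain ⟨t, ht1, ht2, ht3, ht4, ht5⟩ := (hf.and_eventually (h3.and ((hc.eventually h.eq).and ((hc.eventually h'.eq).and (hc.eventually hVe))))).exists
  apply ht2
  have e1 := ht3 ht1.1 ht1.2.1 t.2.1 t.2.2 ht1.2.2.1 ht1.2.2.2
  have e2 := ht4 ht1.1 ht1.2.1 t.2.1 t.2.2 ht1.2.2.1 ht1.2.2.2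
  rw [ht5 ht1.1, e2] at e1
  show G t.1 * det2 (fderiv ℂ τ t.1 t.2.1) (fderiv ℂ τ t.1 t.2.2) - G' t.1 * det2 (fderiv ℂ τ' t.1 t.2.1) (fderiv ℂ τ' t.1 t.2.2) = 0
  rw [← e1, sub_self]

end Pool.Agent.H86.LU
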