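import Pool.Agent.H86.LU.Bx

/-!
# LU Q: the part of `D` where the residue vanishes is open and closed in `D`
-/

set_option autoImplicit false

open Topology Filter Metric

namespace Pool.Agent.H86.LU

open Pool.Agent.H36.BP (EN fs wd IsGermChart)
open Pool.Agent.H14.PP (IsCone Chart Tan CurveAt)
open Pool.Agent.H62.EF (Lat MN pr TorusMap Sec Charts DU det2)
open Pool.Agent.H62.EL (TForm Per VanZero Thin tc)
open Pool.Agent.H18.LU (OCone Dsc LogP HorAt)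

variable {N : ℕ} {X D : Set (EN N)} {Λ : AddSubgroup ℂ} {u : EN N → ℂ}

/-- the form extends near `x`, for the lift `z` -/
def Exd (α : TForm (X \ D) Λ u) (x : EN N) (z : ℂ) : Prop :=
  ∃ (τ : EN N → ℂ × ℂ) (V G : EN N → ℂ), Ld α x τ V G ∧ V x = z

/-- the part of `D` where the residue vanishes -/
def QQ (α : TForm (X \ D) Λ u) : Set (EN N) := {x | x ∈ D ∧ ∀ z, u x - z ∈ Λ → Exd α x z}

theorem Exd.smul (hX : OCone X) (hu : TorusMap X Λ u) (hs : ∀ x ∈ D, ∀ c : ℂ, c ≠ 0 → c • x ∈ D)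
    (hcl : ∀ x ∈ X, x ∉ D → ∀ᶠ y in 𝓝 x, y ∉ D) {α : TForm (X \ D) Λ u} {x : EN N} {z : ℂ} (h : Exd α x z) {c : ℂ} (hc : c ≠ 0) :
    Exd α (c • x) z := by
  obtain ⟨τ, V, G, h1, h2⟩ := h
  refine ⟨_, _, _, h1.smul hX hu hs hcl hc, ?_⟩
  show V (c⁻¹ • (c • x)) = z
  rw [smul_smul, inv_mul_cancel₀ hc, one_smul, h2]

theorem QQ_smul (hX : OCone X) (hu : TorusMap X Λ u) (hsub : D ⊆ X) (hs : ∀ x ∈ D, ∀ c : ℂ, c ≠ 0 → c • x ∈ D)
    (hcl : ∀ x ∈ X, x ∉ D → ∀ᶠ y in 𝓝 x, y ∉ D) {α : TForm (X \ D) Λ u} {x : EN N} (hx : x ∈ QQ α) {c : ℂ} (hc : c ≠ 0) :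
    c • x ∈ QQ α := by
  refine ⟨hs x hx.1 c hc, fun z hz => (hx.2 z ?_).smul hX hu hs hcl hc⟩
  have h1 := Λ.sub_mem hz (hu.smul x (hsub hx.1) c hc)
  have e : u (c • x) - z - (u (c • x) - u x) = u x - z := by ring
  rwa [e] at h1

variable {σ : ℂ × ℂ → EN N} {τ : EN N → ℂ × ℂ} {υ : ℂ × ℂ → ℂ} {r : ℝ}

theorem Bx.shift_D (b : Bx X D Λ u σ τ υ r) {p : ℂ × ℂ} (hp : p ∈ ball (0 : ℂ × ℂ) r) (hp2 : p.2 = 0) :
    ∀ᶠ q in 𝓝 (0 : ℂ × ℂ), σ (p + q) ∈ D ↔ q.2 = 0 := by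
  filter_upwards [b.near hp] with q hq
  rw [b.D_iff _ hq, Prod.snd_add, hp2, zero_add]

theorem Bx.shift_υ (b : Bx X D Λ u σ τ υ r) {p : ℂ × ℂ} (hp : p ∈ ball (0 : ℂ × ℂ) r) (l : ℂ) :
    AnalyticAt ℂ (fun q => υ (p + q) + l) 0 := by
  have h8 : AnalyticAt ℂ (fun q : ℂ × ℂ => p + q) 0 := by fun_prop
  exact (AnalyticAt.comp (g := υ) (f := fun q : ℂ × ℂ => p + q) (by rw [add_zero]; exact b.υ_an p hp) h8).add analyticAt_const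

theorem Bx.shift_lift (b : Bx X D Λ u σ τ υ r) {p : ℂ × ℂ} (hp : p ∈ ball (0 : ℂ × ℂ) r) {l : ℂ} (hl : l ∈ Λ) :
    ∀ᶠ q in 𝓝 (0 : ℂ × ℂ), u (σ (p + q)) - (υ (p + q) + l) ∈ Λ := by
  filter_upwards [b.near hp] with q hq
  have h9 := Λ.sub_mem (b.lift _ hq) hl
  have e : u (σ (p + q)) - υ (p + q) - l = u (σ (p + q)) - (υ (p + q) + l) := by ring
  rwa [e] at h9

theorem shift_an {G : ℂ × ℂ → ℂ} {p : ℂ × ℂ} (h : AnalyticAt ℂ G p) : AnalyticAt ℂ (fun q => G (p + q)) 0 := by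
  have h8 : AnalyticAt ℂ (fun q : ℂ × ℂ => p + q) 0 := by fun_prop
  exact AnalyticAt.comp (g := G) (f := fun q : ℂ × ℂ => p + q) (by rw [add_zero]; exact h) h8

theorem Bx.shift_eq (b : Bx X D Λ u σ τ υ r) {α : TForm (X \ D) Λ u} {p : ℂ × ℂ} (hp : p ∈ ball (0 : ℂ × ℂ) r) (hp2 : p.2 = 0) {l : ℂ}
    {G : ℂ × ℂ → ℂ} (hG : ∀ q ∈ ball (0 : ℂ × ℂ) r, q.2 ≠ 0 → q.2 * cf α σ (fun q => υ q + l) q = G q) :
    ∀ᶠ q in 𝓝 (0 : ℂ × ℂ), q.2 ≠ 0 → q.2 * cf α (fun q => σ (p + q)) (fun q => υ (p + q) + l) q = G (p + q) := by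
  filter_upwards [b.near hp] with q hq hq2
  have e : (p + q).2 = q.2 := by rw [Prod.snd_add, hp2, zero_add]
  have h1 := hG _ hq (by rw [e]; exact hq2)
  rw [e] at h1
  rw [← h1]
  show q.2 * α.toFun (υ (p + q) + l) (σ (p + q)) (fderiv ℂ (fun q => σ (p + q)) q (1, 0)) (fderiv ℂ (fun q => σ (p + q)) q (0, 1)) = _
  rw [fderiv_shift]
  rfl

theorem Bx.zero_of_exd (hX : OCone X) (hΛ : Dsc Λ) {α : TForm (X \ D) Λ u} (b : Bx X D Λ u σ τ υ r) {l : ℂ} (hl : l ∈ Λ)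
    {G : ℂ × ℂ → ℂ} (hGa : ∀ p ∈ ball (0 : ℂ × ℂ) r, AnalyticAt ℂ G p)
    (hG : ∀ q ∈ ball (0 : ℂ × ℂ) r, q.2 ≠ 0 → q.2 * cf α σ (fun q => υ q + l) q = G q)
    {p : ℂ × ℂ} (hp : p ∈ ball (0 : ℂ × ℂ) r) (hp2 : p.2 = 0) (h : Exd α (σ p) (υ p + l)) : ∀ᶠ s in 𝓝 p.1, G (s, 0) = 0 := by
  obtain ⟨τ', V, G', h1, h2⟩ := h
  have h3 := num_zero_of_ld (α := α) hX hΛ (b.germ p hp) (b.shift_D hp hp2) (b.shift_υ hp l) (b.shift_lift hp hl) (shift_an (hGa p hp))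
    (b.shift_eq hp hp2 hG) (τ' := τ') (V := V) (G := G') (by simp only [add_zero]; exact h1) (by simp only [add_zero]; exact h2)
  have ht : Tendsto (fun s : ℂ => s - p.1) (𝓝 p.1) (𝓝 0) := by
    have : ContinuousAt (fun s : ℂ => s - p.1) p.1 := by fun_prop
    have h7 := this.tendsto
    rwa [sub_self] at h7
  filter_upwards [ht.eventually h3] with s hs
  have e : p + ((s - p.1, 0) : ℂ × ℂ) = (s, 0) := by
    apply Prod.ext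
    · simp
    · rw [Prod.snd_add, hp2]
      simp
  rw [e] at hs
  exact hs

theorem Bx.exd_of_zero (hX : OCone X) (hu : TorusMap X Λ u) (hs : ∀ x ∈ D, ∀ c : ℂ, c ≠ 0 → c • x ∈ D)
    (hcl : ∀ x ∈ X, x ∉ D → ∀ᶠ y in 𝓝 x, y ∉ D) {α : TForm (X \ D) Λ u} (b : Bx X D Λ u σ τ υ r) {l : ℂ} (hl : l ∈ Λ)
    {G : ℂ × ℂ → ℂ} (hGa : ∀ p ∈ ball (0 : ℂ × ℂ) r, AnalyticAt ℂ G p)
    (hG : ∀ q ∈ ball (0 : ℂ × ℂ) r, q.2 ≠ 0 → q.2 * cf α σ (fun q => υ q + l) q = G q)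
    {p : ℂ × ℂ} (hp : p ∈ ball (0 : ℂ × ℂ) r) (hp2 : p.2 = 0) (h : ∀ᶠ s in 𝓝 p.1, G (s, 0) = 0) : Exd α (σ p) (υ p + l) := by
  have h3 : ∀ᶠ s in 𝓝 (0 : ℂ), G (p + ((s, 0) : ℂ × ℂ)) = 0 := by
    have ht : Tendsto (fun s : ℂ => p.1 + s) (𝓝 0) (𝓝 p.1) := by
      have : ContinuousAt (fun s : ℂ => p.1 + s) 0 := by fun_prop
      have h7 := this.tendsto
      rwa [add_zero] at h7
    filter_upwards [ht.eventually h] with s hs
    have e : p + ((s, 0) : ℂ × ℂ) = (p.1 + s, 0) := by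
      apply Prod.ext
      · simp
      · rw [Prod.snd_add, hp2]
        simp
    rw [e]
    exact hs
  obtain ⟨g, hg, hge⟩ := coef_of_num_zero (α := α) (υ := fun q => υ (p + q) + l) (b.shift_D hp hp2) (shift_an (hGa p hp)) (b.shift_eq hp hp2 hG) h3
  have h4 := ld_of_germ hX hu hs hcl α (b.germ p hp) (b.shift_υ hp l) (b.shift_lift hp hl) hg hge
  simp only [add_zero] at h4
  refine ⟨_, _, _, h4, ?_⟩
  have h5 : τ (σ p) - p = 0 := by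
    have h6 := (b.germ p hp).left.self_of_nhds
    simp only [add_zero] at h6
    exact h6
  show υ (p + (τ (σ p) - p)) + l = υ p + l
  rw [h5, add_zero]

/-- points of `D` near the centre of the chart -/
theorem Bx.cover (hsD : ∀ x ∈ D, ∀ c : ℂ, c ≠ 0 → c • x ∈ D) (hsub : D ⊆ X) (b : Bx X D Λ u σ τ υ r) :
    ∀ᶠ y in 𝓝 (σ 0), y ∈ D → ∃ (c s : ℂ), c ≠ 0 ∧ ‖s‖ < r ∧ y = c • σ (s, 0) ∧ (τ y = (s, 0)) := by
  have h0 := b.germ 0 (mem_ball_self b.pos)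
  have hr := h0.right
  have hτ0 : τ (σ 0) = 0 := by
    have h6 := h0.left.self_of_nhds
    simp only [add_zero, sub_zero] at h6
    exact h6
  have hτa : AnalyticAt ℂ τ (σ 0) := by
    have h6 := h0.τ_an
    simp only [add_zero, sub_zero] at h6
    exact h6
  have hτc : Tendsto τ (𝓝 (σ 0)) (𝓝 0) := by
    have := hτa.continuousAt.tendsto
    rwa [hτ0] at this
  simp only [add_zero, zero_add, sub_zero] at hr
  filter_upwards [hr, hτc.eventually (isOpen_ball.mem_nhds (mem_ball_self b.pos))] with y h1 h2 hy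
  obtain ⟨c, hc, hyc⟩ := h1 (hsub hy)
  have h3 : σ (τ y) ∈ D := by
    have h4 := hsD y hy c⁻¹ (inv_ne_zero hc)
    rw [hyc, smul_smul, inv_mul_cancel₀ hc, one_smul] at h4
    exact h4
  have h4 := (b.D_iff _ h2).1 h3
  have h5 : τ y = ((τ y).1, 0) := Prod.ext rfl h4
  refine ⟨c, (τ y).1, hc, ?_, ?_, h5⟩
  · have h6 : τ y ∈ ball (0 : ℂ × ℂ) r := h2
    rw [mem_ball_zero_iff] at h6
    exact (norm_fst_le _).trans_lt h6
  · rw [← h5]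
    exact hyc

theorem mem_ball_s0 {s : ℂ} (hs : ‖s‖ < r) : ((s, 0) : ℂ × ℂ) ∈ ball (0 : ℂ × ℂ) r := by
  rw [mem_ball_zero_iff, Prod.norm_def]
  simp only [norm_zero]
  exact max_lt hs ((norm_nonneg s).trans_lt hs)

theorem slice_an {G : ℂ × ℂ → ℂ} (hGa : ∀ p ∈ ball (0 : ℂ × ℂ) r, AnalyticAt ℂ G p) {s : ℂ} (hs : ‖s‖ < r) :
    AnalyticAt ℂ (fun s : ℂ => G (s, 0)) s := by
  have h1 : AnalyticAt ℂ (fun s : ℂ => ((s, 0) : ℂ × ℂ)) s := analyticAt_id.prod analyticAt_const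
  exact AnalyticAt.comp (g := G) (f := fun s : ℂ => ((s, 0) : ℂ × ℂ)) (hGa _ (mem_ball_s0 hs)) h1

/-- a point of `D` with a chart on a bidisc -/
theorem exists_bx_at {x : EN N} {b : ℂ} {i : ℕ} (h : HorAt X Λ u D x b i) :
    ∃ (σ : ℂ × ℂ → EN N) (τ : EN N → ℂ × ℂ) (r : ℝ), Bx X D Λ u σ τ (fun p => b + p.1 ^ i) r ∧ σ 0 = x ∧ IsGermChart X σ τ := by
  obtain ⟨σ, τ, h1, h2, h3, h4⟩ := h
  obtain ⟨r, hr⟩ := exists_bx h1 h4 (υ := fun p => b + p.1 ^ i) (analyticAt_const.add (analyticAt_fst.pow i)) h3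
  exact ⟨σ, τ, r, hr, h2, h1⟩

theorem QQ_open (hX : OCone X) (hu : TorusMap X Λ u) (hΛ : Dsc Λ) (hsub : D ⊆ X) (hs : ∀ x ∈ D, ∀ c : ℂ, c ≠ 0 → c • x ∈ D)
    (hcl : ∀ x ∈ X, x ∉ D → ∀ᶠ y in 𝓝 x, y ∉ D) (hh : ∀ x ∈ D, ∃ (b : ℂ) (i : ℕ), HorAt X Λ u D x b i) {α : TForm (X \ D) Λ u}
    (hlog : LogP α) {x : EN N} (hx : x ∈ QQ α) : ∀ᶠ y in 𝓝 x, y ∈ D → y ∈ QQ α := by
  obtain ⟨b, i, hb⟩ := hh x hx.1
  obtain ⟨σ, τ, r, B, h2, -⟩ := exists_bx_at hb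
  have hcov := B.cover hs hsub
  rw [h2] at hcov
  filter_upwards [hcov] with y hy hyD
  obtain ⟨c, s, hc, hsr, hyc, -⟩ := hy hyD
  rw [hyc]
  refine QQ_smul hX hu hsub hs hcl ?_ hc
  have hm := mem_ball_s0 hsr
  refine ⟨(B.D_iff _ hm).2 rfl, fun z hz => ?_⟩
  set l : ℂ := z - (b + s ^ i) with hl
  have hlm : l ∈ Λ := by
    have h3 := Λ.sub_mem (B.lift _ hm) hz
    have e : u (σ (s, 0)) - (b + s ^ i) - (u (σ (s, 0)) - z) = l := by rw [hl]; ring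
    rwa [e] at h3
  obtain ⟨G, hGa, hG⟩ := B.num hcl hlog hlm
  have hz0 := hx.2 (b + (0 : ℂ) ^ i + l) (by
    have h3 := Λ.sub_mem (B.lift 0 (mem_ball_self B.pos)) hlm
    rw [h2] at h3
    have e : u x - (b + (0 : ℂ × ℂ).1 ^ i) - l = u x - (b + (0 : ℂ) ^ i + l) := by simp; ring
    rwa [e] at h3)
  have h3 := B.zero_of_exd hX hΛ hlm hGa hG (mem_ball_self B.pos) rfl (by rw [h2]; exact hz0)
  have h4 : ∀ s' : ℂ, ‖s'‖ < r → G (s', 0) = 0 := by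
    have ha : AnalyticOnNhd ℂ (fun s : ℂ => G (s, 0)) (ball 0 r) := fun s' hs' => slice_an hGa (by simpa using hs')
    have h5 := ha.eqOn_zero_of_preconnected_of_eventuallyEq_zero (convex_ball (0 : ℂ) r).isPreconnected (mem_ball_self B.pos) h3
    intro s' hs'
    exact h5 (by simpa using hs')
  have h5 : ∀ᶠ s' in 𝓝 s, G (s', 0) = 0 := by
    have h6 : ∀ᶠ s' in 𝓝 s, ‖s'‖ < r := continuous_norm.continuousAt.eventually_lt_const hsr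
    exact h6.mono h4
  have h6 := B.exd_of_zero hX hu hs hcl hlm hGa hG hm rfl h5
  have e : b + ((s, 0) : ℂ × ℂ).1 ^ i + l = z := by rw [hl]; ring
  rwa [e] at h6

theorem QQ_closed (hX : OCone X) (hu : TorusMap X Λ u) (hΛ : Dsc Λ) (hsub : D ⊆ X) (hs : ∀ x ∈ D, ∀ c : ℂ, c ≠ 0 → c • x ∈ D)
    (hcl : ∀ x ∈ X, x ∉ D → ∀ᶠ y in 𝓝 x, y ∉ D) (hh : ∀ x ∈ D, ∃ (b : ℂ) (i : ℕ), HorAt X Λ u D x b i) {α : TForm (X \ D) Λ u}
    (hlog : LogP α) {x : EN N} (hxD : x ∈ D) (hx : x ∉ QQ α) : ∀ᶠ y in 𝓝 x, y ∈ D → y ∉ QQ α := by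
  obtain ⟨b, i, hb⟩ := hh x hxD
  obtain ⟨σ, τ, r, B, h2, -⟩ := exists_bx_at hb
  have hcov := B.cover hs hsub
  rw [h2] at hcov
  have h3 : ∃ z, u x - z ∈ Λ ∧ ¬ Exd α x z := by
    by_contra h4
    push Not at h4
    exact hx ⟨hxD, fun z hz => h4 z hz⟩
  obtain ⟨z, hz, hne⟩ := h3
  set l : ℂ := z - (b + (0 : ℂ) ^ i) with hl
  have hlm : l ∈ Λ := by
    have h3 := B.lift 0 (mem_ball_self B.pos)
    rw [h2] at h3
    have h4 := Λ.sub_mem h3 hz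
    have e : u x - (b + (0 : ℂ × ℂ).1 ^ i) - (u x - z) = l := by rw [hl]; simp
    rwa [e] at h4
  obtain ⟨G, hGa, hG⟩ := B.num hcl hlog hlm
  have hG0 : AnalyticAt ℂ (fun s : ℂ => G (s, 0)) 0 := slice_an hGa (by rw [norm_zero]; exact B.pos)
  have h5 : ∀ᶠ s in 𝓝[≠] (0 : ℂ), G (s, 0) ≠ 0 := by
    rcases hG0.eventually_eq_zero_or_eventually_ne_zero with h6 | h6
    · exfalso
      apply hne
      have h7 := B.exd_of_zero hX hu hs hcl hlm hGa hG (mem_ball_self B.pos) rfl h6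
      rw [h2] at h7
      have e : b + (0 : ℂ × ℂ).1 ^ i + l = z := by rw [hl]; simp
      rwa [e] at h7
    · exact h6
  have hτ0 : τ (σ 0) = 0 := by
    have h6 := (B.germ 0 (mem_ball_self B.pos)).left.self_of_nhds
    simp only [add_zero, sub_zero] at h6
    exact h6
  have hτa : AnalyticAt ℂ τ (σ 0) := by
    have h6 := (B.germ 0 (mem_ball_self B.pos)).τ_an
    simp only [add_zero, sub_zero] at h6
    exact h6
  have hτc : Tendsto (fun y => (τ y).1) (𝓝 x) (𝓝 0) := by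
    have h6 : ContinuousAt (fun y => (τ y).1) (σ 0) := hτa.continuousAt.fst
    have h7 := h6.tendsto
    rw [hτ0, h2] at h7
    exact h7
  rw [eventually_nhdsWithin_iff] at h5
  filter_upwards [hcov, hτc.eventually h5] with y hy hy5 hyD hyQ
  obtain ⟨c, s, hc, hsr, hyc, hτy⟩ := hy hyD
  rw [hτy] at hy5
  have hm := mem_ball_s0 hsr
  have h6 : σ (s, 0) ∈ QQ α := by
    have h7 := QQ_smul hX hu hsub hs hcl hyQ (inv_ne_zero hc)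
    rwa [hyc, smul_smul, inv_mul_cancel₀ hc, one_smul] at h7
  by_cases hs0 : s = 0
  · apply hx
    rw [← h2]
    rw [hs0] at h6
    exact h6
  · have h7 := h6.2 (b + s ^ i + l) (by
      have h8 := Λ.sub_mem (B.lift _ hm) hlm
      have e : u (σ (s, 0)) - (b + ((s, 0) : ℂ × ℂ).1 ^ i) - l = u (σ (s, 0)) - (b + s ^ i + l) := by ring
      rwa [e] at h8)
    have h8 := B.zero_of_exd hX hΛ hlm hGa hG hm rfl h7
    exact hy5 hs0 h8.self_of_nhds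

end Pool.Agent.H86.LU
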