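import Pool.Agent.H86.LU.Q

/-!
# LU Rs: residues
-/

set_option autoImplicit false

open Topology Filter Metric

namespace Pool.Agent.H86.LU

open Pool.Agent.H36.BP (EN fs wd IsGermChart)
open Pool.Agent.H14.PP (IsCone Chart Tan CurveAt)
open Pool.Agent.H62.EF (Lat MN pr TorusMap Sec Charts DU det2)
open Pool.Agent.H62.EL (TForm Per VanZero Thin tc)
open Pool.Agent.H18.LU (OCone Dsc LogP HorAt)

variable {N : ℕ} {X D : Set (EN N)} {Λ : AddSubgroup ℂ} {u : EN N → ℂ}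

theorem germ_lift (hu : TorusMap X Λ u) {σ : ℂ × ℂ → EN N} {τ : EN N → ℂ × ℂ} (h : IsGermChart X σ τ) {υ : ℂ × ℂ → ℂ}
    (hl : ∀ᶠ p in 𝓝 (0 : ℂ × ℂ), u (σ p) - υ p ∈ Λ) : ∀ᶠ y in 𝓝 (σ 0), y ∈ X → u y - υ (τ y) ∈ Λ := by
  have hτ0 : τ (σ 0) = 0 := h.left.self_of_nhds
  have hτc : Tendsto τ (𝓝 (σ 0)) (𝓝 0) := by
    have := h.τ_an.continuousAt.tendsto
    rwa [hτ0] at this
  filter_upwards [h.right, hτc.eventually hl, hτc.eventually h.σ_mem] with y h1 h2 h3 hy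
  obtain ⟨c, hc, hyc⟩ := h1 hy
  have h4 := hu.smul _ h3 c hc
  rw [← hyc] at h4
  have h5 := Λ.add_mem h4 h2
  have e : u y - u (σ (τ y)) + (u (σ (τ y)) - υ (τ y)) = u y - υ (τ y) := by ring
  rwa [e] at h5

/-- the form near the centre of a germ chart -/
theorem germ_form (hX : OCone X) (hu : TorusMap X Λ u) (hs : ∀ x ∈ D, ∀ c : ℂ, c ≠ 0 → c • x ∈ D)
    (hcl : ∀ x ∈ X, x ∉ D → ∀ᶠ y in 𝓝 x, y ∉ D) (α : TForm (X \ D) Λ u) {σ : ℂ × ℂ → EN N} {τ : EN N → ℂ × ℂ}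
    (h : IsGermChart X σ τ) {υ : ℂ × ℂ → ℂ} (hl : ∀ᶠ p in 𝓝 (0 : ℂ × ℂ), u (σ p) - υ p ∈ Λ) :
    ∀ᶠ y in 𝓝 (σ 0), y ∈ X → y ∉ D → σ (τ y) ∉ D ∧ ∀ v w, Tan X y v → Tan X y w →
      α.toFun (υ (τ y)) y v w = cf α σ υ (τ y) * det2 (fderiv ℂ τ y v) (fderiv ℂ τ y w) := by
  have hτ0 : τ (σ 0) = 0 := h.left.self_of_nhds
  have hτc : Tendsto τ (𝓝 (σ 0)) (𝓝 0) := by
    have := h.τ_an.continuousAt.tendsto
    rwa [hτ0] at this
  have hY := ocone_sdiff hX hs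
  filter_upwards [germ_tan hX h, germ_lift hu h hl, hτc.eventually h.σ_mem.eventually_nhds, hτc.eventually h.σ_an.eventually_analyticAt,
    hτc.eventually hl] with y h1 h2 h4 h5 h6 hy hy0
  obtain ⟨c, hc, hyc, h7⟩ := h1 hy
  set p : ℂ × ℂ := τ y with hp
  have hσX : σ p ∈ X := h4.self_of_nhds
  have hσD : σ p ∉ D := fun h8 => hy0 (hyc ▸ hs _ h8 c hc)
  refine ⟨hσD, fun v w hv hw => ?_⟩
  obtain ⟨b₁, hb₁⟩ := h7 v hv
  obtain ⟨b₂, hb₂⟩ := h7 w hw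
  have hmem : ∀ᶠ q in 𝓝 p, σ q ∈ X \ D := by
    filter_upwards [h4, h5.continuousAt.eventually (hcl _ hσX hσD)] with q h9 h10
    exact ⟨h9, h10⟩
  have htA : ∀ A : ℂ × ℂ, Tan (X \ D) (σ p) (fderiv ℂ σ p A) := by
    intro A
    have := tan_param hY h5 hmem A 0
    rwa [zero_smul, add_zero] at this
  have hu1 : u y - υ p ∈ Λ := h2 hy
  have e1 := α.add_smul (υ p) y ⟨hy, hy0⟩ hu1 (c • fderiv ℂ σ p (fderiv ℂ τ y v)) (c • fderiv ℂ σ p (fderiv ℂ τ y w))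
    (by have := tan_smul hY (htA (fderiv ℂ τ y v)) hc; rwa [← hyc] at this)
    (by have := tan_smul hY (htA (fderiv ℂ τ y w)) hc; rwa [← hyc] at this) b₁ b₂
  rw [← hb₁, ← hb₂] at e1
  have e2 := α.scale (υ p) (σ p) ⟨hσX, hσD⟩ h6 (fderiv ℂ σ p (fderiv ℂ τ y v)) (fderiv ℂ σ p (fderiv ℂ τ y w))
    (htA _) (htA _) c hc
  rw [← hyc] at e2
  have e3 := α.det (υ p) (σ p) ⟨hσX, hσD⟩ h6 _ _ (htA (1, 0)) (htA (0, 1)) (fderiv ℂ τ y v).1 (fderiv ℂ τ y v).2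
    (fderiv ℂ τ y w).1 (fderiv ℂ τ y w).2
  rw [← pair_eq, ← pair_eq] at e3
  rw [e1, e2, e3]
  show _ = cf α σ υ p * ((fderiv ℂ τ y v).1 * (fderiv ℂ τ y w).2 - (fderiv ℂ τ y v).2 * (fderiv ℂ τ y w).1)
  show _ * α.toFun (υ p) (σ p) (fderiv ℂ σ p (1, 0)) (fderiv ℂ σ p (0, 1)) = _
  rw [mul_comm]
  rfl

/-- the residue of the form at the point `x` of `D`, for the lift `z` -/
def RA (α : TForm (X \ D) Λ u) (x : EN N) (z ρ : ℂ) : Prop :=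
  ∃ (σ : ℂ × ℂ → EN N) (τ : EN N → ℂ × ℂ) (g : ℂ × ℂ → ℂ), IsGermChart X σ τ ∧ σ 0 = x ∧ (∀ᶠ p in 𝓝 (0 : ℂ × ℂ), σ p ∈ D ↔ p.2 = 0) ∧
    (∀ᶠ p in 𝓝 (0 : ℂ × ℂ), u (σ p) - (z + p.1) ∈ Λ) ∧ AnalyticAt ℂ g 0 ∧
    (∀ᶠ p in 𝓝 (0 : ℂ × ℂ), p.2 ≠ 0 → p.2 * cf α σ (fun p => z + p.1) p = g p) ∧ g 0 = ρ

theorem RA.unique (hX : OCone X) (hu : TorusMap X Λ u) (hΛ : Dsc Λ) (hs : ∀ x ∈ D, ∀ c : ℂ, c ≠ 0 → c • x ∈ D)
    (hcl : ∀ x ∈ X, x ∉ D → ∀ᶠ y in 𝓝 x, y ∉ D) {α : TForm (X \ D) Λ u} {x : EN N} {z ρ ρ' : ℂ} (h : RA α x z ρ) (h' : RA α x z ρ') :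
    ρ = ρ' := by
  obtain ⟨σ, τ, g, hc, h0, hD, hl, hg, hge, hρ⟩ := h
  obtain ⟨σ', τ', g', hc', h0', hD', hl', hg', hge', hρ'⟩ := h'
  have hxX : x ∈ X := by rw [← h0]; exact hc.σ_mem.self_of_nhds
  have hτ0 : τ x = 0 := by rw [← h0]; exact hc.left.self_of_nhds
  have hτ0' : τ' x = 0 := by rw [← h0']; exact hc'.left.self_of_nhds
  have hτa' : AnalyticAt ℂ τ' (σ 0) := by
    have := hc'.τ_an
    rwa [h0', ← h0] at this
  set θ : ℂ × ℂ → ℂ × ℂ := fun p => τ' (σ p) with hθ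
  have hθa : AnalyticAt ℂ θ 0 := AnalyticAt.comp (g := τ') (f := σ) hτa' hc.σ_an
  have hθ0 : θ 0 = 0 := by show τ' (σ 0) = 0; rw [h0, hτ0']
  have hθc : Tendsto θ (𝓝 0) (𝓝 0) := by
    have := hθa.continuousAt.tendsto
    rwa [hθ0] at this
  have hσc : Tendsto σ (𝓝 0) (𝓝 x) := by
    have := hc.σ_an.continuousAt.tendsto
    rwa [h0] at this
  -- the first coordinates agree
  have hlift' := germ_lift hu hc' hl'
  rw [h0'] at hlift'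
  have hfst : ∀ᶠ p in 𝓝 (0 : ℂ × ℂ), (θ p).1 = p.1 := by
    have h3 := dsc_eq hΛ (f := fun p : ℂ × ℂ => (θ p).1 - p.1) (hθa.continuousAt.fst.sub continuousAt_fst)
      (by show (θ 0).1 - (0 : ℂ × ℂ).1 = 0; rw [hθ0, sub_self])
    filter_upwards [h3, hl, hσc.eventually hlift', hc.σ_mem] with p h4 h5 h6 h7
    have h8 := Λ.sub_mem h5 (h6 h7)
    have e : u (σ p) - (z + p.1) - (u (σ p) - (z + (τ' (σ p)).1)) = (θ p).1 - p.1 := by show _ = (τ' (σ p)).1 - p.1; ring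
    rw [e] at h8
    exact sub_eq_zero.1 (h4 h8)
  set J : ℂ × ℂ → ℂ := fun p => det2 (fderiv ℂ θ p (1, 0)) (fderiv ℂ θ p (0, 1)) with hJ
  have hform := germ_form hX hu hs hcl α hc' hl'
  rw [h0'] at hform
  have key : ∀ᶠ p in 𝓝 (0 : ℂ × ℂ), p.2 ≠ 0 → (θ p).2 * g p = p.2 * (g' (θ p) * J p) := by
    have hτaE : ∀ᶠ y in 𝓝 x, AnalyticAt ℂ τ' y := by
      have := hc'.τ_an.eventually_analyticAt
      rwa [h0'] at this
    filter_upwards [hge, hθc.eventually hge', hfst, hσc.eventually hform, hD, hc.σ_mem.eventually_nhds, hc.σ_an.eventually_analyticAt,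
      hσc.eventually hτaE, hθc.eventually hD'] with p h1 h2 h3 h4 h5 h6 h7 h8 h9 hp
    have hmX : σ p ∈ X := h6.self_of_nhds
    have hmD : σ p ∉ D := fun h10 => hp (h5.1 h10)
    obtain ⟨h10, h11⟩ := h4 hmX hmD
    have hθ2 : (θ p).2 ≠ 0 := fun h12 => h10 (h9.2 h12)
    have ht : ∀ e : ℂ × ℂ, Tan X (σ p) (fderiv ℂ σ p e) := by
      intro e
      have := tan_param hX h7 h6 e 0
      rwa [zero_smul, add_zero] at this
    have h13 := h11 _ _ (ht (1, 0)) (ht (0, 1))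
    have h14 : ∀ e : ℂ × ℂ, fderiv ℂ θ p e = fderiv ℂ τ' (σ p) (fderiv ℂ σ p e) := by
      intro e
      have h15 : HasFDerivAt τ' (fderiv ℂ τ' (σ p)) (σ p) := h8.differentiableAt.hasFDerivAt
      have h16 : HasFDerivAt σ (fderiv ℂ σ p) p := h7.differentiableAt.hasFDerivAt
      have h17 : fderiv ℂ θ p = (fderiv ℂ τ' (σ p)).comp (fderiv ℂ σ p) := (h15.comp p h16).fderiv
      rw [h17]
      rfl
    have h18 : cf α σ (fun p => z + p.1) p = cf α σ' (fun p => z + p.1) (θ p) * J p := by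
      show α.toFun (z + p.1) (σ p) (fderiv ℂ σ p (1, 0)) (fderiv ℂ σ p (0, 1)) = _ * det2 (fderiv ℂ θ p (1, 0)) (fderiv ℂ θ p (0, 1))
      rw [h14, h14, ← h13]
      show _ = α.toFun (z + (θ p).1) _ _ _
      rw [h3]
    rw [← h1 hp, ← h2 hθ2, h18]
    ring
  -- derivatives at `0`
  have hJc : ContinuousAt J 0 := by
    have h1 : ContinuousAt (fderiv ℂ θ) 0 := hθa.fderiv.continuousAt
    have h2 : ContinuousAt (fun p => fderiv ℂ θ p (1, 0)) 0 := h1.clm_apply continuousAt_const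
    have h3 : ContinuousAt (fun p => fderiv ℂ θ p (0, 1)) 0 := h1.clm_apply continuousAt_const
    show ContinuousAt (fun p => (fderiv ℂ θ p (1, 0)).1 * (fderiv ℂ θ p (0, 1)).2 - (fderiv ℂ θ p (1, 0)).2 * (fderiv ℂ θ p (0, 1)).1) 0
    exact ((h2.fst).mul h3.snd).sub (h2.snd.mul h3.fst)
  have hf1 : ∀ e : ℂ × ℂ, (fderiv ℂ θ 0 e).1 = e.1 := by
    intro e
    have h1 : HasFDerivAt (fun p => (θ p).1) ((ContinuousLinearMap.fst ℂ ℂ ℂ).comp (fderiv ℂ θ 0)) 0 :=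
      hθa.differentiableAt.hasFDerivAt.fst
    have h2 : HasFDerivAt (fun p : ℂ × ℂ => p.1) (ContinuousLinearMap.fst ℂ ℂ ℂ) 0 := hasFDerivAt_fst
    have h3 : HasFDerivAt (fun p => (θ p).1) (ContinuousLinearMap.fst ℂ ℂ ℂ) 0 := h2.congr_of_eventuallyEq hfst
    have h4 := h1.unique h3
    have h5 := congrArg (fun L : (ℂ × ℂ) →L[ℂ] ℂ => L e) h4
    exact h5
  set e : ℂ := (fderiv ℂ θ 0 (0, 1)).2 with he
  have hJ0 : J 0 = e := by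
    show (fderiv ℂ θ 0 (1, 0)).1 * (fderiv ℂ θ 0 (0, 1)).2 - (fderiv ℂ θ 0 (1, 0)).2 * (fderiv ℂ θ 0 (0, 1)).1 = e
    rw [hf1, hf1, he]
    simp
  have he0 : e ≠ 0 := by
    intro he0
    have h1 : fderiv ℂ θ 0 (0, 1) = 0 := Prod.ext (by rw [hf1]; rfl) he0
    have h2 : fderiv ℂ θ 0 = (fderiv ℂ τ' (σ 0)).comp (fderiv ℂ σ 0) :=
      (HasFDerivAt.comp (g := τ') (f := σ) (0 : ℂ × ℂ) hτa'.differentiableAt.hasFDerivAt hc.σ_an.differentiableAt.hasFDerivAt).fderiv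
    have h3 : fderiv ℂ τ' x (fderiv ℂ σ 0 (0, 1)) = 0 := by
      rw [h2, h0] at h1
      exact h1
    have h4 := (germ_tan hX hc').self_of_nhds (by rw [h0']; exact hxX)
    rw [h0'] at h4
    obtain ⟨c, -, -, h5⟩ := h4
    have ht : Tan X x (fderiv ℂ σ 0 (0, 1)) := by
      have := tan_param hX hc.σ_an hc.σ_mem (0, 1) 0
      rwa [zero_smul, add_zero, h0] at this
    obtain ⟨b, hb⟩ := h5 _ ht
    rw [h3, map_zero, smul_zero, zero_add] at hb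
    have h6 : fderiv ℂ τ x (fderiv ℂ σ 0 (0, 1)) = (0, 1) := by
      have hτa : AnalyticAt ℂ τ (σ 0) := hc.τ_an
      have h7 : HasFDerivAt (fun p => τ (σ p)) ((fderiv ℂ τ (σ 0)).comp (fderiv ℂ σ 0)) 0 :=
        HasFDerivAt.comp (g := τ) (f := σ) (0 : ℂ × ℂ) hτa.differentiableAt.hasFDerivAt hc.σ_an.differentiableAt.hasFDerivAt
      have h8 : HasFDerivAt (fun p => τ (σ p)) (ContinuousLinearMap.id ℂ (ℂ × ℂ)) 0 := (hasFDerivAt_id 0).congr_of_eventuallyEq hc.left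
      have h9 := congrArg (fun L : (ℂ × ℂ) →L[ℂ] (ℂ × ℂ) => L (0, 1)) (h7.unique h8)
      rw [h0] at h9
      exact h9
    rw [hb, map_smul] at h6
    have h7 := (germ_rad hc).self_of_nhds
    rw [h0] at h7
    rw [h7, smul_zero] at h6
    have h8 := congrArg Prod.snd h6
    exact zero_ne_one h8
  -- the limit
  have hct : Tendsto (fun t : ℂ => ((0, t) : ℂ × ℂ)) (𝓝 0) (𝓝 0) := by
    have h1 : Continuous fun t : ℂ => ((0, t) : ℂ × ℂ) := by fun_prop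
    exact h1.tendsto' 0 0 rfl
  have hq : Tendsto (fun t : ℂ => (θ (0, t)).2 / t) (𝓝[≠] 0) (𝓝 e) := by
    have h1 : HasDerivAt (fun t : ℂ => ((0, t) : ℂ × ℂ)) (0, 1) 0 := (hasDerivAt_const (0 : ℂ) (0 : ℂ)).prodMk (hasDerivAt_id 0)
    have h2 : HasFDerivAt θ (fderiv ℂ θ 0) ((0, 0) : ℂ × ℂ) := hθa.differentiableAt.hasFDerivAt
    have h3 : HasDerivAt (fun t : ℂ => θ (0, t)) (fderiv ℂ θ 0 (0, 1)) 0 := h2.comp_hasDerivAt (0 : ℂ) h1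
    have h4 : HasDerivAt (fun t : ℂ => (θ (0, t)).2) e 0 := h3.snd
    have h5 := h4.tendsto_slope_zero
    refine h5.congr' ?_
    filter_upwards with t
    have h6 : (θ (0, (0 : ℂ))).2 = 0 := by
      show (θ 0).2 = 0
      rw [hθ0]
      rfl
    rw [h6, zero_add, sub_zero, smul_eq_mul, mul_comm, div_eq_mul_inv]
  have hL1 : Tendsto (fun t : ℂ => (θ (0, t)).2 / t * g (0, t)) (𝓝[≠] 0) (𝓝 (e * g 0)) := by
    have h1 : Tendsto (fun t : ℂ => g (0, t)) (𝓝 0) (𝓝 (g 0)) := hg.continuousAt.tendsto.comp hct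
    exact hq.mul (h1.mono_left nhdsWithin_le_nhds)
  have hL2 : Tendsto (fun t : ℂ => g' (θ (0, t)) * J (0, t)) (𝓝[≠] 0) (𝓝 (g' 0 * e)) := by
    have h1 : Tendsto (fun t : ℂ => g' (θ (0, t))) (𝓝 0) (𝓝 (g' 0)) := hg'.continuousAt.tendsto.comp (hθc.comp hct)
    have h2 : Tendsto (fun t : ℂ => J (0, t)) (𝓝 0) (𝓝 e) := by
      rw [← hJ0]
      exact hJc.tendsto.comp hct
    exact (h1.mul h2).mono_left nhdsWithin_le_nhds
  have h5 : e * g 0 = g' 0 * e := by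
    refine tendsto_nhds_unique (hL1.congr' ?_) hL2
    filter_upwards [nhdsWithin_le_nhds (hct.eventually key), self_mem_nhdsWithin] with t h6 h7
    have h8 : t ≠ 0 := h7
    have h9 := h6 h8
    have h10 : (θ (0, t)).2 * g (0, t) = t * (g' (θ (0, t)) * J (0, t)) := h9
    rw [div_mul_eq_mul_div, h10, mul_div_cancel_left₀ _ h8]
  rw [← hρ, ← hρ']
  have h6 : e * g 0 = e * g' 0 := by rw [h5, mul_comm]
  exact mul_left_cancel₀ he0 h6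

end Pool.Agent.H86.LU
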