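import Pool.Agent.H86.LU.Rs
import Pool.Agent.H18.LU.BaseDefs

/-!
# LU Sc: residues along sections in `D`
-/

set_option autoImplicit false

open Topology Filter Metric

namespace Pool.Agent.H86.LU

open Pool.Agent.H36.BP (EN fs wd IsGermChart)
open Pool.Agent.H14.PP (IsCone Chart Tan CurveAt)
open Pool.Agent.H62.EF (Lat MN pr TorusMap Sec Charts DU det2)
open Pool.Agent.H62.EL (TForm Per VanZero Thin tc)
open Pool.Agent.H18.LU (OCone Dsc LogP HorAt ResBd)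

variable {N : ℕ} {X D : Set (EN N)} {Λ : AddSubgroup ℂ} {u : EN N → ℂ}

/-- the coefficient does not change when the chart is multiplied by a constant -/
theorem cf_smul (hX : OCone X) (hs : ∀ x ∈ D, ∀ c : ℂ, c ≠ 0 → c • x ∈ D) (hcl : ∀ x ∈ X, x ∉ D → ∀ᶠ y in 𝓝 x, y ∉ D)
    (α : TForm (X \ D) Λ u) {σ : ℂ × ℂ → EN N} {υ : ℂ × ℂ → ℂ} {p : ℂ × ℂ} (hσ : AnalyticAt ℂ σ p) (hm : ∀ᶠ q in 𝓝 p, σ q ∈ X)
    (hD : σ p ∉ D) (hl : u (σ p) - υ p ∈ Λ) {c : ℂ} (hc : c ≠ 0) : cf α (fun q => c • σ q) υ p = cf α σ υ p := by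
  have hY := ocone_sdiff hX hs
  have hmX : σ p ∈ X := hm.self_of_nhds
  have hmem : ∀ᶠ q in 𝓝 p, σ q ∈ X \ D := by
    filter_upwards [hm, hσ.continuousAt.eventually (hcl _ hmX hD)] with q h9 h10
    exact ⟨h9, h10⟩
  have htA : ∀ A : ℂ × ℂ, Tan (X \ D) (σ p) (fderiv ℂ σ p A) := by
    intro A
    have := tan_param hY hσ hmem A 0
    rwa [zero_smul, add_zero] at this
  show α.toFun (υ p) (c • σ p) (fderiv ℂ (fun q => c • σ q) p (1, 0)) (fderiv ℂ (fun q => c • σ q) p (0, 1)) = _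
  rw [fderiv_csmul hσ, fderiv_csmul hσ]
  exact α.scale (υ p) (σ p) ⟨hmX, hD⟩ hl _ _ (htA (1, 0)) (htA (0, 1)) c hc

theorem RA.smul (hX : OCone X) (hu : TorusMap X Λ u) (hs : ∀ x ∈ D, ∀ c : ℂ, c ≠ 0 → c • x ∈ D)
    (hcl : ∀ x ∈ X, x ∉ D → ∀ᶠ y in 𝓝 x, y ∉ D) {α : TForm (X \ D) Λ u} {x : EN N} {z ρ : ℂ} (h : RA α x z ρ) {c : ℂ} (hc : c ≠ 0) :
    RA α (c • x) z ρ := by
  obtain ⟨σ, τ, g, h1, h0, hD, hl, hg, hge, hρ⟩ := h
  refine ⟨fun q => c • σ q, fun y => τ (c⁻¹ • y), g, germ_smul hX h1 hc, by rw [← h0], ?_, ?_, hg, ?_, hρ⟩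
  · filter_upwards [hD] with p hp
    rw [← hp]
    constructor
    · intro h2
      have h3 := hs _ h2 c⁻¹ (inv_ne_zero hc)
      rwa [smul_smul, inv_mul_cancel₀ hc, one_smul] at h3
    · intro h2
      exact hs _ h2 c hc
  · filter_upwards [hl, h1.σ_mem] with p h2 h3
    have h4 := Λ.add_mem (hu.smul _ h3 c hc) h2
    have e : u (c • σ p) - u (σ p) + (u (σ p) - (z + p.1)) = u (c • σ p) - (z + p.1) := by ring
    rwa [e] at h4
  · filter_upwards [hge, h1.σ_an.eventually_analyticAt, h1.σ_mem.eventually_nhds, hD, hl] with p h2 h3 h4 h5 h6 h7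
    rw [cf_smul hX hs hcl α h3 h4 (fun h8 => h7 (h5.1 h8)) h6 hc]
    exact h2 h7

/-- the residues in a chart with `u = z₀ + s` -/
theorem RA.of_bx {α : TForm (X \ D) Λ u} {σ : ℂ × ℂ → EN N} {τ : EN N → ℂ × ℂ} {z₀ : ℂ} {r : ℝ}
    (b : Bx X D Λ u σ τ (fun p => z₀ + p.1) r) {l : ℂ} (hl : l ∈ Λ) {G : ℂ × ℂ → ℂ} (hGa : ∀ p ∈ ball (0 : ℂ × ℂ) r, AnalyticAt ℂ G p)
    (hG : ∀ q ∈ ball (0 : ℂ × ℂ) r, q.2 ≠ 0 → q.2 * cf α σ (fun q => z₀ + q.1 + l) q = G q) {s : ℂ} (hs : ‖s‖ < r) :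
    RA α (σ (s, 0)) (z₀ + s + l) (G (s, 0)) := by
  have hp := mem_ball_s0 hs
  refine ⟨_, _, fun q => G ((s, 0) + q), b.germ _ hp, ?_, b.shift_D hp rfl, ?_, shift_an (hGa _ hp), ?_, ?_⟩
  · show σ ((s, 0) + 0) = σ (s, 0)
    rw [add_zero]
  · filter_upwards [b.shift_lift hp hl] with q hq
    have e : z₀ + ((s, 0) + q : ℂ × ℂ).1 + l = z₀ + s + l + q.1 := by rw [Prod.fst_add]; ring
    rw [e] at hq
    exact hq
  · have h1 := b.shift_eq (α := α) hp rfl hG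
    have e : (fun q : ℂ × ℂ => z₀ + ((s, 0) + q : ℂ × ℂ).1 + l) = fun q => z₀ + s + l + q.1 := by
      funext q
      rw [Prod.fst_add]
      ring
    simp only [e] at h1
    exact h1
  · show G ((s, 0) + 0) = G (s, 0)
    rw [add_zero]

/-- sections in `D`: `F z = c • σ (z - z₀, 0)` in a chart with `u = z₀ + s` -/
theorem sec_near (hu : TorusMap X Λ u) (hΛ : Dsc Λ) (hsub : D ⊆ X) (hs : ∀ x ∈ D, ∀ c : ℂ, c ≠ 0 → c • x ∈ D)
    {F : ℂ → EN N} (hF : Differentiable ℂ F) (hFD : ∀ z, F z ∈ D) (hFu : ∀ z, u (F z) - z ∈ Λ)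
    {σ : ℂ × ℂ → EN N} {τ : EN N → ℂ × ℂ} {z₀ : ℂ} {r : ℝ} (b : Bx X D Λ u σ τ (fun p => z₀ + p.1) r) (h0 : σ 0 = F z₀) :
    ∀ᶠ z in 𝓝 z₀, ‖z - z₀‖ < r ∧ ∃ c : ℂ, c ≠ 0 ∧ F z = c • σ (z - z₀, 0) := by
  have hcov := b.cover hs hsub
  rw [h0] at hcov
  have hFc : Tendsto F (𝓝 z₀) (𝓝 (F z₀)) := hF.continuous.continuousAt
  have hτ0 : τ (F z₀) = 0 := by
    have h6 := (b.germ 0 (mem_ball_self b.pos)).left.self_of_nhds
    simp only [add_zero, sub_zero] at h6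
    rw [h0] at h6
    exact h6
  have hτa : AnalyticAt ℂ τ (F z₀) := by
    have h6 := (b.germ 0 (mem_ball_self b.pos)).τ_an
    simp only [add_zero, sub_zero] at h6
    rw [h0] at h6
    exact h6
  have hc : ContinuousAt (fun z => (τ (F z)).1 - (z - z₀)) z₀ := by
    have h1 : ContinuousAt (fun z => τ (F z)) z₀ := ContinuousAt.comp (g := τ) (f := F) hτa.continuousAt hF.continuous.continuousAt
    have h2 : ContinuousAt (fun z : ℂ => z - z₀) z₀ := by fun_prop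
    exact h1.fst.sub h2
  have h1 := dsc_eq hΛ hc (by show (τ (F z₀)).1 - (z₀ - z₀) = 0; rw [hτ0]; simp)
  have h2 : ∀ᶠ z in 𝓝 z₀, ‖z - z₀‖ < r := by
    have : ContinuousAt (fun z : ℂ => ‖z - z₀‖) z₀ := by fun_prop
    exact this.eventually_lt_const (by simp [b.pos])
  filter_upwards [h1, hFc.eventually hcov, h2] with z h3 h4 h5
  obtain ⟨c, s, hc, hsr, hyc, hτy⟩ := h4 (hFD z)
  refine ⟨h5, c, hc, ?_⟩
  rw [hτy] at h3
  have h6 : (s - (z - z₀) : ℂ) ∈ Λ := by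
    have hm := mem_ball_s0 hsr
    have h7 := b.lift _ hm
    have h8 := hu.smul _ (b.mem _ hm) c hc
    rw [← hyc] at h8
    have h9 := hFu z
    have h10 := Λ.sub_mem h9 (Λ.add_mem h8 h7)
    have e : u (F z) - z - (u (F z) - u (σ (s, 0)) + (u (σ (s, 0)) - (z₀ + ((s, 0) : ℂ × ℂ).1))) = s - (z - z₀) := by ring
    rwa [e] at h10
  have h7 : s = z - z₀ := sub_eq_zero.1 (h3 h6)
  rw [← h7]
  exact hyc

/-- at the points of a section in `D` there are charts with `u = z₀ + s` -/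
theorem sec_chart (hu : TorusMap X Λ u) (hΛ : Dsc Λ) (hsub : D ⊆ X) (hs : ∀ x ∈ D, ∀ c : ℂ, c ≠ 0 → c • x ∈ D)
    (hh : ∀ x ∈ D, ∃ (b : ℂ) (i : ℕ), 1 ≤ i ∧ HorAt X Λ u D x b i)
    {F : ℂ → EN N} (hF : Differentiable ℂ F) (hFD : ∀ z, F z ∈ D) (hFu : ∀ z, u (F z) - z ∈ Λ) (z₀ : ℂ) :
    ∃ (σ : ℂ × ℂ → EN N) (τ : EN N → ℂ × ℂ) (r : ℝ), Bx X D Λ u σ τ (fun p => z₀ + p.1) r ∧ σ 0 = F z₀ ∧ IsGermChart X σ τ := by
  obtain ⟨b, i, hi, hb⟩ := hh (F z₀) (hFD z₀)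
  obtain ⟨σ, τ, r, B, h0, hg⟩ := exists_bx_at hb
  have hcov := B.cover hs hsub
  rw [h0] at hcov
  have hFc : Tendsto F (𝓝 z₀) (𝓝 (F z₀)) := hF.continuous.continuousAt
  have hτ0 : τ (F z₀) = 0 := by
    have h6 := hg.left.self_of_nhds
    rwa [h0] at h6
  have hτa : AnalyticAt ℂ τ (F z₀) := by
    have h6 := hg.τ_an
    rwa [h0] at h6
  have hbz : b - z₀ ∈ Λ := by
    have h1 := B.lift 0 (mem_ball_self B.pos)
    rw [h0] at h1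
    have h2 := Λ.sub_mem (hFu z₀) h1
    have e : u (F z₀) - z₀ - (u (F z₀) - (b + (0 : ℂ × ℂ).1 ^ i)) = b - z₀ := by
      have : (0 : ℂ × ℂ).1 ^ i = 0 := by
        show (0 : ℂ) ^ i = 0
        exact zero_pow (by omega)
      rw [this]
      ring
    rwa [e] at h2
  have hτF : AnalyticAt ℂ (fun z => τ (F z)) z₀ := AnalyticAt.comp (g := τ) (f := F) hτa (hF.analyticAt z₀)
  have hsan : AnalyticAt ℂ (fun z => (τ (F z)).1) z₀ := AnalyticAt.comp (g := Prod.fst) (f := fun z => τ (F z)) analyticAt_fst hτF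
  have hs0 : (τ (F z₀)).1 = 0 := by rw [hτ0]; rfl
  have hpow : ∀ᶠ z in 𝓝 z₀, (τ (F z)).1 ^ i = z - z₀ := by
    have hc : ContinuousAt (fun z => (τ (F z)).1 ^ i - (z - z₀)) z₀ := by
      have h2 : ContinuousAt (fun z : ℂ => z - z₀) z₀ := by fun_prop
      exact (hsan.continuousAt.pow i).sub h2
    have h1 := dsc_eq hΛ hc (by show (τ (F z₀)).1 ^ i - (z₀ - z₀) = 0; rw [hs0, zero_pow (by omega)]; simp)
    filter_upwards [h1, hFc.eventually hcov] with z h3 h4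
    obtain ⟨c, s, hc, hsr, hyc, hτy⟩ := h4 (hFD z)
    rw [hτy] at h3 ⊢
    have h6 : (s ^ i - (z - z₀) : ℂ) ∈ Λ := by
      have hm := mem_ball_s0 hsr
      have h7 := B.lift _ hm
      have h8 := hu.smul _ (B.mem _ hm) c hc
      rw [← hyc] at h8
      have h10 := Λ.sub_mem (Λ.sub_mem (hFu z) (Λ.add_mem h8 h7)) hbz
      have e : u (F z) - z - (u (F z) - u (σ (s, 0)) + (u (σ (s, 0)) - (b + ((s, 0) : ℂ × ℂ).1 ^ i))) - (b - z₀) = s ^ i - (z - z₀) := by ring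
      rwa [e] at h10
    exact sub_eq_zero.1 (h3 h6)
  have hi1 : i = 1 := by
    by_contra hne
    have h1 : HasDerivAt (fun z => (τ (F z)).1 ^ i) (i * (τ (F z₀)).1 ^ (i - 1) * deriv (fun z => (τ (F z)).1) z₀) z₀ :=
      hsan.differentiableAt.hasDerivAt.pow i
    have h2 : HasDerivAt (fun z : ℂ => z - z₀) 1 z₀ := (hasDerivAt_id z₀).sub_const z₀
    have h3 := h1.unique (h2.congr_of_eventuallyEq hpow)
    rw [hs0, zero_pow (by omega), mul_zero, zero_mul] at h3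
    exact zero_ne_one h3
  subst hi1
  refine ⟨σ, τ, r, ⟨B.pos, B.germ, B.σ_an, B.mem, B.D_iff, fun p _ => analyticAt_const.add analyticAt_fst, ?_⟩, h0, hg⟩
  intro p hp
  have h1 := Λ.add_mem (B.lift p hp) hbz
  have e : u (σ p) - (b + p.1 ^ 1) + (b - z₀) = u (σ p) - (z₀ + p.1) := by ring
  rwa [e] at h1

/-- the residues along a section are an entire function -/
theorem res_fun (hX : OCone X) (hu : TorusMap X Λ u) (hΛ : Dsc Λ) (hsub : D ⊆ X) (hs : ∀ x ∈ D, ∀ c : ℂ, c ≠ 0 → c • x ∈ D)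
    (hcl : ∀ x ∈ X, x ∉ D → ∀ᶠ y in 𝓝 x, y ∉ D) (hh : ∀ x ∈ D, ∃ (b : ℂ) (i : ℕ), 1 ≤ i ∧ HorAt X Λ u D x b i)
    {α : TForm (X \ D) Λ u} (hlog : LogP α) {F : ℂ → EN N} (hF : Differentiable ℂ F) (hFD : ∀ z, F z ∈ D) (hFu : ∀ z, u (F z) - z ∈ Λ) :
    ∃ ρ : ℂ → ℂ, Differentiable ℂ ρ ∧ ∀ z, RA α (F z) z (ρ z) := by
  have h1 : ∀ z₀, ∃ (σ : ℂ × ℂ → EN N) (τ : EN N → ℂ × ℂ) (r : ℝ) (G : ℂ × ℂ → ℂ), Bx X D Λ u σ τ (fun p => z₀ + p.1) r ∧ σ 0 = F z₀ ∧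
      (∀ p ∈ ball (0 : ℂ × ℂ) r, AnalyticAt ℂ G p) ∧
      ∀ q ∈ ball (0 : ℂ × ℂ) r, q.2 ≠ 0 → q.2 * cf α σ (fun q => z₀ + q.1 + 0) q = G q := by
    intro z₀
    obtain ⟨σ, τ, r, B, h0, -⟩ := sec_chart hu hΛ hsub hs hh hF hFD hFu z₀
    obtain ⟨G, h2, h3⟩ := B.num hcl hlog Λ.zero_mem
    exact ⟨σ, τ, r, G, B, h0, h2, h3⟩
  choose σ τ r G B h0 hGa hG using h1
  have hRA : ∀ z₀ s : ℂ, ‖s‖ < r z₀ → RA α (σ z₀ (s, 0)) (z₀ + s) (G z₀ (s, 0)) := by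
    intro z₀ s hs
    have := RA.of_bx (B z₀) Λ.zero_mem (hGa z₀) (hG z₀) hs
    rwa [add_zero] at this
  have hR0 : ∀ z, RA α (F z) z (G z 0) := by
    intro z
    have := hRA z 0 (by rw [norm_zero]; exact (B z).pos)
    rw [add_zero] at this
    have e : ((0, 0) : ℂ × ℂ) = 0 := rfl
    rw [e, h0] at this
    exact this
  refine ⟨fun z => G z 0, ?_, hR0⟩
  intro z₀
  have h2 := sec_near hu hΛ hsub hs hF hFD hFu (B z₀) (h0 z₀)
  have h3 : ∀ᶠ z in 𝓝 z₀, G z 0 = G z₀ (z - z₀, 0) := by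
    filter_upwards [h2] with z hz
    obtain ⟨h4, c, hc, h5⟩ := hz
    have h6 := (hRA z₀ (z - z₀) h4).smul hX hu hs hcl hc
    rw [← h5, add_sub_cancel] at h6
    exact RA.unique hX hu hΛ hs hcl (hR0 z) h6
  have h4 : DifferentiableAt ℂ (fun z => G z₀ (z - z₀, 0)) z₀ := by
    have h5 : AnalyticAt ℂ (fun z : ℂ => ((z - z₀, 0) : ℂ × ℂ)) z₀ := (analyticAt_id.sub analyticAt_const).prod analyticAt_const
    have h6 : AnalyticAt ℂ (fun z => G z₀ (z - z₀, 0)) z₀ :=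
      AnalyticAt.comp (g := G z₀) (f := fun z : ℂ => ((z - z₀, 0) : ℂ × ℂ)) (by
        rw [sub_self]
        exact hGa z₀ _ (mem_ball_self (B z₀).pos)) h5
    exact h6.differentiableAt
  exact h4.congr_of_eventuallyEq h3

theorem sec_shift {F : ℂ → EN N} (hF : Differentiable ℂ F) (hFD : ∀ z, F z ∈ D) (hFu : ∀ z, u (F z) - z ∈ Λ) {l : ℂ} (hl : l ∈ Λ) :
    Differentiable ℂ (fun z => F (z - l)) ∧ (∀ z, F (z - l) ∈ D) ∧ ∀ z, u (F (z - l)) - z ∈ Λ := by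
  refine ⟨hF.comp (differentiable_id.sub_const l), fun z => hFD _, fun z => ?_⟩
  have h1 := Λ.sub_mem (hFu (z - l)) hl
  have e : u (F (z - l)) - (z - l) - l = u (F (z - l)) - z := by ring
  rwa [e] at h1

/-- all the residues along a section vanish -/
theorem res_zero (hX : OCone X) (hu : TorusMap X Λ u) (hΛ : Dsc Λ) (hsub : D ⊆ X) (hs : ∀ x ∈ D, ∀ c : ℂ, c ≠ 0 → c • x ∈ D)
    (hcl : ∀ x ∈ X, x ∉ D → ∀ᶠ y in 𝓝 x, y ∉ D) (hh : ∀ x ∈ D, ∃ (b : ℂ) (i : ℕ), 1 ≤ i ∧ HorAt X Λ u D x b i)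
    {α : TForm (X \ D) Λ u} (hlog : LogP α) (hres : ResBd α) (hvan : VanZero α)
    {F : ℂ → EN N} (hF : Differentiable ℂ F) (hFD : ∀ z, F z ∈ D) (hFu : ∀ z, u (F z) - z ∈ Λ) (z : ℂ) : RA α (F z) z 0 := by
  obtain ⟨ρ, hρ, hRA⟩ := res_fun hX hu hΛ hsub hs hcl hh hlog hF hFD hFu
  obtain ⟨C, hC⟩ := hres F hF hFD hFu
  have hbd : ∀ z, ‖ρ z‖ ≤ C := by
    intro z
    obtain ⟨σ, τ, g, h1, h2, h3, h4, h5, h6, h7⟩ := hRA z
    obtain ⟨g', h8, h9, h10⟩ := hC z σ τ h1 h2 h3 h4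
    have h11 : RA α (F z) z (g' 0) := ⟨σ, τ, g', h1, h2, h3, h4, h8, h10, rfl⟩
    rw [RA.unique hX hu hΛ hs hcl (hRA z) h11]
    exact h9
  have hb : Bornology.IsBounded (Set.range ρ) := by
    rw [isBounded_iff_forall_norm_le]
    refine ⟨C, ?_⟩
    rintro _ ⟨z, rfl⟩
    exact hbd z
  have h0 : ρ 0 = 0 := by
    obtain ⟨σ, τ, g, h1, h2, h3, h4, h5, h6, h7⟩ := hRA 0
    rw [← h7]
    have hct : Tendsto (fun t : ℂ => ((0, t) : ℂ × ℂ)) (𝓝 0) (𝓝 0) := by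
      have h1 : Continuous fun t : ℂ => ((0, t) : ℂ × ℂ) := by fun_prop
      exact h1.tendsto' 0 0 rfl
    have hL1 : Tendsto (fun t : ℂ => g (0, t)) (𝓝[≠] 0) (𝓝 (g 0)) := (h5.continuousAt.tendsto.comp hct).mono_left nhdsWithin_le_nhds
    have hY := ocone_sdiff hX hs
    refine tendsto_nhds_unique (hL1.congr' ?_) tendsto_const_nhds
    filter_upwards [nhdsWithin_le_nhds (hct.eventually (h6.and (h3.and (h4.and (h1.σ_mem.eventually_nhds.and h1.σ_an.eventually_analyticAt))))),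
      self_mem_nhdsWithin] with t h8 h9
    obtain ⟨h10, h11, h12, h13, h14⟩ := h8
    have ht : t ≠ 0 := h9
    have hmX : σ (0, t) ∈ X := h13.self_of_nhds
    have hmD : σ (0, t) ∉ D := fun h15 => ht (h11.1 h15)
    have hmem : ∀ᶠ q in 𝓝 ((0, t) : ℂ × ℂ), σ q ∈ X \ D := by
      filter_upwards [h13, h14.continuousAt.eventually (hcl _ hmX hmD)] with q h9 h10
      exact ⟨h9, h10⟩
    have htA : ∀ A : ℂ × ℂ, Tan (X \ D) (σ (0, t)) (fderiv ℂ σ (0, t) A) := by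
      intro A
      have := tan_param hY h14 hmem A 0
      rwa [zero_smul, add_zero] at this
    have hu0 : u (σ (0, t)) ∈ Λ := by
      have e : u (σ (0, t)) - (0 + ((0, t) : ℂ × ℂ).1) = u (σ (0, t)) := by simp
      rwa [e] at h12
    have h16 := hvan (σ (0, t)) ⟨hmX, hmD⟩ hu0 _ _ (htA (1, 0)) (htA (0, 1))
    have h17 : cf α σ (fun p => 0 + p.1) (0, t) = 0 := by
      show α.toFun (0 + ((0, t) : ℂ × ℂ).1) (σ (0, t)) _ _ = 0
      have e : (0 + ((0, t) : ℂ × ℂ).1 : ℂ) = 0 := by simp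
      rw [e]
      exact h16
    rw [← h10 ht, h17, mul_zero]
  have h1 : ρ z = 0 := by rw [hρ.apply_eq_apply_of_bounded hb z 0, h0]
  have h2 := hRA z
  rwa [h1] at h2

/-- points of sections in `D` belong to `QQ` -/
theorem sec_QQ (hX : OCone X) (hu : TorusMap X Λ u) (hΛ : Dsc Λ) (hsub : D ⊆ X) (hs : ∀ x ∈ D, ∀ c : ℂ, c ≠ 0 → c • x ∈ D)
    (hcl : ∀ x ∈ X, x ∉ D → ∀ᶠ y in 𝓝 x, y ∉ D) (hh : ∀ x ∈ D, ∃ (b : ℂ) (i : ℕ), 1 ≤ i ∧ HorAt X Λ u D x b i)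
    {α : TForm (X \ D) Λ u} (hlog : LogP α) (hres : ResBd α) (hvan : VanZero α)
    {F : ℂ → EN N} (hF : Differentiable ℂ F) (hFD : ∀ z, F z ∈ D) (hFu : ∀ z, u (F z) - z ∈ Λ) : F 0 ∈ QQ α := by
  refine ⟨hFD 0, fun l hl => ?_⟩
  have hlm : l ∈ Λ := by
    have h1 := Λ.sub_mem (hFu 0) hl
    have e : u (F 0) - 0 - (u (F 0) - l) = l := by ring
    rwa [e] at h1
  obtain ⟨σ, τ, r, B, h0, -⟩ := sec_chart hu hΛ hsub hs hh hF hFD hFu 0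
  obtain ⟨G, hGa, hG⟩ := B.num hcl hlog hlm
  obtain ⟨h1, h2, h3⟩ := sec_shift hF hFD hFu hlm
  have h4 := sec_near hu hΛ hsub hs hF hFD hFu B h0
  have h5 : ∀ᶠ s in 𝓝 (0 : ℂ), G (s, 0) = 0 := by
    filter_upwards [h4] with s hs'
    obtain ⟨h6, c, hc, h7⟩ := hs'
    rw [sub_zero] at h6 h7
    have h8 := res_zero hX hu hΛ hsub hs hcl hh hlog hres hvan h1 h2 h3 (s + l)
    simp only [add_sub_cancel_right] at h8
    have h9 := (RA.of_bx B hlm hGa hG h6).smul hX hu hs hcl hc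
    rw [← h7, zero_add] at h9
    exact RA.unique hX hu hΛ hs hcl h9 h8
  have h6 := B.exd_of_zero hX hu hs hcl hlm hGa hG (mem_ball_self B.pos) rfl h5
  rw [h0] at h6
  have e : (0 : ℂ) + (0 : ℂ × ℂ).1 + l = l := by simp
  rwa [e] at h6

end Pool.Agent.H86.LU
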